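import Mathlib

/-!
# Pattern relations on lists

A pattern relation is an equivalence relation between lists that are permutations of each other,
compatible with arbitrary relabelling, which is trivial for long lists.
-/

namespace Pool.Agent.Helper53

/-- Pattern relations. -/
structure PatRel (k : ℕ) (R : List ℕ → List ℕ → Prop) : Prop where
  refl : ∀ u, R u u
  symm : ∀ u v, R u v → R v u
  trans : ∀ u v w, u.Perm v → v.Perm w → R u v → R v w → R u w
  map : ∀ (e : ℕ → ℕ) u v, R u v → R (u.map e) (v.map e)
  long : ∀ u v, u.Perm v → k ≤ u.length → R u v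

/-- The relation is total (on permutations). -/
def Tot (R : List ℕ → List ℕ → Prop) : Prop := ∀ u v, u.Perm v → R u v

/-- The relation is invariant under rotations. -/
def Cyc (R : List ℕ → List ℕ → Prop) : Prop := ∀ x u, R (x :: u) (u ++ [x])

/-- Relabelling of a duplicate-free list. -/
lemma exists_map_eq (u w : List ℕ) (hu : u.Nodup) (h : u.length = w.length) :
    ∃ e : ℕ → ℕ, u.map e = w ∧ ∀ x ∉ u, e x = x := by
  induction u generalizing w with
  | nil =>
    refine ⟨id, ?_, fun x _ => rfl⟩
    rw [List.length_nil] at h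
    rw [List.map_nil, List.eq_nil_of_length_eq_zero h.symm]
  | cons a u ih =>
    match w, h with
    | b :: w, h =>
      rw [List.nodup_cons] at hu
      obtain ⟨e, he1, he2⟩ := ih w hu.2 (by simpa using h)
      refine ⟨Function.update e a b, ?_, ?_⟩
      · rw [List.map_cons, Function.update_self]
        congr 1
        rw [← he1]
        apply List.map_congr_left
        intro x hx
        rw [Function.update_of_ne]
        rintro rfl
        exact hu.1 hx
      · intro x hx
        rw [List.mem_cons, not_or] at hx
        rw [Function.update_of_ne hx.1]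
        exact he2 x hx.2

/-- A list all of whose entries satisfy: fresh element. -/
lemma exists_fresh (u : List ℕ) : ∃ z, z ∉ u := by
  obtain ⟨z, hz⟩ := Infinite.exists_notMem_finset u.toFinset
  exact ⟨z, by simpa using hz⟩

section

variable {k : ℕ} {R : List ℕ → List ℕ → Prop}

/-- If all adjacent swaps are allowed, the relation is total. -/
lemma tot_of_swap (hR : PatRel k R)
    (h : ∀ (p q : List ℕ) (x y : ℕ), p.length < k → q.length < k →
      R (p ++ x :: y :: q) (p ++ y :: x :: q)) : Tot R := by
  have h' : ∀ (p q : List ℕ) (x y : ℕ), R (p ++ x :: y :: q) (p ++ y :: x :: q) := by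
    intro p q x y
    by_cases hp : p.length < k ∧ q.length < k
    · exact h p q x y hp.1 hp.2
    · apply hR.long
      · exact List.Perm.append_left p (List.Perm.swap y x q)
      · simp only [List.length_append, List.length_cons]
        omega
  have key : ∀ u v : List ℕ, u.Perm v → ∀ p : List ℕ, R (p ++ u) (p ++ v) := by
    intro u v huv
    induction huv with
    | nil => intro p; exact hR.refl _
    | cons x _ ih =>
      intro p
      have := ih (p ++ [x])
      simpa using this
    | swap x y l => intro p; exact h' p l y x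
    | trans h1 h2 ih1 ih2 =>
      intro p
      exact hR.trans _ _ _ (List.Perm.append_left p h1) (List.Perm.append_left p h2)
        (ih1 p) (ih2 p)
  intro u v huv
  simpa using key u v huv []

/-- Rotation by several letters. -/
lemma cyc_rotate (hR : PatRel k R) (hc : Cyc R) (u v : List ℕ) : R (u ++ v) (v ++ u) := by
  induction u generalizing v with
  | nil => simpa using hR.refl v
  | cons x u ih =>
    have h1 : R (x :: (u ++ v)) ((u ++ v) ++ [x]) := hc x (u ++ v)
    have h2 : R (u ++ (v ++ [x])) ((v ++ [x]) ++ u) := ih (v ++ [x])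
    have h3 : (u ++ v) ++ [x] = u ++ (v ++ [x]) := by simp
    rw [h3] at h1
    have h4 : (v ++ [x]) ++ u = v ++ x :: u := by simp
    rw [h4] at h2
    refine hR.trans _ _ _ ?_ ?_ h1 h2
    · rw [← h3]
      exact (List.perm_append_singleton x (u ++ v)).symm
    · rw [← h4]
      exact List.perm_append_comm

/-- A rotation-invariant relation with the swap of the first two letters is total. -/
lemma tot_of_cyc_swap (hR : PatRel k R) (hc : Cyc R)
    (h : ∀ (q : List ℕ) (x y : ℕ), q.length < k → R (x :: y :: q) (y :: x :: q)) : Tot R := by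
  have h' : ∀ (q : List ℕ) (x y : ℕ), R (x :: y :: q) (y :: x :: q) := by
    intro q x y
    by_cases hq : q.length < k
    · exact h q x y hq
    · apply hR.long
      · exact List.Perm.swap y x q
      · simp only [List.length_cons]
        omega
  apply tot_of_swap hR
  intro p q x y _ _
  have h1 : R (p ++ (x :: y :: q)) ((x :: y :: q) ++ p) := cyc_rotate hR hc _ _
  have h2 : R ((y :: x :: q) ++ p) (p ++ (y :: x :: q)) := cyc_rotate hR hc _ _
  have h3 : R (x :: y :: (q ++ p)) (y :: x :: (q ++ p)) := h' _ _ _
  refine hR.trans _ _ _ List.perm_append_comm ?_ h1 ?_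
  · exact (List.Perm.append_right p (List.Perm.swap y x q)).trans List.perm_append_comm
  · refine hR.trans _ _ _ ?_ List.perm_append_comm h3 h2
    exact List.Perm.append_right p (List.Perm.swap y x q)

/-- The property that one letter can be moved across a block. -/
def Mov (R : List ℕ → List ℕ → Prop) (c d e : ℕ) : Prop :=
  ∀ (p q s : List ℕ) (x : ℕ), p.length ≤ c → q.length ≤ d → s.length ≤ e →
    R (p ++ x :: (q ++ s)) (p ++ (q ++ x :: s))

lemma mov_tot_middle (hR : PatRel k R) {c d e : ℕ} (h : Mov R c d e) (hd : 1 ≤ d)
    (hc : k ≤ c) (he : k ≤ e) : Tot R := by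
  apply tot_of_swap hR
  intro p q x y hp hq
  have := h p [y] q x (by omega) (by simpa using hd) (by omega)
  simpa using this

lemma mov_cyc (hR : PatRel k R) {c d e : ℕ} (h : Mov R c d e) (hd : k ≤ d) : Cyc R := by
  intro x u
  by_cases hu : u.length < k
  · have := h [] u [] x (by simp) (by omega) (by simp)
    simpa using this
  · apply hR.long
    · exact (List.perm_append_singleton x u).symm
    · simp only [List.length_cons]; omega

lemma mov_tot_left (hR : PatRel k R) {c d e : ℕ} (h : Mov R c d e) (hd : k ≤ d)
    (hc : 1 ≤ c) : Tot R := by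
  have hcyc := mov_cyc hR h hd
  apply tot_of_cyc_swap hR hcyc
  intro q x y hq
  -- `x :: y :: q ~ x :: q ++ [y]`
  have h1 : R (x :: y :: q) (x :: (q ++ [y])) := by
    have := h [x] q [] y (by simpa using hc) (by omega) (by simp)
    simpa using this
  have h2 : R (y :: x :: q) ((x :: q) ++ [y]) := hcyc y (x :: q)
  have h3 : (x :: q) ++ [y] = x :: (q ++ [y]) := by simp
  rw [h3] at h2
  refine hR.trans _ _ _ ?_ ?_ h1 (hR.symm _ _ h2)
  · exact List.Perm.cons x (List.perm_append_singleton y q).symm
  · exact (List.Perm.cons x (List.perm_append_singleton y q)).trans (List.Perm.swap y x q)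

lemma mov_tot_right (hR : PatRel k R) {c d e : ℕ} (h : Mov R c d e) (hd : k ≤ d)
    (he : 1 ≤ e) : Tot R := by
  have hcyc := mov_cyc hR h hd
  apply tot_of_cyc_swap hR hcyc
  intro q x y hq
  have h1 : R (x :: (q ++ [y])) (q ++ [x, y]) := by
    have := h [] q [y] x (by simp) (by omega) (by simpa using he)
    simpa using this
  have h2 : R (y :: x :: q) ((x :: q) ++ [y]) := hcyc y (x :: q)
  have h3 : (x :: q) ++ [y] = x :: (q ++ [y]) := by simp
  rw [h3] at h2
  have h4 : R (q ++ [x, y]) ([x, y] ++ q) := cyc_rotate hR hcyc _ _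
  have p1 : (y :: x :: q).Perm (x :: (q ++ [y])) :=
    (List.Perm.swap x y q).trans (List.Perm.cons x (List.perm_append_singleton y q).symm)
  have p2 : (x :: (q ++ [y])).Perm (q ++ [x, y]) := by
    have : (x :: (q ++ [y])).Perm ((q ++ [y]) ++ [x]) := (List.perm_append_singleton x _).symm
    refine this.trans ?_
    rw [List.append_assoc]
    exact List.Perm.append_left q (List.Perm.swap x y [])
  have h5 : R (y :: x :: q) (q ++ [x, y]) := hR.trans _ _ _ p1 p2 h2 h1
  have h6 : R (y :: x :: q) ([x, y] ++ q) :=
    hR.trans _ _ _ (p1.trans p2) List.perm_append_comm h5 h4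
  exact hR.symm _ _ h6

/-- If the relation is neither total nor cyclic, then a letter can only move near the ends. -/
lemma mov_bound (hR : PatRel k R) (hT : ¬ Tot R) (hC : ¬ Cyc R) {c d K : ℕ}
    (hK : 3 * k ≤ K) (hcd : c + d ≤ K) (hd : 1 ≤ d) (h : Mov R c d (K - (c + d))) :
    (c < 2 * k ∧ c + d < 2 * k) ∨ (K - 2 * k < c ∧ K - 2 * k < c + d) := by
  have h1 : d < k := by
    by_contra hcon
    push Not at hcon
    exact hC (mov_cyc hR h hcon)
  have h2 : ¬ (k ≤ c ∧ k ≤ K - (c + d)) := by
    rintro ⟨h3, h4⟩
    exact hT (mov_tot_middle hR h hd h3 h4)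
  omega

end

end Pool.Agent.Helper53
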