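import Mathlib
import Pool.Agent.Helper53.PatRel

/-!
# Cuts of an element in a sorted list
-/

namespace Pool.Agent.Helper53

/-- The number of entries of the list `ζ` which are below `x` with respect to the rank `f`. -/
def cut (f : ℕ → ℕ) (ζ : List ℕ) (x : ℕ) : ℕ := ζ.countP (fun z => decide (f z < f x))

lemma cut_le_length (f : ℕ → ℕ) (ζ : List ℕ) (x : ℕ) : cut f ζ x ≤ ζ.length :=
  List.countP_le_length

lemma cut_mono {f : ℕ → ℕ} {ζ : List ℕ} {x y : ℕ} (h : f x ≤ f y) : cut f ζ x ≤ cut f ζ y := by
  unfold cut
  apply List.countP_mono_left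
  intro z _ hz
  simp only [decide_eq_true_eq] at hz ⊢
  omega

lemma lt_of_cut_lt {f : ℕ → ℕ} {ζ : List ℕ} {x y : ℕ} (h : cut f ζ x < cut f ζ y) :
    f x < f y := by
  by_contra hcon
  push Not at hcon
  have := cut_mono (ζ := ζ) hcon
  omega

lemma cut_take {f : ℕ → ℕ} {ζ : List ℕ} (hζ : ζ.Pairwise (fun a b => f a < f b)) (x : ℕ) :
    (∀ z ∈ ζ.take (cut f ζ x), f z < f x) ∧ (∀ z ∈ ζ.drop (cut f ζ x), f x ≤ f z) := by
  induction ζ with
  | nil => simp
  | cons a ζ ih =>
    rw [List.pairwise_cons] at hζ
    obtain ⟨ih1, ih2⟩ := ih hζ.2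
    by_cases ha : f a < f x
    · have h1 : cut f (a :: ζ) x = cut f ζ x + 1 := by
        unfold cut
        rw [List.countP_cons_of_pos (by simpa using ha)]
      rw [h1, List.take_succ_cons, List.drop_succ_cons]
      refine ⟨?_, ih2⟩
      intro z hz
      rw [List.mem_cons] at hz
      rcases hz with rfl | hz
      · exact ha
      · exact ih1 z hz
    · have h1 : cut f (a :: ζ) x = 0 := by
        unfold cut
        rw [List.countP_eq_zero]
        intro z hz
        rw [List.mem_cons] at hz
        simp only [decide_eq_true_eq]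
        rcases hz with rfl | hz
        · exact ha
        · have := hζ.1 z hz
          omega
      rw [h1]
      refine ⟨by simp, ?_⟩
      intro z hz
      rw [List.drop_zero, List.mem_cons] at hz
      rcases hz with rfl | hz
      · omega
      · have := hζ.1 z hz
        omega

/-- The cut of an element of the list itself is its index. -/
lemma cut_getElem {f : ℕ → ℕ} {ζ : List ℕ} (hζ : ζ.Pairwise (fun a b => f a < f b)) (q : ℕ)
    (hq : q < ζ.length) : cut f ζ ζ[q] = q := by
  induction ζ generalizing q with
  | nil => simp at hq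
  | cons a ζ ih =>
    rw [List.pairwise_cons] at hζ
    match q with
    | 0 =>
      simp only [List.getElem_cons_zero]
      unfold cut
      rw [List.countP_eq_zero]
      intro z hz
      rw [List.mem_cons] at hz
      simp only [decide_eq_true_eq]
      rcases hz with rfl | hz
      · omega
      · have := hζ.1 z hz
        omega
    | q + 1 =>
      have hq' : q < ζ.length := by simpa using hq
      simp only [List.getElem_cons_succ]
      unfold cut
      rw [List.countP_cons_of_pos]
      · have := ih hζ.2 q hq'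
        unfold cut at this
        rw [this]
      · simp only [decide_eq_true_eq]
        exact hζ.1 _ (List.getElem_mem hq')

lemma pairwise_nodup {f : ℕ → ℕ} {u : List ℕ} (h : u.Pairwise (fun a b => f a < f b)) :
    u.Nodup := by
  refine h.imp ?_
  rintro a b hab rfl
  exact lt_irrefl _ hab

lemma pairwise_insert {f : ℕ → ℕ} {l₁ l₂ : List ℕ} {x : ℕ}
    (h : (l₁ ++ l₂).Pairwise (fun a b => f a < f b)) (h1 : ∀ a ∈ l₁, f a < f x)
    (h2 : ∀ b ∈ l₂, f x < f b) : (l₁ ++ x :: l₂).Pairwise (fun a b => f a < f b) := by
  rw [List.pairwise_append] at h ⊢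
  refine ⟨h.1, ?_, ?_⟩
  · rw [List.pairwise_cons]
    exact ⟨h2, h.2.1⟩
  · intro a ha b hb
    rw [List.mem_cons] at hb
    rcases hb with rfl | hb
    · exact h1 a ha
    · exact h.2.2 a ha b hb

/-- Relabelling of a decomposed list. -/
lemma exists_map_eq₃ (p' q' s' p q s : List ℕ) (x' x : ℕ) (hnd : (p' ++ x' :: (q' ++ s')).Nodup)
    (hp : p'.length = p.length) (hq : q'.length = q.length) (hs : s'.length = s.length) :
    ∃ e : ℕ → ℕ, p'.map e = p ∧ q'.map e = q ∧ s'.map e = s ∧ e x' = x := by
  obtain ⟨e, he, _⟩ := exists_map_eq (p' ++ x' :: (q' ++ s')) (p ++ x :: (q ++ s)) hnd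
    (by simp [hp, hq, hs])
  rw [List.map_append, List.map_cons, List.map_append] at he
  have h1 := List.append_inj he (by simpa using hp)
  have h2 := List.cons_eq_cons.1 h1.2
  have h3 := List.append_inj h2.2 (by simpa using hq)
  exact ⟨e, h1.1, h3.1, h3.2, h2.1⟩

section

variable {k : ℕ} {R : List ℕ → List ℕ → Prop}

/-- If an element has cut `c` in one order and cut `c' ≥ c` in another one, then the letter can
be moved. -/
lemma mov_of_cuts (hR : PatRel k R) (ζ : List ℕ) (f f' : ℕ → ℕ) (hf : Function.Injective f)
    (hf' : Function.Injective f')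
    (x : ℕ) (hζ : ζ.Pairwise (fun a b => f a < f b)) (hζ' : ζ.Pairwise (fun a b => f' a < f' b))
    (hx : x ∉ ζ)
    (hcompat : ∀ u v : List ℕ, (∀ y ∈ u, y = x ∨ y ∈ ζ) → u.Pairwise (fun a b => f a < f b) →
      v.Pairwise (fun a b => f' a < f' b) → u.Perm v → R u v)
    (hcc : cut f ζ x ≤ cut f' ζ x) :
    Mov R (cut f ζ x) (cut f' ζ x - cut f ζ x) (ζ.length - cut f' ζ x) := by
  intro p q s x₁ hp hq hs
  set c := cut f ζ x with hc
  set c' := cut f' ζ x with hc'
  have hcl : c ≤ ζ.length := cut_le_length _ _ _
  have hcl' : c' ≤ ζ.length := cut_le_length _ _ _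
  set p' := ζ.take p.length with hp'
  set q' := (ζ.drop c).take q.length with hq'
  set s' := (ζ.drop c').take s.length with hs'
  have hpl : p'.length = p.length := by
    rw [hp', List.length_take]; omega
  have hql : q'.length = q.length := by
    rw [hq', List.length_take, List.length_drop]; omega
  have hsl : s'.length = s.length := by
    rw [hs', List.length_take, List.length_drop]; omega
  have hp'sub : p'.Sublist (ζ.take c) := (List.take_prefix_take_left (by omega)).sublist
  have hq'sub : q'.Sublist ((ζ.drop c).take (c' - c)) :=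
    (List.take_prefix_take_left (by omega)).sublist
  have hs'sub : s'.Sublist (ζ.drop c') := List.take_sublist _ _
  have hdrop : ζ.drop c' = (ζ.drop c).drop (c' - c) := by
    rw [List.drop_drop]; congr 1; omega
  have hdec : ζ.take c ++ ((ζ.drop c).take (c' - c) ++ ζ.drop c') = ζ := by
    rw [hdrop, List.take_append_drop, List.take_append_drop]
  have hsub : (p' ++ (q' ++ s')).Sublist ζ := by
    have := hp'sub.append (hq'sub.append hs'sub)
    rwa [hdec] at this
  have htake' : ζ.take c' = ζ.take c ++ (ζ.drop c).take (c' - c) := by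
    have : c' = c + (c' - c) := by omega
    rw [this, List.take_add]
    congr 2
    omega
  obtain ⟨hcut1, hcut2⟩ := cut_take hζ x
  obtain ⟨hcut1', hcut2'⟩ := cut_take hζ' x
  rw [← hc] at hcut1 hcut2
  rw [← hc'] at hcut1' hcut2'
  have hne : ∀ z ∈ ζ, z ≠ x := fun z hz h => hx (h ▸ hz)
  -- sortedness of the two lists
  have hu : (p' ++ x :: (q' ++ s')).Pairwise (fun a b => f a < f b) := by
    apply pairwise_insert (hζ.sublist hsub)
    · intro a ha
      exact hcut1 a (hp'sub.subset ha)
    · intro b hb
      have hb1 : b ∈ ζ.drop c := by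
        rw [List.mem_append] at hb
        rcases hb with hb | hb
        · exact List.mem_of_mem_take (hq'sub.subset hb)
        · have := hs'sub.subset hb
          rw [hdrop] at this
          exact List.mem_of_mem_drop this
      have h1 := hcut2 b hb1
      have h2 : f b ≠ f x := fun h => hne b (List.mem_of_mem_drop hb1) (hf h)
      omega
  have hv : (p' ++ (q' ++ x :: s')).Pairwise (fun a b => f' a < f' b) := by
    have : p' ++ (q' ++ x :: s') = (p' ++ q') ++ x :: s' := by simp
    rw [this]
    apply pairwise_insert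
    · rw [List.append_assoc]
      exact hζ'.sublist hsub
    · intro a ha
      apply hcut1' a
      rw [htake', List.mem_append]
      rw [List.mem_append] at ha
      rcases ha with ha | ha
      · exact Or.inl (hp'sub.subset ha)
      · exact Or.inr (hq'sub.subset ha)
    · intro b hb
      have hb1 : b ∈ ζ.drop c' := hs'sub.subset hb
      have h1 := hcut2' b hb1
      have h2 : f' b ≠ f' x := fun h => hne b (List.mem_of_mem_drop hb1) (hf' h)
      omega
  have hperm : (p' ++ x :: (q' ++ s')).Perm (p' ++ (q' ++ x :: s')) :=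
    List.Perm.append_left p' List.perm_middle.symm
  have hRuv : R (p' ++ x :: (q' ++ s')) (p' ++ (q' ++ x :: s')) := by
    apply hcompat _ _ _ hu hv hperm
    intro y hy
    rw [List.mem_append, List.mem_cons] at hy
    rcases hy with hy | hy | hy
    · exact Or.inr (hsub.subset (List.mem_append_left _ hy))
    · exact Or.inl hy
    · exact Or.inr (hsub.subset (List.mem_append_right _ hy))
  obtain ⟨e, he1, he2, he3, he4⟩ := exists_map_eq₃ p' q' s' p q s x x₁ (pairwise_nodup hu)
    hpl hql hsl
  have := hR.map e _ _ hRuv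
  simp only [List.map_append, List.map_cons, he1, he2, he3, he4] at this
  exact this

/-- If two elements outside `ζ` have the same cut in two orders, but are inverted, then the swap of
two adjacent letters is allowed at all places. -/
lemma tot_of_inverted (hR : PatRel k R) (ζ : List ℕ) (f f' : ℕ → ℕ) (hf : Function.Injective f)
    (hf' : Function.Injective f')
    (x y : ℕ) (hζ : ζ.Pairwise (fun a b => f a < f b)) (hζ' : ζ.Pairwise (fun a b => f' a < f' b))
    (hx : x ∉ ζ) (hy : y ∉ ζ) (hxy : f x < f y) (hyx : f' y < f' x)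
    (hcompat : ∀ u v : List ℕ, (∀ z ∈ u, z = x ∨ z = y ∨ z ∈ ζ) →
      u.Pairwise (fun a b => f a < f b) →
      v.Pairwise (fun a b => f' a < f' b) → u.Perm v → R u v)
    (c : ℕ) (h1 : cut f ζ x = c) (h2 : cut f ζ y = c) (h3 : cut f' ζ x = c) (h4 : cut f' ζ y = c)
    (hc1 : k ≤ c) (hc2 : k ≤ ζ.length - c) : Tot R := by
  apply tot_of_swap hR
  intro p q a b hp hq
  have hcl : c ≤ ζ.length := by rw [← h1]; exact cut_le_length _ _ _
  set p' := ζ.take p.length with hp'
  set q' := (ζ.drop c).take q.length with hq'
  have hpl : p'.length = p.length := by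
    rw [hp', List.length_take]; omega
  have hql : q'.length = q.length := by
    rw [hq', List.length_take, List.length_drop]; omega
  have hp'sub : p'.Sublist (ζ.take c) := (List.take_prefix_take_left (by omega)).sublist
  have hq'sub : q'.Sublist (ζ.drop c) := List.take_sublist _ _
  have hsub : (p' ++ q').Sublist ζ := by
    have := hp'sub.append hq'sub
    rwa [List.take_append_drop] at this
  have hnex : ∀ z ∈ ζ, z ≠ x := fun z hz h => hx (h ▸ hz)
  have hney : ∀ z ∈ ζ, z ≠ y := fun z hz h => hy (h ▸ hz)
  have hcx := cut_take hζ x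
  have hcy := cut_take hζ y
  have hcx' := cut_take hζ' x
  have hcy' := cut_take hζ' y
  rw [h1] at hcx
  rw [h2] at hcy
  rw [h3] at hcx'
  rw [h4] at hcy'
  have hlt : ∀ (g : ℕ → ℕ), Function.Injective g → ∀ w, (∀ z ∈ ζ, z ≠ w) →
      (∀ z ∈ ζ.drop c, g w ≤ g z) → ∀ z ∈ q', g w < g z := by
    intro g hg w hw hdrop z hz
    have hz1 := hq'sub.subset hz
    have h5 := hdrop z hz1
    have h6 : g z ≠ g w := fun h => hw z (List.mem_of_mem_drop hz1) (hg h)
    omega
  have hu : (p' ++ x :: y :: q').Pairwise (fun a b => f a < f b) := by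
    have h5 : (p' ++ y :: q').Pairwise (fun a b => f a < f b) :=
      pairwise_insert (hζ.sublist hsub) (fun z hz => hcy.1 z (hp'sub.subset hz))
        (hlt f hf y hney hcy.2)
    apply pairwise_insert h5 (fun z hz => hcx.1 z (hp'sub.subset hz))
    intro z hz
    rw [List.mem_cons] at hz
    rcases hz with rfl | hz
    · exact hxy
    · exact hlt f hf x hnex hcx.2 z hz
  have hv : (p' ++ y :: x :: q').Pairwise (fun a b => f' a < f' b) := by
    have h5 : (p' ++ x :: q').Pairwise (fun a b => f' a < f' b) :=
      pairwise_insert (hζ'.sublist hsub) (fun z hz => hcx'.1 z (hp'sub.subset hz))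
        (hlt f' hf' x hnex hcx'.2)
    apply pairwise_insert h5 (fun z hz => hcy'.1 z (hp'sub.subset hz))
    intro z hz
    rw [List.mem_cons] at hz
    rcases hz with rfl | hz
    · exact hyx
    · exact hlt f' hf' y hney hcy'.2 z hz
  have hRuv : R (p' ++ x :: y :: q') (p' ++ y :: x :: q') := by
    apply hcompat _ _ _ hu hv (List.Perm.append_left p' (List.Perm.swap y x q'))
    intro z hz
    simp only [List.mem_append, List.mem_cons] at hz
    rcases hz with hz | rfl | rfl | hz
    · exact Or.inr (Or.inr (hsub.subset (List.mem_append_left _ hz)))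
    · exact Or.inl rfl
    · exact Or.inr (Or.inl rfl)
    · exact Or.inr (Or.inr (hsub.subset (List.mem_append_right _ hz)))
  obtain ⟨e, he, _⟩ := exists_map_eq (p' ++ x :: y :: q') (p ++ a :: b :: q) (pairwise_nodup hu)
    (by simp [hpl, hql])
  have h7 := hR.map e _ _ hRuv
  rw [he] at h7
  rw [List.map_append, List.map_cons, List.map_cons] at he
  have h8 := List.append_inj he (by simpa using hpl)
  have h9 := List.cons_eq_cons.1 h8.2
  have h10 := List.cons_eq_cons.1 h9.2
  rw [List.map_append, List.map_cons, List.map_cons, h8.1, h9.1, h10.1, h10.2] at h7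
  exact h7

end

end Pool.Agent.Helper53
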