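import Mathlib
import Pool.Agent.Helper53.Cuts

/-!
# Gluing local linear orders
-/

namespace Pool.Agent.Helper53

/-- A system of orders (given by rank functions) indexed by pairs of elements of `X`, which are
compatible up to the pattern relation `R`. -/
structure OrdSys (R : List ℕ → List ℕ → Prop) (X : Finset ℕ) (r : ℕ → ℕ → ℕ → ℕ) : Prop where
  inj : ∀ i j, Function.Injective (r i j)
  compat : ∀ i ∈ X, ∀ j ∈ X, ∀ i' ∈ X, ∀ j' ∈ X, i < j → i' < j' → ∀ u v : List ℕ,
    (∀ x ∈ u, x ∈ X ∧ x ≠ i ∧ x ≠ j ∧ x ≠ i' ∧ x ≠ j') →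
    u.Pairwise (fun a b => r i j a < r i j b) → v.Pairwise (fun a b => r i' j' a < r i' j' b) →
    u.Perm v → R u v

/-- The order given by the rank function `ρ` is compatible with all orders indexed by pairs of
elements of `W`. -/
structure Glued (R : List ℕ → List ℕ → Prop) (X : Finset ℕ) (r : ℕ → ℕ → ℕ → ℕ)
    (W : Finset ℕ) (ρ : ℕ → ℕ) : Prop where
  inj : Set.InjOn ρ X
  glue : ∀ i ∈ W, ∀ j ∈ W, i < j → ∀ u v : List ℕ, (∀ x ∈ u, x ∈ X ∧ x ≠ i ∧ x ≠ j) →
    u.Pairwise (fun a b => ρ a < ρ b) → v.Pairwise (fun a b => r i j a < r i j b) →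
    u.Perm v → R u v

/-- A frame: a long common chain `ζ` for all orders indexed by pairs in `W`, with the elements of
`W` in the middle. -/
structure Frame (k : ℕ) (R : List ℕ → List ℕ → Prop) (X : Finset ℕ) (r : ℕ → ℕ → ℕ → ℕ)
    (W : Finset ℕ) (ζ : List ℕ) : Prop where
  sys : OrdSys R X r
  notTot : ¬ Tot R
  Wsub : W ⊆ X
  Wcard : 5 ≤ W.card
  mem : ∀ z ∈ ζ, z ∈ X ∧ z ∉ W
  len : 5 * k ≤ ζ.length
  sorted : ∀ i ∈ W, ∀ j ∈ W, i < j → ζ.Pairwise (fun a b => r i j a < r i j b)
  close : ∀ x ∈ X, ∀ i ∈ W, ∀ j ∈ W, i < j → x ≠ i → x ≠ j → ∀ i' ∈ W, ∀ j' ∈ W, i' < j' →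
    x ≠ i' → x ≠ j' → cut (r i j) ζ x = cut (r i' j') ζ x ∨
      (cut (r i j) ζ x < 2 * k ∧ cut (r i' j') ζ x < 2 * k) ∨
      (ζ.length - 2 * k < cut (r i j) ζ x ∧ ζ.length - 2 * k < cut (r i' j') ζ x)
  mid : ∀ x ∈ W, ∀ i ∈ W, ∀ j ∈ W, i < j → x ≠ i → x ≠ j →
    2 * k ≤ cut (r i j) ζ x ∧ cut (r i j) ζ x ≤ ζ.length - 2 * k

lemma exists_pair {W : Finset ℕ} (hW : 5 ≤ W.card) (x y z : ℕ) : ∃ i ∈ W, ∃ j ∈ W, i < j ∧
    x ≠ i ∧ x ≠ j ∧ y ≠ i ∧ y ≠ j ∧ z ≠ i ∧ z ≠ j := by
  have h1 : 1 < (W \ {x, y, z}).card := by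
    have h2 := Finset.le_card_sdiff {x, y, z} W
    have h3 : ({x, y, z} : Finset ℕ).card ≤ 3 := Finset.card_le_three
    omega
  rw [Finset.one_lt_card] at h1
  obtain ⟨a, ha, b, hb, hab⟩ := h1
  simp only [Finset.mem_sdiff, Finset.mem_insert, Finset.mem_singleton, not_or] at ha hb
  rcases lt_or_gt_of_ne hab with h | h
  · exact ⟨a, ha.1, b, hb.1, h, Ne.symm ha.2.1, Ne.symm hb.2.1, Ne.symm ha.2.2.1,
      Ne.symm hb.2.2.1, Ne.symm ha.2.2.2, Ne.symm hb.2.2.2⟩
  · exact ⟨b, hb.1, a, ha.1, h, Ne.symm hb.2.1, Ne.symm ha.2.1, Ne.symm hb.2.2.1,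
      Ne.symm ha.2.2.1, Ne.symm hb.2.2.2, Ne.symm ha.2.2.2⟩

/-- A list along which the zone is monotone splits into its zones. -/
lemma zone_split (zone : ℕ → ℕ) (u : List ℕ) (h : u.Pairwise (fun a b => zone a ≤ zone b))
    (hz : ∀ x ∈ u, zone x ≤ 2) :
    u = u.filter (fun x => decide (zone x = 0)) ++
      (u.filter (fun x => decide (zone x = 1)) ++ u.filter (fun x => decide (zone x = 2))) := by
  induction u with
  | nil => simp
  | cons a u ih =>
    rw [List.pairwise_cons] at h
    have ih' := ih h.2 (fun x hx => hz x (List.mem_cons_of_mem a hx))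
    have ha : zone a ≤ 2 := hz a (by simp)
    have hcases : zone a = 0 ∨ zone a = 1 ∨ zone a = 2 := by omega
    rcases hcases with h0 | h1 | h2
    · simp only [List.filter_cons, h0]
      simp only [decide_true, if_true, List.cons_append]
      simpa using ih'
    · have h0' : u.filter (fun x => decide (zone x = 0)) = [] := by
        rw [List.filter_eq_nil_iff]
        intro x hx
        have := h.1 x hx
        simp only [decide_eq_true_eq]
        omega
      rw [h0'] at ih'
      simp only [List.filter_cons, h1]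
      simp only [List.nil_append] at ih'
      simp [h0', ← ih']
    · have h0' : u.filter (fun x => decide (zone x = 0)) = [] := by
        rw [List.filter_eq_nil_iff]
        intro x hx
        have := h.1 x hx
        simp only [decide_eq_true_eq]
        omega
      have h1' : u.filter (fun x => decide (zone x = 1)) = [] := by
        rw [List.filter_eq_nil_iff]
        intro x hx
        have := h.1 x hx
        simp only [decide_eq_true_eq]
        omega
      rw [h0', h1'] at ih'
      simp only [List.filter_cons, h2]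
      simp only [List.nil_append] at ih'
      simp [h0', h1', ← ih']

/-- The gluing theorem for frames. -/
theorem glue_of_frame {k : ℕ} {R : List ℕ → List ℕ → Prop} (hR : PatRel k R) {X : Finset ℕ}
    {r : ℕ → ℕ → ℕ → ℕ} {W : Finset ℕ} {ζ : List ℕ} (F : Frame k R X r W ζ) :
    ∃ ρ : ℕ → ℕ, Glued R X r W ρ := by
  classical
  set K := ζ.length with hK
  have hlen : 5 * k ≤ K := F.len
  have hinj := F.sys.inj
  -- a reference pair for every element
  have href : ∀ x : ℕ, ∃ p : ℕ × ℕ, p.1 ∈ W ∧ p.2 ∈ W ∧ p.1 < p.2 ∧ x ≠ p.1 ∧ x ≠ p.2 := by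
    intro x
    obtain ⟨i, hi, j, hj, hij, h1, h2, _⟩ := exists_pair F.Wcard x x x
    exact ⟨(i, j), hi, hj, hij, h1, h2⟩
  choose ref href using href
  set c : ℕ → ℕ := fun x => cut (r (ref x).1 (ref x).2) ζ x with hc
  set zone : ℕ → ℕ := fun x => if c x < 2 * k then 0 else if K - 2 * k < c x then 2 else 1
    with hzone
  have hz0 : ∀ x, zone x = 0 ↔ c x < 2 * k := by
    intro x
    simp only [hzone]
    split_ifs <;> simp_all
  have hz1 : ∀ x, zone x = 1 ↔ 2 * k ≤ c x ∧ c x ≤ K - 2 * k := by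
    intro x
    simp only [hzone]
    split_ifs <;> simp_all
  have hz2 : ∀ x, zone x = 2 ↔ 2 * k ≤ c x ∧ K - 2 * k < c x := by
    intro x
    simp only [hzone]
    split_ifs <;> simp_all
  have hzle : ∀ x, zone x ≤ 2 := by
    intro x
    simp only [hzone]
    split_ifs <;> simp
  -- facts about cuts
  have fact : ∀ x ∈ X, ∀ i ∈ W, ∀ j ∈ W, i < j → x ≠ i → x ≠ j →
      (zone x = 0 → cut (r i j) ζ x < 2 * k) ∧
      (zone x = 1 → cut (r i j) ζ x = c x) ∧
      (zone x = 2 → K - 2 * k < cut (r i j) ζ x) := by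
    intro x hx i hi j hj hij hxi hxj
    have := F.close x hx i hi j hj hij hxi hxj (ref x).1 (href x).1 (ref x).2 (href x).2.1
      (href x).2.2.1 (href x).2.2.2.1 (href x).2.2.2.2
    change _ = c x ∨ (_ ∧ c x < _) ∨ (_ ∧ _ < c x) at this
    rw [hz0, hz1, hz2]
    omega
  have zone_lt : ∀ x ∈ X, ∀ y ∈ X, ∀ i ∈ W, ∀ j ∈ W, i < j → x ≠ i → x ≠ j → y ≠ i → y ≠ j →
      zone x < zone y → r i j x < r i j y := by
    intro x hx y hy i hi j hj hij hxi hxj hyi hyj hzz
    apply lt_of_cut_lt (ζ := ζ)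
    obtain ⟨f1, f2, f3⟩ := fact x hx i hi j hj hij hxi hxj
    obtain ⟨g1, g2, g3⟩ := fact y hy i hi j hj hij hyi hyj
    have h1 := hzle x
    have h2 := hzle y
    have hx1 := hz1 x
    have hy1 := hz1 y
    have hcx : zone x = 0 ∨ zone x = 1 := by omega
    have hcy : zone y = 1 ∨ zone y = 2 := by omega
    rcases hcx with hcx | hcx <;> rcases hcy with hcy | hcy
    · have := f1 hcx; have := g2 hcy; have := hy1.1 hcy; omega
    · have := f1 hcx; have := g3 hcy; omega
    · omega
    · have := f2 hcx; have := g3 hcy; have := hx1.1 hcx; omega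
  have hWzone : ∀ w ∈ W, zone w = 1 := by
    intro w hw
    rw [hz1]
    exact F.mid w hw _ (href w).1 _ (href w).2.1 (href w).2.2.1 (href w).2.2.2.1
      (href w).2.2.2.2
  -- agreement of the orders in the middle zone
  have mid_agree : ∀ x ∈ X, ∀ y ∈ X, zone x = 1 → zone y = 1 →
      ∀ i ∈ W, ∀ j ∈ W, i < j → x ≠ i → x ≠ j → y ≠ i → y ≠ j →
      ∀ i' ∈ W, ∀ j' ∈ W, i' < j' → x ≠ i' → x ≠ j' → y ≠ i' → y ≠ j' →
      r i j x < r i j y → r i' j' x < r i' j' y := by
    intro x hx y hy hzx hzy i hi j hj hij hxi hxj hyi hyj i' hi' j' hj' hij' hxi' hxj' hyi' hyj'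
      hlt
    by_contra hcon
    have hne : x ≠ y := by
      rintro rfl
      exact lt_irrefl _ hlt
    have hlt' : r i' j' y < r i' j' x := by
      have h1 : r i' j' x ≠ r i' j' y := fun h => hne (hinj i' j' h)
      omega
    have e1 := (fact x hx i hi j hj hij hxi hxj).2.1 hzx
    have e2 := (fact y hy i hi j hj hij hyi hyj).2.1 hzy
    have e3 := (fact x hx i' hi' j' hj' hij' hxi' hxj').2.1 hzx
    have e4 := (fact y hy i' hi' j' hj' hij' hyi' hyj').2.1 hzy
    have m1 := cut_mono (ζ := ζ) (le_of_lt hlt)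
    have m2 := cut_mono (ζ := ζ) (le_of_lt hlt')
    have hcc : c x = c y := by omega
    have s1 := F.sorted i hi j hj hij
    have s2 := F.sorted i' hi' j' hj' hij'
    -- neither `x` nor `y` lies in `ζ`
    have hxζ : x ∉ ζ := by
      intro hxζ
      obtain ⟨hx1, hx2⟩ := cut_take s1 x
      obtain ⟨hy1, hy2⟩ := cut_take s1 y
      rw [e1] at hx1 hx2
      rw [e2, ← hcc] at hy1 hy2
      rw [← List.take_append_drop (c x) ζ, List.mem_append] at hxζ
      rcases hxζ with h | h
      · exact lt_irrefl _ (hx1 x h)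
      · have := hy2 x h
        omega
    have hyζ : y ∉ ζ := by
      intro hyζ
      obtain ⟨hx1, hx2⟩ := cut_take s2 x
      obtain ⟨hy1, hy2⟩ := cut_take s2 y
      rw [e3] at hx1 hx2
      rw [e4, ← hcc] at hy1 hy2
      rw [← List.take_append_drop (c x) ζ, List.mem_append] at hyζ
      rcases hyζ with h | h
      · exact lt_irrefl _ (hy1 y h)
      · have := hx2 y h
        omega
    apply F.notTot
    have hc1 := (hz1 x).1 hzx
    refine tot_of_inverted hR ζ (r i j) (r i' j') (hinj i j) (hinj i' j') x y s1 s2 hxζ hyζ hlt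
      hlt' ?_ (c x) e1 (by omega) e3 (by omega) (by omega) (by omega)
    intro u v hu1 hu2 hv2 huv
    apply F.sys.compat i (F.Wsub hi) j (F.Wsub hj) i' (F.Wsub hi') j' (F.Wsub hj') hij hij' u v _
      hu2 hv2 huv
    intro z hz
    rcases hu1 z hz with rfl | rfl | h
    · exact ⟨hx, hxi, hxj, hxi', hxj'⟩
    · exact ⟨hy, hyi, hyj, hyi', hyj'⟩
    · have hzW := (F.mem z h).2
      refine ⟨(F.mem z h).1, ?_, ?_, ?_, ?_⟩ <;> (rintro rfl; exact hzW (by assumption))
  -- the fixed pair
  obtain ⟨a, ha, b, hb, hab, _⟩ := exists_pair F.Wcard 0 0 0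
  set MidLt : ℕ → ℕ → Prop := fun x y => ∃ i ∈ W, ∃ j ∈ W, i < j ∧ x ≠ i ∧ x ≠ j ∧ y ≠ i ∧
    y ≠ j ∧ r i j x < r i j y with hMidLt
  set lt : ℕ → ℕ → Prop := fun x y => zone x < zone y ∨ (zone x = zone y ∧
    ((zone x = 1 ∧ MidLt x y) ∨ (zone x ≠ 1 ∧ r a b x < r a b y))) with hlt
  have midLt_iff : ∀ x ∈ X, ∀ y ∈ X, zone x = 1 → zone y = 1 →
      ∀ i ∈ W, ∀ j ∈ W, i < j → x ≠ i → x ≠ j → y ≠ i → y ≠ j →
      (MidLt x y ↔ r i j x < r i j y) := by
    intro x hx y hy hzx hzy i hi j hj hij hxi hxj hyi hyj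
    constructor
    · rintro ⟨i', hi', j', hj', hij', hxi', hxj', hyi', hyj', h⟩
      exact mid_agree x hx y hy hzx hzy i' hi' j' hj' hij' hxi' hxj' hyi' hyj' i hi j hj hij hxi
        hxj hyi hyj h
    · intro h
      exact ⟨i, hi, j, hj, hij, hxi, hxj, hyi, hyj, h⟩
  have lt_irr : ∀ x, ¬ lt x x := by
    intro x hx
    rcases hx with h | ⟨_, ⟨_, i, _, j, _, _, _, _, _, _, h⟩ | ⟨_, h⟩⟩ <;>
      exact lt_irrefl _ h
  have lt_tr : ∀ x ∈ X, ∀ y ∈ X, ∀ z ∈ X, lt x y → lt y z → lt x z := by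
    intro x hx y hy z hz hxy hyz
    rcases hxy with h1 | ⟨h1, h1'⟩
    · left
      rcases hyz with h2 | ⟨h2, _⟩ <;> omega
    · rcases hyz with h2 | ⟨h2, h2'⟩
      · left; omega
      · right
        refine ⟨h1.trans h2, ?_⟩
        rcases h1' with ⟨h3, h4⟩ | ⟨h3, h4⟩
        · left
          refine ⟨h3, ?_⟩
          obtain ⟨i, hi, j, hj, hij, hxi, hxj, hyi, hyj, hzi, hzj⟩ := exists_pair F.Wcard x y z
          have hy1 : zone y = 1 := by omega
          have hz1' : zone z = 1 := by omega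
          rcases h2' with ⟨_, h6⟩ | ⟨h5, _⟩
          · rw [midLt_iff x hx y hy h3 hy1 i hi j hj hij hxi hxj hyi hyj] at h4
            rw [midLt_iff y hy z hz hy1 hz1' i hi j hj hij hyi hyj hzi hzj] at h6
            rw [midLt_iff x hx z hz h3 hz1' i hi j hj hij hxi hxj hzi hzj]
            exact lt_trans h4 h6
          · exact absurd hy1 h5
        · right
          refine ⟨h3, ?_⟩
          rcases h2' with ⟨h5, _⟩ | ⟨_, h6⟩
          · exact absurd (h1.trans h5) h3
          · exact lt_trans h4 h6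
  have lt_tot : ∀ x ∈ X, ∀ y ∈ X, x ≠ y → lt x y ∨ lt y x := by
    intro x hx y hy hne
    rcases lt_trichotomy (zone x) (zone y) with h | h | h
    · exact Or.inl (Or.inl h)
    · by_cases hz : zone x = 1
      · obtain ⟨i, hi, j, hj, hij, hxi, hxj, hyi, hyj, _⟩ := exists_pair F.Wcard x y y
        have h1 : r i j x ≠ r i j y := fun h => hne (hinj i j h)
        rcases lt_or_gt_of_ne h1 with h2 | h2
        · exact Or.inl (Or.inr ⟨h, Or.inl ⟨hz, i, hi, j, hj, hij, hxi, hxj, hyi, hyj, h2⟩⟩)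
        · exact Or.inr (Or.inr ⟨h.symm, Or.inl ⟨h ▸ hz, i, hi, j, hj, hij, hyi, hyj, hxi, hxj,
            h2⟩⟩)
      · have h1 : r a b x ≠ r a b y := fun h => hne (hinj a b h)
        rcases lt_or_gt_of_ne h1 with h2 | h2
        · exact Or.inl (Or.inr ⟨h, Or.inr ⟨hz, h2⟩⟩)
        · exact Or.inr (Or.inr ⟨h.symm, Or.inr ⟨h ▸ hz, h2⟩⟩)
    · exact Or.inr (Or.inl h)
  set ρ : ℕ → ℕ := fun x => (X.filter (fun y => lt y x)).card with hρ
  have hρlt : ∀ x ∈ X, ∀ y ∈ X, lt x y → ρ x < ρ y := by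
    intro x hx y hy hxy
    apply Finset.card_lt_card
    rw [Finset.ssubset_iff_of_subset]
    · exact ⟨x, Finset.mem_filter.2 ⟨hx, hxy⟩, fun h => lt_irr x (Finset.mem_filter.1 h).2⟩
    · intro z hz
      rw [Finset.mem_filter] at hz ⊢
      exact ⟨hz.1, lt_tr z hz.1 x hx y hy hz.2 hxy⟩
  have hρiff : ∀ x ∈ X, ∀ y ∈ X, ρ x < ρ y → lt x y := by
    intro x hx y hy hxy
    have hne : x ≠ y := by
      rintro rfl
      exact lt_irrefl _ hxy
    rcases lt_tot x hx y hy hne with h | h
    · exact h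
    · have := hρlt y hy x hx h
      omega
  refine ⟨ρ, ?_, ?_⟩
  · intro x hx y hy hxy
    by_contra hne
    rcases lt_tot x hx y hy hne with h | h
    · have := hρlt x hx y hy h
      omega
    · have := hρlt y hy x hx h
      omega
  · intro i hi j hj hij u v hu1 hu2 hv2 huv
    by_cases hku : k ≤ u.length
    · exact hR.long u v huv hku
    push Not at hku
    have hv1 : ∀ x ∈ v, x ∈ X ∧ x ≠ i ∧ x ≠ j := fun x hx => hu1 x (huv.mem_iff.2 hx)
    -- zones are monotone along `u` and `v`
    have hu2' : u.Pairwise (fun x y => lt x y) :=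
      hu2.imp_of_mem (fun {x y} hx hy h => hρiff x (hu1 x hx).1 y (hu1 y hy).1 h)
    have huz : u.Pairwise (fun x y => zone x ≤ zone y) := by
      refine hu2'.imp ?_
      intro x y h
      rcases h with h | ⟨h, _⟩
      · exact le_of_lt h
      · exact le_of_eq h
    have hvz : v.Pairwise (fun x y => zone x ≤ zone y) := by
      refine hv2.imp_of_mem ?_
      intro x y hx hy h
      by_contra hcon
      push Not at hcon
      obtain ⟨hxX, hxi, hxj⟩ := hv1 x hx
      obtain ⟨hyX, hyi, hyj⟩ := hv1 y hy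
      have := zone_lt y hyX x hxX i hi j hj hij hyi hyj hxi hxj hcon
      omega
    have hus := zone_split zone u huz (fun x _ => hzle x)
    have hvs := zone_split zone v hvz (fun x _ => hzle x)
    set u0 := u.filter (fun x => decide (zone x = 0)) with hu0
    set u1 := u.filter (fun x => decide (zone x = 1)) with hu1'
    set u2 := u.filter (fun x => decide (zone x = 2)) with hu2''
    set v0 := v.filter (fun x => decide (zone x = 0)) with hv0
    set v1 := v.filter (fun x => decide (zone x = 1)) with hv1'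
    set v2 := v.filter (fun x => decide (zone x = 2)) with hv2''
    have m_u0 : ∀ x ∈ u0, x ∈ u ∧ zone x = 0 := by
      intro x hx; rw [hu0, List.mem_filter] at hx; simpa using hx
    have m_u1 : ∀ x ∈ u1, x ∈ u ∧ zone x = 1 := by
      intro x hx; rw [hu1', List.mem_filter] at hx; simpa using hx
    have m_u2 : ∀ x ∈ u2, x ∈ u ∧ zone x = 2 := by
      intro x hx; rw [hu2'', List.mem_filter] at hx; simpa using hx
    have m_v0 : ∀ x ∈ v0, x ∈ v ∧ zone x = 0 := by
      intro x hx; rw [hv0, List.mem_filter] at hx; simpa using hx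
    have m_v1 : ∀ x ∈ v1, x ∈ v ∧ zone x = 1 := by
      intro x hx; rw [hv1', List.mem_filter] at hx; simpa using hx
    have m_v2 : ∀ x ∈ v2, x ∈ v ∧ zone x = 2 := by
      intro x hx; rw [hv2'', List.mem_filter] at hx; simpa using hx
    have p0 : u0.Perm v0 := huv.filter _
    have p1 : u1.Perm v1 := huv.filter _
    have p2 : u2.Perm v2 := huv.filter _
    -- the middle parts agree
    have h11 : u1 = v1 := by
      have hs1 : u1.Pairwise (fun x y => r i j x < r i j y) := by
        have h3 : u1.Pairwise (fun x y => lt x y) := hu2'.sublist List.filter_sublist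
        refine h3.imp_of_mem ?_
        intro x y hx hy h
        obtain ⟨hxu, hxz⟩ := m_u1 x hx
        obtain ⟨hyu, hyz⟩ := m_u1 y hy
        obtain ⟨hxX, hxi, hxj⟩ := hu1 x hxu
        obtain ⟨hyX, hyi, hyj⟩ := hu1 y hyu
        rcases h with h | ⟨_, ⟨_, h⟩ | ⟨h, _⟩⟩
        · omega
        · exact (midLt_iff x hxX y hyX hxz hyz i hi j hj hij hxi hxj hyi hyj).1 h
        · exact absurd hxz h
      have hs2 : v1.Pairwise (fun x y => r i j x < r i j y) := hv2.sublist List.filter_sublist
      refine List.Perm.eq_of_pairwise ?_ hs1 hs2 p1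
      intro x y _ _ h1 h2
      omega
    -- the replacement of the middle part
    set μ := (ζ.drop (2 * k)).take u1.length with hμ
    have hu1len : u1.length ≤ u.length := List.length_filter_le _ _
    have hμlen : μ.length = u1.length := by
      rw [hμ, List.length_take, List.length_drop]
      omega
    have hμsub : μ.Sublist ζ := (List.take_sublist _ _).trans (List.drop_sublist _ _)
    have hμzone : ∀ z ∈ μ, zone z = 1 := by
      intro z hz
      rw [hμ, List.mem_take_iff_getElem] at hz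
      obtain ⟨q, hq, rfl⟩ := hz
      rw [List.length_drop] at hq
      have hq2 : 2 * k + q < ζ.length := by omega
      rw [List.getElem_drop]
      rw [hz1]
      have hr := href ζ[2 * k + q]
      have : c ζ[2 * k + q] = 2 * k + q := by
        simp only [hc]
        exact cut_getElem (F.sorted _ hr.1 _ hr.2.1 hr.2.2.1) _ hq2
      rw [this]
      omega
    have hμX : ∀ z ∈ μ, z ∈ X ∧ z ∉ W := fun z hz => F.mem z (hμsub.subset hz)
    -- general sortedness statement
    have gen : ∀ (i j : ℕ), i ∈ W → j ∈ W → i < j → ∀ w0 w2 : List ℕ,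
        (∀ x ∈ w0, x ∈ X ∧ x ≠ i ∧ x ≠ j ∧ zone x = 0) →
        (∀ x ∈ w2, x ∈ X ∧ x ≠ i ∧ x ≠ j ∧ zone x = 2) →
        w0.Pairwise (fun x y => r i j x < r i j y) →
        w2.Pairwise (fun x y => r i j x < r i j y) →
        (w0 ++ (μ ++ w2)).Pairwise (fun x y => r i j x < r i j y) := by
      intro i j hi hj hij w0 w2 hw0 hw2 hp0 hp2
      rw [List.pairwise_append, List.pairwise_append]
      have hμ' : ∀ z ∈ μ, z ≠ i ∧ z ≠ j := by
        intro z hz
        have := (hμX z hz).2
        constructor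
        · rintro rfl; exact this hi
        · rintro rfl; exact this hj
      refine ⟨hp0, ⟨(F.sorted i hi j hj hij).sublist hμsub, hp2, ?_⟩, ?_⟩
      · intro x hx y hy
        obtain ⟨hyX, hyi, hyj, hyz⟩ := hw2 y hy
        have hxz := hμzone x hx
        exact zone_lt x (hμX x hx).1 y hyX i hi j hj hij (hμ' x hx).1 (hμ' x hx).2 hyi hyj
          (by omega)
      · intro x hx y hy
        obtain ⟨hxX, hxi, hxj, hxz⟩ := hw0 x hx
        rw [List.mem_append] at hy
        rcases hy with hy | hy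
        · have hyz := hμzone y hy
          exact zone_lt x hxX y (hμX y hy).1 i hi j hj hij hxi hxj (hμ' y hy).1 (hμ' y hy).2
            (by omega)
        · obtain ⟨hyX, hyi, hyj, hyz⟩ := hw2 y hy
          exact zone_lt x hxX y hyX i hi j hj hij hxi hxj hyi hyj (by omega)
    have hne : ∀ x, zone x ≠ 1 → ∀ w ∈ W, x ≠ w := by
      intro x hx w hw h
      exact hx (h ▸ hWzone w hw)
    have hU : (u0 ++ (μ ++ u2)).Pairwise (fun x y => r a b x < r a b y) := by
      apply gen a b ha hb hab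
      · intro x hx
        obtain ⟨h1, h2⟩ := m_u0 x hx
        exact ⟨(hu1 x h1).1, hne x (by omega) a ha, hne x (by omega) b hb, h2⟩
      · intro x hx
        obtain ⟨h1, h2⟩ := m_u2 x hx
        exact ⟨(hu1 x h1).1, hne x (by omega) a ha, hne x (by omega) b hb, h2⟩
      · have h3 : u0.Pairwise (fun x y => lt x y) := hu2'.sublist List.filter_sublist
        refine h3.imp_of_mem ?_
        intro x y hx hy h
        have h4 := (m_u0 x hx).2
        have h5 := (m_u0 y hy).2
        rcases h with h | ⟨_, ⟨h, _⟩ | ⟨_, h⟩⟩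
        · omega
        · omega
        · exact h
      · have h3 : u2.Pairwise (fun x y => lt x y) := hu2'.sublist List.filter_sublist
        refine h3.imp_of_mem ?_
        intro x y hx hy h
        have h4 := (m_u2 x hx).2
        have h5 := (m_u2 y hy).2
        rcases h with h | ⟨_, ⟨h, _⟩ | ⟨_, h⟩⟩
        · omega
        · omega
        · exact h
    have hV : (v0 ++ (μ ++ v2)).Pairwise (fun x y => r i j x < r i j y) := by
      apply gen i j hi hj hij
      · intro x hx
        obtain ⟨h1, h2⟩ := m_v0 x hx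
        exact ⟨(hv1 x h1).1, (hv1 x h1).2.1, (hv1 x h1).2.2, h2⟩
      · intro x hx
        obtain ⟨h1, h2⟩ := m_v2 x hx
        exact ⟨(hv1 x h1).1, (hv1 x h1).2.1, (hv1 x h1).2.2, h2⟩
      · exact hv2.sublist List.filter_sublist
      · exact hv2.sublist List.filter_sublist
    have hperm : (u0 ++ (μ ++ u2)).Perm (v0 ++ (μ ++ v2)) :=
      p0.append (List.Perm.append_left μ p2)
    have hRUV : R (u0 ++ (μ ++ u2)) (v0 ++ (μ ++ v2)) := by
      apply F.sys.compat a (F.Wsub ha) b (F.Wsub hb) i (F.Wsub hi) j (F.Wsub hj) hab hij _ _ _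
        hU hV hperm
      intro x hx
      rw [List.mem_append, List.mem_append] at hx
      rcases hx with hx | hx | hx
      · obtain ⟨h1, h2⟩ := m_u0 x hx
        exact ⟨(hu1 x h1).1, hne x (by omega) a ha, hne x (by omega) b hb, (hu1 x h1).2.1,
          (hu1 x h1).2.2⟩
      · have := (hμX x hx).2
        refine ⟨(hμX x hx).1, ?_, ?_, ?_, ?_⟩ <;> (rintro rfl; exact this (by assumption))
      · obtain ⟨h1, h2⟩ := m_u2 x hx
        exact ⟨(hu1 x h1).1, hne x (by omega) a ha, hne x (by omega) b hb, (hu1 x h1).2.1,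
          (hu1 x h1).2.2⟩
    -- relabel the middle part
    have hμnd : μ.Nodup := pairwise_nodup ((F.sorted i hi j hj hij).sublist hμsub)
    obtain ⟨e, he1, he2⟩ := exists_map_eq μ u1 hμnd hμlen
    have hid : ∀ w : List ℕ, (∀ x ∈ w, zone x ≠ 1) → w.map e = w := by
      intro w hw
      conv_rhs => rw [← List.map_id w]
      apply List.map_congr_left
      intro x hx
      apply he2
      intro hxμ
      exact hw x hx (hμzone x hxμ)
    have hfin := hR.map e _ _ hRUV
    rw [List.map_append, List.map_append, List.map_append, List.map_append, he1,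
      hid u0 (fun x hx => by have := (m_u0 x hx).2; omega),
      hid u2 (fun x hx => by have := (m_u2 x hx).2; omega),
      hid v0 (fun x hx => by have := (m_v0 x hx).2; omega),
      hid v2 (fun x hx => by have := (m_v2 x hx).2; omega), ← hus, h11, ← hvs] at hfin
    exact hfin

end Pool.Agent.Helper53
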