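import Mathlib

/-!
# Ramsey's theorem for increasing tuples of natural numbers

Finite Ramsey theorem, for colourings of increasing lists of length `r`.
-/

namespace Pool.Agent.Helper53

/-- Finite Ramsey theorem for increasing `r`-tuples (lists), with finitely many colours. -/
theorem ramsey_list (C : Type*) [Fintype C] [Nonempty C] (r : ℕ) : ∀ m : ℕ, ∃ N : ℕ,
    ∀ S : Finset ℕ, N ≤ S.card → ∀ χ : List ℕ → C,
      ∃ T ⊆ S, T.card = m ∧ ∃ c : C, ∀ l : List ℕ, l.Pairwise (· < ·) → l.length = r →
        (∀ x ∈ l, x ∈ T) → χ l = c := by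
  classical
  induction r with
  | zero =>
    intro m
    refine ⟨m, fun S hS χ => ?_⟩
    obtain ⟨T, hTS, hT⟩ := Finset.exists_subset_card_eq hS
    refine ⟨T, hTS, hT, χ [], ?_⟩
    intro l _ hl _
    rw [List.length_eq_zero_iff] at hl
    rw [hl]
  | succ r ihr =>
    -- end-homogeneous sets
    have claim : ∀ t : ℕ, ∃ N : ℕ, ∀ S : Finset ℕ, N ≤ S.card → ∀ χ : List ℕ → C,
        ∃ T ⊆ S, T.card = t ∧ ∃ κ : ℕ → C, ∀ a ∈ T, ∀ l : List ℕ, l.Pairwise (· < ·) →
          l.length = r → (∀ x ∈ l, x ∈ T ∧ a < x) → χ (a :: l) = κ a := by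
      intro t
      induction t with
      | zero =>
        refine ⟨0, fun S _ χ => ⟨∅, by simp, by simp, fun _ => Classical.arbitrary C, ?_⟩⟩
        intro a ha
        simp at ha
      | succ t iht =>
        obtain ⟨Nt, hNt⟩ := iht
        obtain ⟨N', hN'⟩ := ihr Nt
        refine ⟨N' + 1, fun S hS χ => ?_⟩
        have hSne : S.Nonempty := by
          rw [← Finset.card_pos]; omega
        set a := S.min' hSne with ha
        have haS : a ∈ S := Finset.min'_mem S hSne
        have hcard : N' ≤ (S.erase a).card := by
          rw [Finset.card_erase_of_mem haS]; omega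
        obtain ⟨S'', hS''sub, hS''card, c, hc⟩ := hN' (S.erase a) hcard (fun l => χ (a :: l))
        obtain ⟨T', hT'sub, hT'card, κ', hκ'⟩ := hNt S'' (le_of_eq hS''card.symm) χ
        have hT'S : T' ⊆ S.erase a := hT'sub.trans hS''sub
        have haT' : a ∉ T' := fun h => by
          have := hT'S h
          simp at this
        have hlt : ∀ b ∈ T', a < b := by
          intro b hb
          have h1 := Finset.mem_erase.1 (hT'S hb)
          exact lt_of_le_of_ne (Finset.min'_le S b h1.2) (Ne.symm h1.1)
        refine ⟨insert a T', ?_, ?_, Function.update κ' a c, ?_⟩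
        · intro x hx
          rw [Finset.mem_insert] at hx
          rcases hx with rfl | hx
          · exact haS
          · exact (Finset.mem_erase.1 (hT'S hx)).2
        · rw [Finset.card_insert_of_notMem haT', hT'card]
        · intro b hb l hl hlr hlT
          rw [Finset.mem_insert] at hb
          rcases hb with rfl | hb
          · rw [Function.update_self]
            apply hc l hl hlr
            intro x hx
            obtain ⟨h1, h2⟩ := hlT x hx
            rw [Finset.mem_insert] at h1
            rcases h1 with rfl | h1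
            · exact absurd h2 (lt_irrefl _)
            · exact hT'sub h1
          · have hba : b ≠ a := fun h => haT' (h ▸ hb)
            rw [Function.update_of_ne hba]
            apply hκ' b hb l hl hlr
            intro x hx
            obtain ⟨h1, h2⟩ := hlT x hx
            rw [Finset.mem_insert] at h1
            rcases h1 with rfl | h1
            · exact absurd (lt_trans h2 (hlt b hb)) (lt_irrefl _)
            · exact ⟨h1, h2⟩
    intro m
    obtain ⟨N, hN⟩ := claim (Fintype.card C * m)
    refine ⟨N, fun S hS χ => ?_⟩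
    obtain ⟨T, hTS, hTcard, κ, hκ⟩ := hN S hS χ
    obtain ⟨c, _, hc⟩ := Finset.exists_le_card_fiber_of_mul_le_card_of_maps_to
      (s := T) (t := Finset.univ) (f := κ) (n := m) (fun a _ => Finset.mem_univ _)
      Finset.univ_nonempty (by rw [Finset.card_univ, hTcard])
    obtain ⟨T', hT'sub, hT'card⟩ := Finset.exists_subset_card_eq hc
    have hT'T : T' ⊆ T := hT'sub.trans (Finset.filter_subset _ _)
    refine ⟨T', hT'T.trans hTS, hT'card, c, ?_⟩
    intro l hl hlr hlT
    match l, hl, hlr, hlT with
    | [], _, hlr, _ => simp at hlr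
    | a :: l, hl, hlr, hlT =>
      rw [List.pairwise_cons] at hl
      have haT' : a ∈ T' := hlT a (by simp)
      rw [hκ a (hT'T haT') l hl.2 (by simpa using hlr)
        (fun x hx => ⟨hT'T (hlT x (List.mem_cons_of_mem a hx)), hl.1 x hx⟩)]
      exact (Finset.mem_filter.1 (hT'sub haT')).2

end Pool.Agent.Helper53
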