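import Mathlib
import Pool.Agent.Helper53.RamseyList
import Pool.Agent.Helper53.Glue

/-!
# Existence of frames
-/

namespace Pool.Agent.Helper53

/-- Initial segments of a finite set of numbers. -/
lemma exists_initial (T : Finset ℕ) (a : ℕ) (ha : a ≤ T.card) :
    ∃ A ⊆ T, A.card = a ∧ ∀ x ∈ A, ∀ y ∈ T \ A, x < y := by
  induction a with
  | zero => exact ⟨∅, by simp, by simp, by simp⟩
  | succ a ih =>
    obtain ⟨A, hAT, hA, hlt⟩ := ih (by omega)
    have hne : (T \ A).Nonempty := by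
      rw [← Finset.card_pos, Finset.card_sdiff_of_subset hAT]
      omega
    set z := (T \ A).min' hne with hz
    have hzm : z ∈ T \ A := Finset.min'_mem _ hne
    rw [Finset.mem_sdiff] at hzm
    refine ⟨insert z A, ?_, ?_, ?_⟩
    · intro x hx
      rw [Finset.mem_insert] at hx
      rcases hx with rfl | hx
      · exact hzm.1
      · exact hAT hx
    · rw [Finset.card_insert_of_notMem hzm.2, hA]
    · intro x hx y hy
      rw [Finset.mem_sdiff, Finset.mem_insert, not_or] at hy
      rw [Finset.mem_insert] at hx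
      have hy' : y ∈ T \ A := Finset.mem_sdiff.2 ⟨hy.1, hy.2.2⟩
      rcases hx with rfl | hx
      · exact lt_of_le_of_ne (Finset.min'_le _ y hy') (Ne.symm hy.2.1)
      · exact hlt x hx y hy'

/-- Sorting a finite set by an injective rank function. -/
lemma exists_sorted_list (Z : Finset ℕ) (f : ℕ → ℕ) (hf : Function.Injective f) :
    ∃ ζ : List ℕ, ζ.Pairwise (fun a b => f a < f b) ∧ ∀ x, x ∈ ζ ↔ x ∈ Z := by
  induction Z using Finset.induction_on_max_value f with
  | empty => exact ⟨[], by simp, by simp⟩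
  | insert a s ha hmax ih =>
    obtain ⟨ζ, h1, h2⟩ := ih
    refine ⟨ζ ++ [a], ?_, ?_⟩
    · rw [List.pairwise_append]
      refine ⟨h1, by simp, ?_⟩
      intro x hx y hy
      rw [List.mem_singleton] at hy
      subst hy
      have hxs := (h2 x).1 hx
      have h3 := hmax x hxs
      have h4 : f x ≠ f y := fun h => ha (hf h ▸ hxs)
      omega
    · intro x
      rw [List.mem_append, List.mem_singleton, Finset.mem_insert, h2]
      tauto

lemma length_eq_card {ζ : List ℕ} (hnd : ζ.Nodup) {Z : Finset ℕ} (h : ∀ x, x ∈ ζ ↔ x ∈ Z) :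
    ζ.length = Z.card := by
  rw [← List.toFinset_card_of_nodup hnd]
  congr 1
  ext x
  simp [h]

lemma cut_eq_card {ζ : List ℕ} (hnd : ζ.Nodup) {Z : Finset ℕ} (h : ∀ x, x ∈ ζ ↔ x ∈ Z)
    (f : ℕ → ℕ) (x : ℕ) : cut f ζ x = (Z.filter (fun z => f z < f x)).card := by
  unfold cut
  rw [List.countP_eq_length_filter]
  rw [← List.toFinset_card_of_nodup (hnd.filter _)]
  congr 1
  ext y
  simp [h]

lemma five_elements {W : Finset ℕ} (hW : 5 ≤ W.card) : ∃ w₁ ∈ W, ∃ w₂ ∈ W, ∃ w₃ ∈ W, ∃ w₄ ∈ W,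
    ∃ w₅ ∈ W, w₁ < w₂ ∧ w₂ < w₃ ∧ w₃ < w₄ ∧ w₄ < w₅ := by
  set e := W.orderEmbOfFin rfl with he
  refine ⟨e ⟨0, by omega⟩, Finset.orderEmbOfFin_mem _ _ _, e ⟨1, by omega⟩,
    Finset.orderEmbOfFin_mem _ _ _, e ⟨2, by omega⟩, Finset.orderEmbOfFin_mem _ _ _,
    e ⟨3, by omega⟩, Finset.orderEmbOfFin_mem _ _ _, e ⟨4, by omega⟩,
    Finset.orderEmbOfFin_mem _ _ _, ?_, ?_, ?_, ?_⟩ <;>
  · apply e.strictMono
    rw [Fin.lt_def]
    norm_num

theorem frame_exists (k m : ℕ) (hm : 5 ≤ m) : ∃ N : ℕ, ∀ (R : List ℕ → List ℕ → Prop)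
    (X : Finset ℕ) (r : ℕ → ℕ → ℕ → ℕ), PatRel k R → ¬ Tot R → ¬ Cyc R → OrdSys R X r →
    N ≤ X.card → ∃ (W : Finset ℕ) (ζ : List ℕ), Frame k R X r W ζ ∧ W.card = m := by
  classical
  set h := 3 * k + 1 with hh
  obtain ⟨N, hN⟩ := ramsey_list (Bool × Bool × Bool) 4 (h + (m + h))
  refine ⟨N, ?_⟩
  intro R X r hR hT hC hS hX
  set χ : List ℕ → Bool × Bool × Bool := fun l => match l with
    | [a, b, c, d] => (decide (r c d a < r c d b), decide (r a b c < r a b d),
        decide (r b c a < r b c d))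
    | _ => (false, false, false) with hχ
  obtain ⟨T, hTX, hTcard, ⟨b1, b3, b5⟩, hcol⟩ := hN X hX χ
  have hom : ∀ a ∈ T, ∀ b ∈ T, ∀ c ∈ T, ∀ d ∈ T, a < b → b < c → c < d →
      ((r c d a < r c d b ↔ b1 = true) ∧ (r a b c < r a b d ↔ b3 = true) ∧
      (r b c a < r b c d ↔ b5 = true)) := by
    intro a ha b hb c hc d hd hab hbc hcd
    have := hcol [a, b, c, d] (by simp; omega) rfl
      (by
        intro x hx
        simp only [List.mem_cons, List.not_mem_nil, or_false] at hx
        rcases hx with rfl | rfl | rfl | rfl <;> assumption)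
    simp only [hχ, Prod.mk.injEq] at this
    obtain ⟨h1, h2, h3⟩ := this
    rw [← h1, ← h2, ← h3]
    simp only [decide_eq_true_eq, iff_self, and_self]
  obtain ⟨A, hAT, hAcard, hAlt⟩ := exists_initial T h (by omega)
  obtain ⟨W, hWT', hWcard, hWlt⟩ := exists_initial (T \ A) m (by
    rw [Finset.card_sdiff_of_subset hAT]; omega)
  set C := (T \ A) \ W with hCdef
  have hCcard : C.card = h := by
    rw [hCdef, Finset.card_sdiff_of_subset hWT', Finset.card_sdiff_of_subset hAT]
    omega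
  have hWT : W ⊆ T := hWT'.trans Finset.sdiff_subset
  have hCT' : C ⊆ T \ A := Finset.sdiff_subset
  have hCT : C ⊆ T := hCT'.trans Finset.sdiff_subset
  have hAW : ∀ x ∈ A, ∀ y ∈ W, x < y := fun x hx y hy => hAlt x hx y (hWT' hy)
  have hAC : ∀ x ∈ A, ∀ y ∈ C, x < y := fun x hx y hy => hAlt x hx y (hCT' hy)
  have hWC : ∀ x ∈ W, ∀ y ∈ C, x < y := fun x hx y hy => hWlt x hx y hy
  have hdisj : Disjoint A C := by
    rw [Finset.disjoint_left]
    intro x hx hx'
    exact lt_irrefl _ (hAC x hx x hx')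
  set Z := A ∪ C with hZ
  have hZcard : Z.card = h + h := by
    rw [hZ, Finset.card_union_of_disjoint hdisj, hAcard, hCcard]
  have hZW : ∀ z ∈ Z, z ∉ W := by
    intro z hz hzW
    rw [hZ, Finset.mem_union] at hz
    rcases hz with hz | hz
    · exact lt_irrefl _ (hAW z hz z hzW)
    · exact lt_irrefl _ (hWC z hzW z hz)
  have hZT : Z ⊆ T := Finset.union_subset hAT hCT
  have hinj := hS.inj
  -- the order on `Z` does not depend on the pair
  have hdet : ∀ z ∈ Z, ∀ z' ∈ Z, z < z' → ∀ i ∈ W, ∀ j ∈ W, i < j → ∀ i' ∈ W, ∀ j' ∈ W, i' < j' →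
      (r i j z < r i j z' ↔ r i' j' z < r i' j' z') := by
    intro z hz z' hz' hzz i hi j hj hij i' hi' j' hj' hij'
    rw [hZ, Finset.mem_union] at hz hz'
    rcases hz with hz | hz <;> rcases hz' with hz' | hz'
    · rw [(hom z (hAT hz) z' (hAT hz') i (hWT hi) j (hWT hj) hzz (hAW _ hz' _ hi) hij).1,
        (hom z (hAT hz) z' (hAT hz') i' (hWT hi') j' (hWT hj') hzz (hAW _ hz' _ hi') hij').1]
    · rw [(hom z (hAT hz) i (hWT hi) j (hWT hj) z' (hCT hz') (hAW _ hz _ hi) hij
        (hWC _ hj _ hz')).2.2,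
        (hom z (hAT hz) i' (hWT hi') j' (hWT hj') z' (hCT hz') (hAW _ hz _ hi') hij'
        (hWC _ hj' _ hz')).2.2]
    · exact absurd (hAC _ hz' _ hz) (by omega)
    · rw [(hom i (hWT hi) j (hWT hj) z (hCT hz) z' (hCT hz') hij (hWC _ hj _ hz) hzz).2.1,
        (hom i' (hWT hi') j' (hWT hj') z (hCT hz) z' (hCT hz') hij' (hWC _ hj' _ hz) hzz).2.1]
  have hagree : ∀ z ∈ Z, ∀ z' ∈ Z, ∀ i ∈ W, ∀ j ∈ W, i < j → ∀ i' ∈ W, ∀ j' ∈ W, i' < j' →
      (r i j z < r i j z' ↔ r i' j' z < r i' j' z') := by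
    intro z hz z' hz' i hi j hj hij i' hi' j' hj' hij'
    rcases lt_trichotomy z z' with hlt | rfl | hlt
    · exact hdet z hz z' hz' hlt i hi j hj hij i' hi' j' hj' hij'
    · simp
    · have h1 := hdet z' hz' z hz hlt i hi j hj hij i' hi' j' hj' hij'
      have h2 : r i j z ≠ r i j z' := fun h => by have := hinj i j h; omega
      have h3 : r i' j' z ≠ r i' j' z' := fun h => by have := hinj i' j' h; omega
      constructor
      · intro h4
        by_contra h5
        have := h1.2 (by omega)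
        omega
      · intro h4
        by_contra h5
        have := h1.1 (by omega)
        omega
  obtain ⟨w₁, hw₁, w₂, hw₂, w₃, hw₃, w₄, hw₄, w₅, hw₅, h12, h23, h34, h45⟩ :=
    five_elements (W := W) (by omega)
  obtain ⟨ζ, hζ0, hζmem⟩ := exists_sorted_list Z (r w₁ w₂) (hinj w₁ w₂)
  have hζsorted : ∀ i ∈ W, ∀ j ∈ W, i < j → ζ.Pairwise (fun a b => r i j a < r i j b) := by
    intro i hi j hj hij
    refine hζ0.imp_of_mem ?_
    intro a b ha hb hab
    exact (hagree a ((hζmem a).1 ha) b ((hζmem b).1 hb) w₁ hw₁ w₂ hw₂ h12 i hi j hj hij).1 hab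
  have hζnd : ζ.Nodup := pairwise_nodup hζ0
  have hζlen : ζ.length = h + h := by
    rw [length_eq_card hζnd hζmem, hZcard]
  have hWX : W ⊆ X := hWT.trans hTX
  have hζX : ∀ z ∈ ζ, z ∈ X ∧ z ∉ W := by
    intro z hz
    have := (hζmem z).1 hz
    exact ⟨hTX (hZT this), hZW z this⟩
  have hclose : ∀ x ∈ X, ∀ i ∈ W, ∀ j ∈ W, i < j → x ≠ i → x ≠ j → ∀ i' ∈ W, ∀ j' ∈ W, i' < j' →
      x ≠ i' → x ≠ j' → cut (r i j) ζ x = cut (r i' j') ζ x ∨
        (cut (r i j) ζ x < 2 * k ∧ cut (r i' j') ζ x < 2 * k) ∨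
        (ζ.length - 2 * k < cut (r i j) ζ x ∧ ζ.length - 2 * k < cut (r i' j') ζ x) := by
    intro x hx i hi j hj hij hxi hxj i' hi' j' hj' hij' hxi' hxj'
    by_cases hxζ : x ∈ ζ
    · left
      unfold cut
      apply List.countP_congr
      intro z hz
      simp only [decide_eq_true_eq]
      exact hagree z ((hζmem z).1 hz) x ((hζmem x).1 hxζ) i hi j hj hij i' hi' j' hj' hij'
    · have main : ∀ i ∈ W, ∀ j ∈ W, i < j → x ≠ i → x ≠ j → ∀ i' ∈ W, ∀ j' ∈ W, i' < j' →
          x ≠ i' → x ≠ j' → cut (r i j) ζ x < cut (r i' j') ζ x →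
          (cut (r i j) ζ x < 2 * k ∧ cut (r i' j') ζ x < 2 * k) ∨
          (ζ.length - 2 * k < cut (r i j) ζ x ∧ ζ.length - 2 * k < cut (r i' j') ζ x) := by
        intro i hi j hj hij hxi hxj i' hi' j' hj' hij' hxi' hxj' hlt
        have hmov := mov_of_cuts hR ζ (r i j) (r i' j') (hinj i j) (hinj i' j') x
          (hζsorted i hi j hj hij) (hζsorted i' hi' j' hj' hij') hxζ
          (by
            intro u v hu1 hu2 hv2 huv
            apply hS.compat i (hWX hi) j (hWX hj) i' (hWX hi') j' (hWX hj') hij hij' u v _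
              hu2 hv2 huv
            intro y hy
            rcases hu1 y hy with rfl | h
            · exact ⟨hx, hxi, hxj, hxi', hxj'⟩
            · have hyW := (hζX y h).2
              refine ⟨(hζX y h).1, ?_, ?_, ?_, ?_⟩ <;> (rintro rfl; exact hyW (by assumption)))
          (le_of_lt hlt)
        have hcl := cut_le_length (r i' j') ζ x
        have h5 : cut (r i j) ζ x + (cut (r i' j') ζ x - cut (r i j) ζ x)
            = cut (r i' j') ζ x := by omega
        have := mov_bound hR hT hC (c := cut (r i j) ζ x)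
          (d := cut (r i' j') ζ x - cut (r i j) ζ x) (K := ζ.length) (by omega) (by omega)
          (by omega) (by rw [h5]; exact hmov)
        rw [h5] at this
        exact this
      rcases lt_trichotomy (cut (r i j) ζ x) (cut (r i' j') ζ x) with hlt | heq | hlt
      · exact Or.inr (main i hi j hj hij hxi hxj i' hi' j' hj' hij' hxi' hxj' hlt)
      · exact Or.inl heq
      · right
        have := main i' hi' j' hj' hij' hxi' hxj' i hi j hj hij hxi hxj hlt
        omega
  -- the cuts of the elements of `W`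
  set val : Bool → ℕ := fun b => if b = true then h else 0 with hval
  have cut_split : ∀ f : ℕ → ℕ, ∀ x, cut f ζ x = (A.filter (fun z => f z < f x)).card +
      (C.filter (fun z => f z < f x)).card := by
    intro f x
    rw [cut_eq_card hζnd hζmem, hZ, Finset.filter_union, Finset.card_union_of_disjoint]
    exact Finset.disjoint_filter_filter hdisj
  have filt : ∀ (S : Finset ℕ) (f : ℕ → ℕ) (x : ℕ) (b : Bool), S.card = h →
      (∀ z ∈ S, (f z < f x ↔ b = true)) → (S.filter (fun z => f z < f x)).card = val b := by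
    intro S f x b hScard hSb
    simp only [hval]
    split_ifs with hb
    · rw [Finset.filter_true_of_mem, hScard]
      intro z hz
      exact (hSb z hz).2 hb
    · rw [Finset.filter_false_of_mem, Finset.card_empty]
      intro z hz hlt
      exact hb ((hSb z hz).1 hlt)
  have cutLow : ∀ w ∈ W, ∀ i ∈ W, ∀ j ∈ W, i < j → w < i →
      cut (r i j) ζ w = val b1 + val (!b5) := by
    intro w hw i hi j hj hij hwi
    rw [cut_split, filt A _ _ b1 hAcard, filt C _ _ (!b5) hCcard]
    · intro z hz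
      have h1 := (hom w (hWT hw) i (hWT hi) j (hWT hj) z (hCT hz) hwi hij (hWC _ hj _ hz)).2.2
      have h2 : r i j w ≠ r i j z := fun h => by
        have := hinj i j h
        have := hWC w hw z hz
        omega
      constructor
      · intro h3
        rw [Bool.not_eq_true']
        by_contra h4
        rw [Bool.not_eq_false] at h4
        have := h1.2 h4
        omega
      · intro h3
        rw [Bool.not_eq_true'] at h3
        by_contra h4
        have := h1.1 (by omega)
        rw [h3] at this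
        simp at this
    · intro z hz
      exact (hom z (hAT hz) w (hWT hw) i (hWT hi) j (hWT hj) (hAW _ hz _ hw) hwi hij).1
  have cutHigh : ∀ w ∈ W, ∀ i ∈ W, ∀ j ∈ W, i < j → j < w →
      cut (r i j) ζ w = val b5 + val (!b3) := by
    intro w hw i hi j hj hij hjw
    rw [cut_split, filt A _ _ b5 hAcard, filt C _ _ (!b3) hCcard]
    · intro z hz
      have h1 := (hom i (hWT hi) j (hWT hj) w (hWT hw) z (hCT hz) hij hjw (hWC _ hw _ hz)).2.1
      have h2 : r i j w ≠ r i j z := fun h => by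
        have := hinj i j h
        have := hWC w hw z hz
        omega
      constructor
      · intro h3
        rw [Bool.not_eq_true']
        by_contra h4
        rw [Bool.not_eq_false] at h4
        have := h1.2 h4
        omega
      · intro h3
        rw [Bool.not_eq_true'] at h3
        by_contra h4
        have := h1.1 (by omega)
        rw [h3] at this
        simp at this
    · intro z hz
      exact (hom z (hAT hz) i (hWT hi) j (hWT hj) w (hWT hw) (hAW _ hz _ hi) hij hjw).2.2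
  have hc3 := hclose w₃ (hWX hw₃) w₄ hw₄ w₅ hw₅ h45 (by omega) (by omega) w₁ hw₁ w₂ hw₂ h12
    (by omega) (by omega)
  rw [cutLow w₃ hw₃ w₄ hw₄ w₅ hw₅ h45 h34, cutHigh w₃ hw₃ w₁ hw₁ w₂ hw₂ h12 h23, hζlen] at hc3
  have hvals : val b1 + val (!b5) = h ∧ val b5 + val (!b3) = h := by
    simp only [hval] at hc3 ⊢
    rcases b1 <;> rcases b3 <;> rcases b5 <;> simp at hc3 ⊢ <;> omega
  have hmid : ∀ w ∈ W, ∀ i ∈ W, ∀ j ∈ W, i < j → w ≠ i → w ≠ j → cut (r i j) ζ w = h := by
    intro w hw i hi j hj hij hwi hwj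
    by_cases h1 : w < i
    · rw [cutLow w hw i hi j hj hij h1, hvals.1]
    by_cases h2 : j < w
    · rw [cutHigh w hw i hi j hj hij h2, hvals.2]
    by_cases h3 : w ≤ w₃
    · have h4 := hclose w (hWX hw) i hi j hj hij hwi hwj w₄ hw₄ w₅ hw₅ h45 (by omega) (by omega)
      rw [cutLow w hw w₄ hw₄ w₅ hw₅ h45 (by omega), hvals.1, hζlen] at h4
      omega
    · have h4 := hclose w (hWX hw) i hi j hj hij hwi hwj w₁ hw₁ w₂ hw₂ h12 (by omega) (by omega)
      rw [cutHigh w hw w₁ hw₁ w₂ hw₂ h12 (by omega), hvals.2, hζlen] at h4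
      omega
  refine ⟨W, ζ, ⟨hS, hT, hWX, by omega, hζX, by omega, hζsorted, hclose, ?_⟩, hWcard⟩
  intro w hw i hi j hj hij hwi hwj
  rw [hmid w hw i hi j hj hij hwi hwj, hζlen]
  omega

end Pool.Agent.Helper53
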