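import Mathlib
import Pool.Agent.Helper53.FrameExists

/-!
# The gluing theorem

A system of linear orders on the complements of pairs, compatible up to a pattern relation, can be
glued (for all pairs inside a set `W` of prescribed size).
-/

namespace Pool.Agent.Helper53

lemma filter_split (p : ℕ → Bool) (u : List ℕ)
    (h : u.Pairwise (fun a b => p b = true → p a = true)) :
    u = u.filter p ++ u.filter (fun x => !p x) := by
  induction u with
  | nil => simp
  | cons a u ih =>
    rw [List.pairwise_cons] at h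
    have ih' := ih h.2
    by_cases ha : p a = true
    · rw [List.filter_cons_of_pos ha, List.filter_cons_of_neg (by simpa using ha),
        List.cons_append, ← ih']
    · have h0 : u.filter p = [] := by
        rw [List.filter_eq_nil_iff]
        intro x hx hpx
        exact ha (h.1 x hx hpx)
      rw [h0, List.nil_append] at ih'
      rw [List.filter_cons_of_neg ha, List.filter_cons_of_pos (by simpa using ha), h0,
        List.nil_append, ← ih']

/-- The pointed version of a relation on lists. -/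
def Pointed (R : List ℕ → List ℕ → Prop) (u v : List ℕ) : Prop :=
  R u v ∧ ∀ z, R (z :: u) (z :: v)

lemma pointed_patRel {k : ℕ} {R : List ℕ → List ℕ → Prop} (hR : PatRel k R) :
    PatRel k (Pointed R) where
  refl u := ⟨hR.refl u, fun _ => hR.refl _⟩
  symm u v h := ⟨hR.symm _ _ h.1, fun z => hR.symm _ _ (h.2 z)⟩
  trans u v w huv hvw h1 h2 := ⟨hR.trans _ _ _ huv hvw h1.1 h2.1,
    fun z => hR.trans _ _ _ (huv.cons z) (hvw.cons z) (h1.2 z) (h2.2 z)⟩
  map e u v h := by
    refine ⟨hR.map e _ _ h.1, fun z => ?_⟩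
    obtain ⟨z', hz'⟩ := exists_fresh (u ++ v)
    rw [List.mem_append, not_or] at hz'
    have h1 := hR.map (Function.update e z' z) _ _ (h.2 z')
    rw [List.map_cons, List.map_cons, Function.update_self] at h1
    have h2 : ∀ w : List ℕ, z' ∉ w → w.map (Function.update e z' z) = w.map e := by
      intro w hw
      apply List.map_congr_left
      intro x hx
      rw [Function.update_of_ne]
      rintro rfl
      exact hw hx
    rw [h2 u hz'.1, h2 v hz'.2] at h1
    exact h1
  long u v huv hk := ⟨hR.long _ _ huv hk,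
    fun z => hR.long _ _ (huv.cons z) (by rw [List.length_cons]; omega)⟩

lemma pointed_not_cyc {k : ℕ} {R : List ℕ → List ℕ → Prop} (hR : PatRel k R) (hC : Cyc R)
    (hT : ¬ Tot R) : ¬ Cyc (Pointed R) := by
  intro hP
  apply hT
  apply tot_of_cyc_swap hR hC
  intro q x y _
  have h1 : R (x :: y :: q) (x :: (q ++ [y])) := (hP y q).2 x
  have h2 : R (y :: x :: q) ((x :: q) ++ [y]) := hC y (x :: q)
  have h3 : (x :: q) ++ [y] = x :: (q ++ [y]) := by simp
  rw [h3] at h2
  refine hR.trans _ _ _ ?_ ?_ h1 (hR.symm _ _ h2)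
  · exact List.Perm.cons x (List.perm_append_singleton y q).symm
  · exact (List.Perm.cons x (List.perm_append_singleton y q)).trans (List.Perm.swap y x q)

/-- The rotated rank function: elements above `z₀` come first, then the elements below `z₀`. -/
def rot (f : ℕ → ℕ) (X : Finset ℕ) (z₀ B : ℕ) (x : ℕ) : ℕ :=
  if x ∈ X then 2 * (if f z₀ < f x then f x else f x + B) else 2 * x + 1

lemma rot_injective {f : ℕ → ℕ} (hf : Function.Injective f) {X : Finset ℕ} {z₀ B : ℕ}
    (hB : ∀ x ∈ X, f x < B) : Function.Injective (rot f X z₀ B) := by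
  intro x y hxy
  unfold rot at hxy
  by_cases hx : x ∈ X <;> by_cases hy : y ∈ X
  · rw [if_pos hx, if_pos hy] at hxy
    have h1 := hB x hx
    have h2 := hB y hy
    by_cases h3 : f z₀ < f x <;> by_cases h4 : f z₀ < f y
    · rw [if_pos h3, if_pos h4] at hxy; exact hf (by omega)
    · rw [if_pos h3, if_neg h4] at hxy; omega
    · rw [if_neg h3, if_pos h4] at hxy; omega
    · rw [if_neg h3, if_neg h4] at hxy; exact hf (by omega)
  · rw [if_pos hx, if_neg hy] at hxy; omega
  · rw [if_neg hx, if_pos hy] at hxy; omega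
  · rw [if_neg hx, if_neg hy] at hxy; omega

lemma rot_lt_iff {f : ℕ → ℕ} {X : Finset ℕ} {z₀ B : ℕ} (hB : ∀ x ∈ X, f x < B) {x y : ℕ}
    (hx : x ∈ X) (hy : y ∈ X) : rot f X z₀ B x < rot f X z₀ B y ↔
      ((f z₀ < f x ∧ ¬ f z₀ < f y) ∨ ((f z₀ < f x ↔ f z₀ < f y) ∧ f x < f y)) := by
  unfold rot
  rw [if_pos hx, if_pos hy]
  have h1 := hB x hx
  have h2 := hB y hy
  by_cases h3 : f z₀ < f x <;> by_cases h4 : f z₀ < f y
  · rw [if_pos h3, if_pos h4]; constructor
    · intro h; right; exact ⟨by tauto, by omega⟩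
    · rintro (⟨_, h⟩ | ⟨_, h⟩)
      · exact absurd h4 h
      · omega
  · rw [if_pos h3, if_neg h4]; constructor
    · intro _; left; exact ⟨h3, h4⟩
    · intro _; omega
  · rw [if_neg h3, if_pos h4]; constructor
    · intro h; omega
    · rintro (⟨h, _⟩ | ⟨h, _⟩)
      · exact absurd h h3
      · exact absurd (h.2 h4) h3
  · rw [if_neg h3, if_neg h4]; constructor
    · intro h; right; exact ⟨by tauto, by omega⟩
    · rintro (⟨h, _⟩ | ⟨_, h⟩)
      · exact absurd h h3
      · omega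

/-- Splitting of a list sorted by the rotated rank. -/
lemma rot_split {f : ℕ → ℕ} (hf : Function.Injective f) {X : Finset ℕ} {z₀ B : ℕ}
    (hB : ∀ x ∈ X, f x < B)
    {u : List ℕ} (huX : ∀ x ∈ u, x ∈ X ∧ x ≠ z₀)
    (hu : u.Pairwise (fun a b => rot f X z₀ B a < rot f X z₀ B b)) :
    ∃ u₁ u₂ : List ℕ, u = u₁ ++ u₂ ∧ (u₂ ++ u₁).Pairwise (fun a b => f a < f b) ∧
      (u₂ ++ z₀ :: u₁).Pairwise (fun a b => f a < f b) := by
  set p : ℕ → Bool := fun x => decide (f z₀ < f x) with hp
  have hsplit : u = u.filter p ++ u.filter (fun x => !p x) := by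
    apply filter_split
    refine hu.imp_of_mem ?_
    intro a b ha hb hab hpb
    rw [rot_lt_iff hB (huX a ha).1 (huX b hb).1] at hab
    simp only [hp, decide_eq_true_eq] at hpb ⊢
    tauto
  have m1 : ∀ x ∈ u.filter p, x ∈ u ∧ f z₀ < f x := by
    intro x hx
    rw [List.mem_filter] at hx
    simpa [hp] using hx
  have m2 : ∀ x ∈ u.filter (fun x => !p x), x ∈ u ∧ f x < f z₀ := by
    intro x hx
    rw [List.mem_filter] at hx
    have h1 : ¬ f z₀ < f x := by simpa [hp] using hx.2
    have h2 : f x ≠ f z₀ := fun h => (huX x hx.1).2 (hf h)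
    exact ⟨hx.1, by omega⟩
  have s1 : (u.filter p).Pairwise (fun a b => f a < f b) := by
    refine (hu.sublist List.filter_sublist).imp_of_mem ?_
    intro a b ha hb hab
    have ha' := m1 a ha
    have hb' := m1 b hb
    rw [rot_lt_iff hB (huX a ha'.1).1 (huX b hb'.1).1] at hab
    rcases hab with ⟨_, h⟩ | ⟨_, h⟩
    · exact absurd hb'.2 h
    · exact h
  have s2 : (u.filter (fun x => !p x)).Pairwise (fun a b => f a < f b) := by
    refine (hu.sublist List.filter_sublist).imp_of_mem ?_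
    intro a b ha hb hab
    have ha' := m2 a ha
    have hb' := m2 b hb
    rw [rot_lt_iff hB (huX a ha'.1).1 (huX b hb'.1).1] at hab
    rcases hab with ⟨h, _⟩ | ⟨_, h⟩
    · omega
    · exact h
  have s3 : (u.filter (fun x => !p x) ++ u.filter p).Pairwise (fun a b => f a < f b) := by
    rw [List.pairwise_append]
    refine ⟨s2, s1, ?_⟩
    intro a ha b hb
    have := (m2 a ha).2
    have := (m1 b hb).2
    omega
  exact ⟨_, _, hsplit, s3, pairwise_insert s3 (fun a ha => (m2 a ha).2) (fun b hb => (m1 b hb).2)⟩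

/-- Rotating a sorted list. -/
lemma rot_sorted {f : ℕ → ℕ} {X : Finset ℕ} {z₀ B : ℕ}
    (hB : ∀ x ∈ X, f x < B) {u₁ u₂ : List ℕ} (huX : ∀ x ∈ u₂ ++ u₁, x ∈ X)
    (hs : (u₂ ++ u₁).Pairwise (fun a b => f a < f b))
    (h1 : ∀ x ∈ u₁, f z₀ < f x) (h2 : ∀ x ∈ u₂, f x < f z₀) :
    (u₁ ++ u₂).Pairwise (fun a b => rot f X z₀ B a < rot f X z₀ B b) := by
  rw [List.pairwise_append] at hs ⊢
  have hX1 : ∀ x ∈ u₁, x ∈ X := fun x hx => huX x (List.mem_append_right _ hx)
  have hX2 : ∀ x ∈ u₂, x ∈ X := fun x hx => huX x (List.mem_append_left _ hx)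
  refine ⟨?_, ?_, ?_⟩
  · refine hs.2.1.imp_of_mem ?_
    intro a b ha hb hab
    rw [rot_lt_iff hB (hX1 a ha) (hX1 b hb)]
    right
    have := h1 a ha
    have := h1 b hb
    tauto
  · refine hs.1.imp_of_mem ?_
    intro a b ha hb hab
    rw [rot_lt_iff hB (hX2 a ha) (hX2 b hb)]
    right
    have := h2 a ha
    have := h2 b hb
    refine ⟨?_, hab⟩
    constructor <;> (intro h; omega)
  · intro a ha b hb
    rw [rot_lt_iff hB (hX1 a ha) (hX2 b hb)]
    left
    have := h1 a ha
    have := h2 b hb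
    exact ⟨this |> fun _ => h1 a ha, by omega⟩

/-- **The gluing theorem.** -/
theorem gluing (k m : ℕ) (hm : 5 ≤ m) : ∃ N : ℕ, ∀ (R : List ℕ → List ℕ → Prop)
    (X : Finset ℕ) (r : ℕ → ℕ → ℕ → ℕ), PatRel k R → OrdSys R X r → N ≤ X.card →
    ∃ W ⊆ X, W.card = m ∧ ∃ ρ : ℕ → ℕ, Glued R X r W ρ := by
  classical
  obtain ⟨N, hN⟩ := frame_exists k m hm
  refine ⟨max (N + 1) m, ?_⟩
  intro R X r hR hS hX
  have hX1 : N + 1 ≤ X.card := le_trans (le_max_left _ _) hX
  have hX2 : m ≤ X.card := le_trans (le_max_right _ _) hX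
  by_cases hT : Tot R
  · obtain ⟨W, hWX, hW⟩ := Finset.exists_subset_card_eq hX2
    exact ⟨W, hWX, hW, id, ⟨Function.injective_id.injOn, fun i _ j _ _ u v _ _ _ huv => hT u v huv⟩⟩
  by_cases hC : Cyc R
  swap
  · obtain ⟨W, ζ, F, hW⟩ := hN R X r hR hT hC hS (by omega)
    exact ⟨W, F.Wsub, hW, glue_of_frame hR F⟩
  -- the cyclic case
  have hXne : X.Nonempty := by rw [← Finset.card_pos]; omega
  obtain ⟨z₀, hz₀⟩ := hXne
  set X' := X.erase z₀ with hX'
  have hX'sub : ∀ x ∈ X', x ∈ X ∧ x ≠ z₀ := by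
    intro x hx
    rw [hX', Finset.mem_erase] at hx
    exact ⟨hx.2, hx.1⟩
  -- bounds for the ranks
  have hBex : ∀ f : ℕ → ℕ, ∃ B, ∀ x ∈ X, f x < B := by
    intro f
    refine ⟨X.sup f + 1, fun x hx => ?_⟩
    have := Finset.le_sup (f := f) hx
    omega
  choose B hB using hBex
  set r' : ℕ → ℕ → ℕ → ℕ := fun i j => rot (r i j) X z₀ (B (r i j)) with hr'
  have hinj := hS.inj
  have hR' := pointed_patRel hR
  have hC' := pointed_not_cyc hR hC hT
  have hT' : ¬ Tot (Pointed R) := fun h => hT (fun u v huv => (h u v huv).1)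
  have hS' : OrdSys (Pointed R) X' r' := by
    refine ⟨fun i j => rot_injective (hinj i j) (hB _), ?_⟩
    intro i hi j hj i' hi' j' hj' hij hij' u v hu1 hu2 hv2 huv
    obtain ⟨hiX, hiz⟩ := hX'sub i hi
    obtain ⟨hjX, hjz⟩ := hX'sub j hj
    obtain ⟨hiX', hiz'⟩ := hX'sub i' hi'
    obtain ⟨hjX', hjz'⟩ := hX'sub j' hj'
    have hv1 : ∀ x ∈ v, x ∈ X' ∧ x ≠ i ∧ x ≠ j ∧ x ≠ i' ∧ x ≠ j' :=
      fun x hx => hu1 x (huv.mem_iff.2 hx)
    obtain ⟨u₁, u₂, hu, hus, hus'⟩ := rot_split (hinj i j) (hB _)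
      (fun x hx => hX'sub x (hu1 x hx).1) hu2
    obtain ⟨v₁, v₂, hv, hvs, hvs'⟩ := rot_split (hinj i' j') (hB _)
      (fun x hx => hX'sub x (hv1 x hx).1) hv2
    have pu : u.Perm (u₂ ++ u₁) := by rw [hu]; exact List.perm_append_comm
    have pv : (v₂ ++ v₁).Perm v := by rw [hv]; exact List.perm_append_comm
    have puv : (u₂ ++ u₁).Perm (v₂ ++ v₁) := pu.symm.trans (huv.trans pv.symm)
    have hmem : ∀ x ∈ u₂ ++ u₁, x ∈ X ∧ x ≠ i ∧ x ≠ j ∧ x ≠ i' ∧ x ≠ j' := by
      intro x hx
      have := hu1 x (pu.mem_iff.2 hx)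
      exact ⟨(hX'sub x this.1).1, this.2⟩
    have h1 : R (u₂ ++ u₁) (v₂ ++ v₁) :=
      hS.compat i hiX j hjX i' hiX' j' hjX' hij hij' _ _ hmem hus hvs puv
    have h2 : R u (u₂ ++ u₁) := by rw [hu]; exact cyc_rotate hR hC _ _
    have h3 : R (v₂ ++ v₁) v := by rw [hv]; exact cyc_rotate hR hC _ _
    have hz₀u : z₀ ∉ u := fun h => (hX'sub z₀ (hu1 z₀ h).1).2 rfl
    have hz₀v : z₀ ∉ v := fun h => (hX'sub z₀ (hv1 z₀ h).1).2 rfl
    refine ⟨hR.trans _ _ _ pu (puv.trans pv) h2 (hR.trans _ _ _ puv pv h1 h3), ?_⟩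
    have pu' : (u₂ ++ z₀ :: u₁).Perm (z₀ :: (u₂ ++ u₁)) := List.perm_middle
    have pv' : (v₂ ++ z₀ :: v₁).Perm (z₀ :: (v₂ ++ v₁)) := List.perm_middle
    have h4 : R (u₂ ++ z₀ :: u₁) (v₂ ++ z₀ :: v₁) := by
      apply hS.compat i hiX j hjX i' hiX' j' hjX' hij hij' _ _ _ hus' hvs'
        (pu'.trans ((puv.cons z₀).trans pv'.symm))
      intro x hx
      rw [List.mem_append, List.mem_cons] at hx
      rcases hx with hx | rfl | hx
      · exact hmem x (List.mem_append_left _ hx)
      · exact ⟨hz₀, hiz.symm, hjz.symm, hiz'.symm, hjz'.symm⟩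
      · exact hmem x (List.mem_append_right _ hx)
    have h5 : R (z₀ :: u) (u₂ ++ z₀ :: u₁) := by
      have : z₀ :: u = (z₀ :: u₁) ++ u₂ := by rw [hu]; rfl
      rw [this]; exact cyc_rotate hR hC _ _
    have h6 : R (v₂ ++ z₀ :: v₁) (z₀ :: v) := by
      have : z₀ :: v = (z₀ :: v₁) ++ v₂ := by rw [hv]; rfl
      rw [this]; exact cyc_rotate hR hC _ _
    have h7 : R (z₀ :: u) (z₀ :: v) := by
      have q1 : (z₀ :: u).Perm (u₂ ++ z₀ :: u₁) := (pu.cons z₀).trans pu'.symm
      have q2 : (u₂ ++ z₀ :: u₁).Perm (v₂ ++ z₀ :: v₁) :=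
        pu'.trans ((puv.cons z₀).trans pv'.symm)
      have q3 : (v₂ ++ z₀ :: v₁).Perm (z₀ :: v) := pv'.trans (pv.cons z₀)
      exact hR.trans _ _ _ q1 (q2.trans q3) h5 (hR.trans _ _ _ q2 q3 h4 h6)
    intro z
    have h8 := hR.map (Function.update id z₀ z) _ _ h7
    have h9 : ∀ w : List ℕ, z₀ ∉ w → w.map (Function.update id z₀ z) = w := by
      intro w hw
      conv_rhs => rw [← List.map_id w]
      apply List.map_congr_left
      intro x hx
      rw [Function.update_of_ne]
      rintro rfl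
      exact hw hx
    rw [List.map_cons, List.map_cons, Function.update_self, h9 u hz₀u, h9 v hz₀v] at h8
    exact h8
  have hX'card : N ≤ X'.card := by
    rw [hX', Finset.card_erase_of_mem hz₀]; omega
  obtain ⟨W, ζ, F, hW⟩ := hN (Pointed R) X' r' hR' hT' hC' hS' hX'card
  obtain ⟨ρ', G⟩ := glue_of_frame hR' F
  refine ⟨W, F.Wsub.trans (Finset.erase_subset _ _), hW, fun x => if x = z₀ then 0 else ρ' x + 1,
    ?_, ?_⟩
  · intro x hx y hy hxy
    simp only at hxy
    split_ifs at hxy with h1 h2 h3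
    · rw [h1, h2]
    · have hxX' : x ∈ X' := by rw [hX', Finset.mem_erase]; exact ⟨h1, hx⟩
      have hyX' : y ∈ X' := by rw [hX', Finset.mem_erase]; exact ⟨h3, hy⟩
      exact G.inj hxX' hyX' (by omega)
  · intro i hi j hj hij u v hu1 hu2 hv2 huv
    have hiz : z₀ ≠ i := fun h => (hX'sub i (F.Wsub hi)).2 h.symm
    have hjz : z₀ ≠ j := fun h => (hX'sub j (F.Wsub hj)).2 h.symm
    have hv1 : ∀ x ∈ v, x ∈ X ∧ x ≠ i ∧ x ≠ j := fun x hx => hu1 x (huv.mem_iff.2 hx)
    have hund : u.Nodup := by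
      refine hu2.imp ?_
      rintro a b hab rfl
      exact lt_irrefl _ hab
    by_cases hz : z₀ ∈ u
    · -- `z₀` is the first entry of `u`
      obtain ⟨u', rfl⟩ : ∃ u', u = z₀ :: u' := by
        match u, hz, hu2 with
        | a :: u'', hz, hu2 =>
          rw [List.mem_cons] at hz
          rcases hz with rfl | hz
          · exact ⟨u'', rfl⟩
          · rw [List.pairwise_cons] at hu2
            have := hu2.1 z₀ hz
            simp at this
      rw [List.nodup_cons] at hund
      rw [List.pairwise_cons] at hu2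
      have hu'X : ∀ x ∈ u', x ∈ X' ∧ x ≠ i ∧ x ≠ j := by
        intro x hx
        have h1 := hu1 x (List.mem_cons_of_mem _ hx)
        have h2 : x ≠ z₀ := fun h => hund.1 (h ▸ hx)
        exact ⟨by rw [hX', Finset.mem_erase]; exact ⟨h2, h1.1⟩, h1.2⟩
      have hu's : u'.Pairwise (fun a b => ρ' a < ρ' b) := by
        refine hu2.2.imp_of_mem ?_
        intro a b ha hb hab
        have h1 : a ≠ z₀ := fun h => hund.1 (h ▸ ha)
        have h2 : b ≠ z₀ := fun h => hund.1 (h ▸ hb)
        rw [if_neg h1, if_neg h2] at hab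
        omega
      have hzv : z₀ ∈ v := huv.mem_iff.1 (by simp)
      obtain ⟨v₂, v₁, rfl⟩ := List.append_of_mem hzv
      have hsv : (v₂ ++ v₁).Pairwise (fun a b => r i j a < r i j b) := by
        refine hv2.sublist ?_
        exact List.Sublist.append (List.Sublist.refl _) (List.sublist_cons_self _ _)
      rw [List.pairwise_append, List.pairwise_cons] at hv2
      have hv₁ : ∀ x ∈ v₁, r i j z₀ < r i j x := hv2.2.1.1
      have hv₂ : ∀ x ∈ v₂, r i j x < r i j z₀ := fun x hx => hv2.2.2 x hx z₀ (by simp)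
      have hsv' : (v₁ ++ v₂).Pairwise (fun a b => r' i j a < r' i j b) := by
        apply rot_sorted (hB _) _ hsv hv₁ hv₂
        intro x hx
        rw [List.mem_append] at hx
        rcases hx with hx | hx
        · exact (hv1 x (by simp [hx])).1
        · exact (hv1 x (by simp [hx])).1
      have hperm : u'.Perm (v₁ ++ v₂) := by
        have h1 : (z₀ :: u').Perm (z₀ :: (v₂ ++ v₁)) := huv.trans List.perm_middle
        exact ((List.perm_cons z₀).1 h1).trans List.perm_append_comm
      have h1 := G.glue i hi j hj hij u' (v₁ ++ v₂) hu'X hu's hsv' hperm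
      have h2 : R (z₀ :: u') (z₀ :: (v₁ ++ v₂)) := h1.2 z₀
      have h3 : R ((z₀ :: v₁) ++ v₂) (v₂ ++ (z₀ :: v₁)) := cyc_rotate hR hC _ _
      exact hR.trans _ _ _ (hperm.cons z₀)
        (List.perm_append_comm (l₁ := z₀ :: v₁) (l₂ := v₂)) h2 h3
    · have hzv : z₀ ∉ v := fun h => hz (huv.mem_iff.2 h)
      have huX' : ∀ x ∈ u, x ∈ X' ∧ x ≠ i ∧ x ≠ j := by
        intro x hx
        have h1 := hu1 x hx
        have h2 : x ≠ z₀ := fun h => hz (h ▸ hx)
        exact ⟨by rw [hX', Finset.mem_erase]; exact ⟨h2, h1.1⟩, h1.2⟩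
      have hus : u.Pairwise (fun a b => ρ' a < ρ' b) := by
        refine hu2.imp_of_mem ?_
        intro a b ha hb hab
        have h1 : a ≠ z₀ := fun h => hz (h ▸ ha)
        have h2 : b ≠ z₀ := fun h => hz (h ▸ hb)
        rw [if_neg h1, if_neg h2] at hab
        omega
      set p : ℕ → Bool := fun x => decide (r i j x < r i j z₀) with hp
      have hsplit : v = v.filter p ++ v.filter (fun x => !p x) := by
        apply filter_split
        refine hv2.imp ?_
        intro a b hab hpb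
        simp only [hp, decide_eq_true_eq] at hpb ⊢
        omega
      set v₂ := v.filter p with hv₂
      set v₁ := v.filter (fun x => !p x) with hv₁
      have m2 : ∀ x ∈ v₂, r i j x < r i j z₀ := by
        intro x hx
        rw [hv₂, List.mem_filter] at hx
        simpa [hp] using hx.2
      have m1 : ∀ x ∈ v₁, r i j z₀ < r i j x := by
        intro x hx
        rw [hv₁, List.mem_filter] at hx
        have h1 : ¬ r i j x < r i j z₀ := by simpa [hp] using hx.2
        have h2 : r i j x ≠ r i j z₀ := fun h => hzv (hinj i j h ▸ hx.1)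
        omega
      have hsv' : (v₁ ++ v₂).Pairwise (fun a b => r' i j a < r' i j b) := by
        apply rot_sorted (hB _) _ (hsplit ▸ hv2) m1 m2
        intro x hx
        rw [← hsplit] at hx
        exact (hv1 x hx).1
      have hpv : (v₁ ++ v₂).Perm v := by
        conv_rhs => rw [hsplit]
        exact List.perm_append_comm
      have hperm : u.Perm (v₁ ++ v₂) := huv.trans hpv.symm
      have h1 := G.glue i hi j hj hij u (v₁ ++ v₂) huX' hus hsv' hperm
      have h3 : R (v₁ ++ v₂) (v₂ ++ v₁) := cyc_rotate hR hC _ _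
      rw [← hsplit] at h3
      exact hR.trans _ _ _ hperm hpv h1.1 h3

end Pool.Agent.Helper53
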