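import Mathlib
import Pool.Agent.Helper53.Gluing

/-!
# Words, contents and single letters
-/

namespace Pool.Agent.Helper53

open Classical in
/-- The list of single letters of a word, in the order of occurrence. -/
noncomputable def sl {A : Type*} (w : List A) : List A :=
  w.filter (fun x => decide (w.count x = 1))

section

variable {A : Type*}

open Classical in
lemma mem_sl {w : List A} {x : A} : x ∈ sl w ↔ w.count x = 1 := by
  unfold sl
  rw [List.mem_filter]
  simp only [decide_eq_true_eq, and_iff_right_iff_imp]
  intro h
  exact List.count_pos_iff.1 (by omega)

lemma sl_sublist (w : List A) : (sl w).Sublist w := List.filter_sublist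

lemma sl_subset {w : List A} {x : A} (h : x ∈ sl w) : x ∈ w := (sl_sublist w).subset h

open Classical in
lemma sl_nodup (w : List A) : (sl w).Nodup := by
  rw [List.nodup_iff_count_le_one]
  intro a
  by_cases h : a ∈ sl w
  · have h1 := mem_sl.1 h
    have h2 := (sl_sublist w).count_le a
    omega
  · rw [List.count_eq_zero_of_not_mem h]
    omega

open Classical in
/-- The single letters of a word and of a permuted word. -/
lemma sl_eq_filter {w w' : List A} (h : w.Perm w') :
    sl w' = w'.filter (fun x => decide (w.count x = 1)) := by
  unfold sl
  apply List.filter_congr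
  intro x _
  rw [h.count_eq]

open Classical in
lemma sl_perm {w w' : List A} (h : w.Perm w') : (sl w).Perm (sl w') := by
  rw [sl_eq_filter h]
  exact h.filter _

open Classical in
/-- Any order of the single letters can be realised by a permuted word. -/
lemma exists_word (w σ : List A) (h : σ.Perm (sl w)) : ∃ w' : List A, w'.Perm w ∧ sl w' = σ := by
  have h1 : (σ ++ w.filter (fun x => !decide (w.count x = 1))).Perm w := by
    have h2 : (w.filter (fun x => decide (w.count x = 1)) ++
        w.filter (fun x => !decide (w.count x = 1))).Perm w :=
      List.filter_append_perm _ w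
    exact (List.Perm.append_right _ h).trans h2
  refine ⟨_, h1, ?_⟩
  rw [sl_eq_filter h1.symm, List.filter_append, List.filter_eq_self.2, List.filter_filter]
  · have : w.filter (fun a => decide (w.count a = 1) && !decide (w.count a = 1)) = [] := by
      rw [List.filter_eq_nil_iff]
      intro a _
      simp
    rw [this, List.append_nil]
  · intro a ha
    simpa using mem_sl.1 (h.mem_iff.1 ha)

/-- Relabelling with values in an arbitrary type. -/
lemma exists_map_eq_of_nodup (u : List ℕ) (w : List A) [Inhabited A] (hu : u.Nodup)
    (h : u.length = w.length) : ∃ e : ℕ → A, u.map e = w := by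
  induction u generalizing w with
  | nil =>
    refine ⟨fun _ => default, ?_⟩
    rw [List.length_nil] at h
    rw [List.map_nil, List.eq_nil_of_length_eq_zero h.symm]
  | cons a u ih =>
    match w, h with
    | b :: w, h =>
      rw [List.nodup_cons] at hu
      obtain ⟨e, he⟩ := ih w hu.2 (by simpa using h)
      refine ⟨Function.update e a b, ?_⟩
      rw [List.map_cons, Function.update_self]
      congr 1
      rw [← he]
      apply List.map_congr_left
      intro x hx
      rw [Function.update_of_ne]
      rintro rfl
      exact hu.1 hx

open Classical in
/-- An assignment with prescribed values at some positions and with prescribed content. -/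
lemma exists_assign [Inhabited A] (m : ℕ) (P : List ℕ) (hP : P.Nodup) (hPm : ∀ x ∈ P, x < m)
    (c : ℕ → A) (w : List A) (hw : w.length = m) (hsub : List.Subperm (P.map c) w) :
    ∃ b : ℕ → A, (∀ x ∈ P, b x = c x) ∧ ((List.range m).map b).Perm w := by
  -- the rest of the positions
  have hPsub : List.Subperm P (List.range m) :=
    List.subperm_of_subset hP (fun x hx => List.mem_range.2 (hPm x hx))
  set Q := (List.range m).diff P with hQ
  have hPQ : (P ++ Q).Perm (List.range m) := List.subperm_append_diff_self_of_count_le
    (fun x hx => by
      have h1 := hPsub.count_le x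
      exact h1)
  set w' := w.diff (P.map c) with hw'
  have hww' : (P.map c ++ w').Perm w := List.subperm_append_diff_self_of_count_le
    (fun x hx => hsub.count_le x)
  have hQnd : (P ++ Q).Nodup := hPQ.nodup_iff.2 List.nodup_range
  rw [List.nodup_append] at hQnd
  have hlen : Q.length = w'.length := by
    have h1 := hPQ.length_eq
    have h2 := hww'.length_eq
    rw [List.length_append, List.length_range] at h1
    rw [List.length_append, List.length_map] at h2
    omega
  obtain ⟨e, he⟩ := exists_map_eq_of_nodup Q w' hQnd.2.1 hlen
  refine ⟨fun x => if x ∈ P then c x else e x, ?_, ?_⟩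
  · intro x hx
    simp only [if_pos hx]
  · refine (hPQ.symm.map _).trans ?_
    rw [List.map_append]
    have h1 : P.map (fun x => if x ∈ P then c x else e x) = P.map c := by
      apply List.map_congr_left
      intro x hx
      rw [if_pos hx]
    have h2 : Q.map (fun x => if x ∈ P then c x else e x) = w' := by
      rw [← he]
      apply List.map_congr_left
      intro x hx
      rw [if_neg]
      intro hxP
      exact hQnd.2.2 x hxP x hx rfl
    rw [h1, h2]
    exact hww'

/-- Positions of single letters. -/
def isSingle (A : Type*) (m : ℕ) (b : ℕ → A) (x : ℕ) : Prop := b x ∈ sl ((List.range m).map b)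

open Classical in
/-- The single letters of the word spelled by a list of positions. -/
lemma sl_map (m : ℕ) (b : ℕ → A) (L : List ℕ) (w : List A) (hw : w.Perm (L.map b))
    (hw2 : w.Perm ((List.range m).map b)) :
    sl (L.map b) = (L.filter (fun x => decide (isSingle A m b x))).map b := by
  rw [sl_eq_filter hw, List.filter_map]
  congr 1
  apply List.filter_congr
  intro x _
  simp only [Function.comp_apply]
  congr 1
  unfold isSingle
  rw [mem_sl, hw2.count_eq]

open Classical in
/-- A letter that is single occurs at exactly one position. -/
lemma single_inj {m : ℕ} {b : ℕ → A} {x y : ℕ} (hx : x < m) (hy : y < m)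
    (hs : isSingle A m b x) (hxy : b x = b y) : x = y := by
  by_contra hne
  unfold isSingle at hs
  rw [mem_sl] at hs
  have hsub : List.Subperm [x, y] (List.range m) := by
    apply List.subperm_of_subset
    · simp [hne]
    · intro z hz
      simp only [List.mem_cons, List.not_mem_nil, or_false] at hz
      rw [List.mem_range]
      rcases hz with rfl | rfl <;> assumption
  have hsub' : List.Subperm ([x, y].map b) ((List.range m).map b) := by
    obtain ⟨l, h1, h2⟩ := hsub
    exact ⟨l.map b, h1.map b, h2.map b⟩
  have h1 := hsub'.count_le (b x)
  rw [hs] at h1
  simp [hxy] at h1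

/-- Pigeonhole: some letter occurs often. -/
lemma exists_big [Fintype A] [Nonempty A] (w : List A) (c : ℕ)
    (h : Fintype.card A * c < w.length) :
    ∃ x : A, c < (by classical exact w.count x : ℕ) := by
  classical
  by_contra hcon
  push Not at hcon
  have h1 : w.length = ∑ x : A, w.count x := by
    have h2 := Multiset.sum_count_eq_card (s := (Finset.univ : Finset A)) (m := (w : Multiset A))
      (fun a _ => Finset.mem_univ a)
    rw [Multiset.coe_card] at h2
    rw [← h2]
    apply Finset.sum_congr rfl
    intro x _
    rw [Multiset.coe_count]
  have h2 : ∑ x : A, w.count x ≤ ∑ _x : A, c := by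
    apply Finset.sum_le_sum
    intro x _
    convert hcon x
  rw [Finset.sum_const, Finset.card_univ, smul_eq_mul] at h2
  omega

end

end Pool.Agent.Helper53
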