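import Mathlib
import Pool.Agent.Helper53.Words

/-!
# The main case
-/

namespace Pool.Agent.Helper53

universe u v

/-- `F` is determined by content and single letters on words of length `m`. -/
def DCS {A : Type u} {B : Type v} (m : ℕ) (F : List A → B) : Prop :=
  ∀ w w' : List A, w.length = m → w.Perm w' → sl w = sl w' → F w = F w'

/-- The pattern relation of `F`. -/
def PatF {A : Type u} {B : Type v} (m : ℕ) (F : List A → B) (u v : List ℕ) : Prop :=
  ∀ (a : ℕ → A) (w w' : List A), w.length = m → w.Perm w' → sl w = u.map a → sl w' = v.map a →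
    F w = F w'

open Classical in
lemma sl_length_lt {A : Type u} [Fintype A] (w : List A) (hw : Fintype.card A < w.length) :
    (sl w).length < Fintype.card A := by
  by_contra hcon
  push Not at hcon
  have h1 : (sl w).toFinset.card = (sl w).length := List.toFinset_card_of_nodup (sl_nodup w)
  have h2 : (sl w).toFinset = Finset.univ := by
    apply Finset.eq_univ_of_card
    apply le_antisymm (Finset.card_le_univ _)
    omega
  have h3 : w.Nodup := by
    rw [List.nodup_iff_count_le_one]
    intro a
    have : a ∈ sl w := by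
      rw [← List.mem_toFinset, h2]
      exact Finset.mem_univ a
    exact le_of_eq (mem_sl.1 this)
  have h4 : w.toFinset.card = w.length := List.toFinset_card_of_nodup h3
  have h5 := Finset.card_le_univ w.toFinset
  omega

lemma patF_patRel {A : Type u} {B : Type v} [Fintype A] {m : ℕ} {F : List A → B}
    (hm : Fintype.card A < m) (hF : DCS m F) : PatRel (Fintype.card A) (PatF m F) where
  refl u := by
    intro a w w' hw hp h1 h2
    exact hF w w' hw hp (h1.trans h2.symm)
  symm u v h := by
    intro a w w' hw hp h1 h2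
    exact (h a w' w (hp.length_eq ▸ hw) hp.symm h2 h1).symm
  trans u v t huv hvt h1 h2 := by
    intro a w w' hw hp hwu hwt
    obtain ⟨w'', hw'', hs⟩ := exists_word w (v.map a) (by rw [hwu]; exact (huv.map a).symm)
    have e1 := h1 a w w'' hw hw''.symm hwu hs
    have e2 := h2 a w'' w' (hw''.length_eq.trans hw) (hw''.trans hp) hs hwt
    exact e1.trans e2
  map e u v h := by
    intro a w w' hw hp h1 h2
    rw [List.map_map] at h1 h2
    exact h (a ∘ e) w w' hw hp h1 h2
  long u v huv hk := by
    intro a w w' hw hp h1 h2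
    exfalso
    have := sl_length_lt w (by rw [hw]; exact hm)
    rw [h1, List.length_map] at this
    omega

/-- The rank function of an enumeration `L` of `range m`. -/
def rankOf (m : ℕ) (L : List ℕ) (x : ℕ) : ℕ := if x < m then L.idxOf x else x

lemma rankOf_injective {m : ℕ} {L : List ℕ} (hL : L.Perm (List.range m)) :
    Function.Injective (rankOf m L) := by
  have hlen : L.length = m := by rw [hL.length_eq, List.length_range]
  have hmem : ∀ x, x < m → x ∈ L := fun x hx => hL.mem_iff.2 (List.mem_range.2 hx)
  intro x y hxy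
  unfold rankOf at hxy
  by_cases hx : x < m <;> by_cases hy : y < m
  · rw [if_pos hx, if_pos hy] at hxy
    exact (List.idxOf_inj (hmem x hx)).1 hxy
  · rw [if_pos hx, if_neg hy] at hxy
    have := List.idxOf_lt_length_of_mem (hmem x hx)
    omega
  · rw [if_neg hx, if_pos hy] at hxy
    have := List.idxOf_lt_length_of_mem (hmem y hy)
    omega
  · rw [if_neg hx, if_neg hy] at hxy
    exact hxy

lemma rankOf_sorted {m : ℕ} {L : List ℕ} (hL : L.Perm (List.range m)) :
    L.Pairwise (fun a b => rankOf m L a < rankOf m L b) := by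
  have hnd : L.Nodup := hL.nodup_iff.2 List.nodup_range
  rw [List.pairwise_iff_getElem]
  intro i j hi hj hij
  have h1 : L[i] < m := List.mem_range.1 (hL.mem_iff.1 (List.getElem_mem hi))
  have h2 : L[j] < m := List.mem_range.1 (hL.mem_iff.1 (List.getElem_mem hj))
  unfold rankOf
  rw [if_pos h1, if_pos h2, hnd.idxOf_getElem i hi, hnd.idxOf_getElem j hj]
  exact hij

/-- Two sorted lists with the same elements are equal. -/
lemma sorted_unique {f : ℕ → ℕ} {u v : List ℕ} (hu : u.Pairwise (fun a b => f a < f b))
    (hv : v.Pairwise (fun a b => f a < f b)) (h : ∀ x, x ∈ u ↔ x ∈ v) : u = v := by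
  have hp : u.Perm v := (List.perm_ext_iff_of_nodup (pairwise_nodup hu) (pairwise_nodup hv)).2 h
  exact List.Perm.eq_of_pairwise (fun a b _ _ h1 h2 => by omega) hu hv hp

lemma exists_sorted_list' (Z : Finset ℕ) (f : ℕ → ℕ) (hf : Set.InjOn f Z) :
    ∃ ζ : List ℕ, ζ.Pairwise (fun a b => f a < f b) ∧ ∀ x, x ∈ ζ ↔ x ∈ Z := by
  induction Z using Finset.induction_on_max_value f with
  | empty => exact ⟨[], by simp, by simp⟩
  | insert a s ha hmax ih =>
    obtain ⟨ζ, h1, h2⟩ := ih (hf.mono (by simp))
    refine ⟨ζ ++ [a], ?_, ?_⟩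
    · rw [List.pairwise_append]
      refine ⟨h1, by simp, ?_⟩
      intro x hx y hy
      rw [List.mem_singleton] at hy
      subst hy
      have hxs := (h2 x).1 hx
      have h3 := hmax x hxs
      have h4 : f x ≠ f y := fun h => by
        have h5 := hf (by simp [hxs]) (by simp) h
        exact ha (h5 ▸ hxs)
      omega
    · intro x
      rw [List.mem_append, List.mem_singleton, Finset.mem_insert, h2]
      tauto

open Classical in
/-- The main case: all pairs are good. -/
theorem good_case (A : Type u) [Fintype A] [Nonempty A] : ∃ N : ℕ, ∀ m : ℕ, N ≤ m →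
    ∀ (B : Type v) (F : List A → B) (G : (ℕ → A) → B), DCS m F →
    (∀ i j : ℕ, i < j → j < m → ∃ ℓ : List ℕ, (j :: i :: ℓ).Perm (List.range m) ∧
      ∀ a : ℕ → A, a i = a j → G a = F (a i :: a i :: ℓ.map a)) →
    ∃ ℓ : List ℕ, ℓ.Perm (List.range m) ∧ ∀ a : ℕ → A, G a = F (ℓ.map a) := by
  have : Inhabited A := Classical.inhabited_of_nonempty inferInstance
  set k := Fintype.card A with hk
  obtain ⟨N, hN⟩ := gluing k (k + 5) (by omega)
  refine ⟨max N (3 * k + 5), ?_⟩
  intro m hm B F G hF hdata
  have hmN : N ≤ m := le_trans (le_max_left _ _) hm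
  have hmk : 3 * k + 5 ≤ m := le_trans (le_max_right _ _) hm
  -- choose the lists
  have hL : ∀ i j : ℕ, ∃ L : List ℕ, L.Perm (List.range m) ∧ (i < j → j < m →
      ∃ ℓ : List ℕ, L = j :: i :: ℓ ∧
      ∀ a : ℕ → A, a i = a j → G a = F (a i :: a i :: ℓ.map a)) := by
    intro i j
    by_cases h : i < j ∧ j < m
    · obtain ⟨ℓ, h1, h2⟩ := hdata i j h.1 h.2
      exact ⟨_, h1, fun _ _ => ⟨ℓ, rfl, h2⟩⟩
    · exact ⟨List.range m, List.Perm.refl _, fun h1 h2 => absurd ⟨h1, h2⟩ h⟩
  choose L hLperm hLdata using hL
  -- value of `G` in terms of a permuted word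
  have hG : ∀ i j : ℕ, i < j → j < m → ∀ a : ℕ → A, a i = a j →
      ∃ w : List A, G a = F w ∧ w.Perm ((List.range m).map a) ∧
        sl w = ((L i j).filter (fun x => decide (isSingle A m a x))).map a := by
    intro i j hij hj a haij
    obtain ⟨ℓ, hLeq, hval⟩ := hLdata i j hij hj
    refine ⟨a i :: a i :: ℓ.map a, hval a haij, ?_, ?_⟩
    · have := (hLperm i j).map a
      rw [hLeq, List.map_cons, List.map_cons, ← haij] at this
      exact this
    · have h1 : a i :: a i :: ℓ.map a = (L i j).map a := by
        rw [hLeq, List.map_cons, List.map_cons, ← haij]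
      rw [h1]
      exact sl_map m a (L i j) _ (List.Perm.refl _) ((hLperm i j).map a)
  have hR := patF_patRel (m := m) (F := F) (by omega) hF
  have hS : OrdSys (PatF m F) (Finset.range m) (fun i j => rankOf m (L i j)) := by
    refine ⟨fun i j => rankOf_injective (hLperm i j), ?_⟩
    intro i hi j hj i' hi' j' hj' hij hij' u v hu1 hu2 hv2 huv
    rw [Finset.mem_range] at hi hj hi' hj'
    intro a w w' hw hp hwu hwv
    -- a big letter
    obtain ⟨z, hz⟩ := exists_big w 3 (by rw [hw, ← hk]; omega)
    -- the prescribed positions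
    set T : Finset ℕ := {i, j, i', j'} with hT
    have hTcard : T.card ≤ 4 := Finset.card_le_four
    have hund : u.Nodup := by
      have h1 := sl_nodup w
      rw [hwu] at h1
      exact List.Nodup.of_map a h1
    have huT : ∀ x ∈ u, x ∉ T := by
      intro x hx hxT
      have h1 := (hu1 x hx).2
      rw [hT] at hxT
      simp only [Finset.mem_insert, Finset.mem_singleton] at hxT
      tauto
    have hPnd : (u ++ T.toList).Nodup := by
      rw [List.nodup_append]
      refine ⟨hund, T.nodup_toList, ?_⟩
      intro x hx y hy hxy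
      rw [Finset.mem_toList] at hy
      exact huT x hx (hxy ▸ hy)
    set c : ℕ → A := fun x => if x ∈ T then z else a x with hc
    have hmapu : u.map c = u.map a := by
      apply List.map_congr_left
      intro x hx
      simp only [hc, if_neg (huT x hx)]
    have hmapT : T.toList.map c = List.replicate T.card z := by
      rw [List.eq_replicate_iff]
      refine ⟨by simp, ?_⟩
      intro b hb
      rw [List.mem_map] at hb
      obtain ⟨x, hx, rfl⟩ := hb
      rw [Finset.mem_toList] at hx
      simp only [hc, if_pos hx]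
    have hzsl : z ∉ sl w := by
      intro h
      rw [mem_sl] at h
      omega
    have hsub : List.Subperm ((u ++ T.toList).map c) w := by
      rw [List.map_append, hmapu, hmapT, ← hwu]
      rw [List.subperm_ext_iff]
      intro x _
      rw [List.count_append, List.count_replicate]
      have h1 := (sl_sublist w).count_le x
      by_cases hxz : z = x
      · subst hxz
        rw [List.count_eq_zero_of_not_mem hzsl]
        simp
        omega
      · simp [hxz]
        exact h1
    obtain ⟨b, hb1, hb2⟩ := exists_assign m (u ++ T.toList) hPnd (by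
        intro x hx
        rw [List.mem_append, Finset.mem_toList] at hx
        rcases hx with hx | hx
        · exact Finset.mem_range.1 (hu1 x hx).1
        · rw [hT] at hx
          simp only [Finset.mem_insert, Finset.mem_singleton] at hx
          rcases hx with rfl | rfl | rfl | rfl <;> assumption) c w hw hsub
    have hbT : ∀ x ∈ T, b x = z := by
      intro x hx
      rw [hb1 x (List.mem_append_right _ (Finset.mem_toList.2 hx))]
      simp only [hc, if_pos hx]
    have hbu : u.map b = u.map a := by
      rw [← hmapu]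
      apply List.map_congr_left
      intro x hx
      exact hb1 x (List.mem_append_left _ hx)
    have hbv : v.map b = v.map a := by
      apply List.map_congr_left
      intro x hx
      have hxu : x ∈ u := huv.mem_iff.2 hx
      rw [hb1 x (List.mem_append_left _ hxu)]
      simp only [hc, if_neg (huT x hxu)]
    -- the single positions of `b` are exactly the elements of `u`
    have hsing : ∀ x, x < m → (isSingle A m b x ↔ x ∈ u) := by
      intro x hx
      have h1 : isSingle A m b x ↔ b x ∈ sl w := by
        unfold isSingle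
        exact (sl_perm hb2).mem_iff
      constructor
      · intro h
        have h2 := h1.1 h
        rw [hwu, ← hbu, List.mem_map] at h2
        obtain ⟨y, hy, hyx⟩ := h2
        have := single_inj hx (Finset.mem_range.1 (hu1 y hy).1) h hyx.symm
        rwa [this]
      · intro h
        rw [h1, hwu, ← hbu]
        exact List.mem_map_of_mem h
    have hfilt : ∀ (i j : ℕ) (t : List ℕ), (∀ x, x ∈ t ↔ x ∈ u) →
        t.Pairwise (fun a b => rankOf m (L i j) a < rankOf m (L i j) b) →
        (L i j).filter (fun x => decide (isSingle A m b x)) = t := by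
      intro i j t ht1 ht2
      apply sorted_unique ((rankOf_sorted (hLperm i j)).sublist List.filter_sublist) ht2
      intro x
      rw [List.mem_filter, ht1]
      simp only [decide_eq_true_eq]
      constructor
      · rintro ⟨h1, h2⟩
        exact (hsing x (List.mem_range.1 ((hLperm i j).mem_iff.1 h1))).1 h2
      · intro h
        have hxm := Finset.mem_range.1 (hu1 x h).1
        exact ⟨(hLperm i j).mem_iff.2 (List.mem_range.2 hxm), (hsing x hxm).2 h⟩
    have hbij : b i = b j := by rw [hbT i (by simp [hT]), hbT j (by simp [hT])]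
    have hbij' : b i' = b j' := by rw [hbT i' (by simp [hT]), hbT j' (by simp [hT])]
    obtain ⟨w₁, hw₁, hw₁p, hw₁s⟩ := hG i j hij hj b hbij
    obtain ⟨w₂, hw₂, hw₂p, hw₂s⟩ := hG i' j' hij' hj' b hbij'
    rw [hfilt i j u (fun x => Iff.rfl) hu2, hbu] at hw₁s
    rw [hfilt i' j' v (fun x => huv.symm.mem_iff) hv2, hbv] at hw₂s
    have e1 : F w = F w₁ := hF w w₁ hw ((hw₁p.trans hb2).symm) (hwu.trans hw₁s.symm)
    have e2 : F w' = F w₂ := hF w' w₂ (hp.length_eq ▸ hw) (hp.symm.trans (hw₂p.trans hb2).symm)
      (hwv.trans hw₂s.symm)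
    rw [e1, e2, ← hw₁, ← hw₂]
  obtain ⟨W, hWX, hWcard, ρ, hGl⟩ := hN (PatF m F) (Finset.range m)
    (fun i j => rankOf m (L i j)) hR hS (by simpa using hmN)
  obtain ⟨ℓ, hℓs, hℓmem⟩ := exists_sorted_list' (Finset.range m) ρ hGl.inj
  have hℓperm : ℓ.Perm (List.range m) := by
    apply (List.perm_ext_iff_of_nodup (pairwise_nodup hℓs) List.nodup_range).2
    intro x
    rw [hℓmem, Finset.mem_range, List.mem_range]
  refine ⟨ℓ, hℓperm, ?_⟩
  intro a
  -- pigeonhole
  obtain ⟨i₀, hi₀, j₀, hj₀, hne, heq⟩ : ∃ i ∈ W, ∃ j ∈ W, i ≠ j ∧ a i = a j := by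
    apply Finset.exists_ne_map_eq_of_card_lt_of_maps_to (t := Finset.univ)
    · rw [Finset.card_univ, hWcard]
      omega
    · intro x _
      exact Finset.mem_univ _
  obtain ⟨i, hi, j, hj, hij, haij⟩ : ∃ i ∈ W, ∃ j ∈ W, i < j ∧ a i = a j := by
    rcases lt_or_gt_of_ne hne with h | h
    · exact ⟨i₀, hi₀, j₀, hj₀, h, heq⟩
    · exact ⟨j₀, hj₀, i₀, hi₀, h, heq.symm⟩
  have hjm : j < m := Finset.mem_range.1 (hWX hj)
  have him : i < m := Finset.mem_range.1 (hWX hi)
  obtain ⟨w₁, hw₁, hw₁p, hw₁s⟩ := hG i j hij hjm a haij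
  rw [hw₁]
  symm
  set p : ℕ → Bool := fun x => decide (isSingle A m a x) with hp
  have hℓa : (ℓ.map a).Perm ((List.range m).map a) := hℓperm.map a
  have hsl : sl (ℓ.map a) = (ℓ.filter p).map a := sl_map m a ℓ _ (List.Perm.refl _) hℓa
  apply hGl.glue i hi j hj hij (ℓ.filter p) ((L i j).filter p) ?_ ?_ ?_ ?_ a (ℓ.map a) w₁ ?_ ?_
    hsl hw₁s
  · intro x hx
    rw [List.mem_filter] at hx
    simp only [hp, decide_eq_true_eq] at hx
    have hxm : x < m := Finset.mem_range.1 ((hℓmem x).1 hx.1)
    refine ⟨(hℓmem x).1 hx.1, ?_, ?_⟩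
    · rintro rfl
      have := single_inj him hjm hx.2 haij
      omega
    · rintro rfl
      have := single_inj hjm him hx.2 haij.symm
      omega
  · exact hℓs.sublist List.filter_sublist
  · exact (rankOf_sorted (hLperm i j)).sublist List.filter_sublist
  · exact (hℓperm.trans (hLperm i j).symm).filter p
  · rw [List.length_map, hℓperm.length_eq, List.length_range]
  · exact hℓa.trans hw₁p.symm

end Pool.Agent.Helper53
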