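import Mathlib
import Pool.Agent.Helper53.GoodCase

/-!
# The degenerate case

If for some pair the doubled letter is not the letter at the identified positions, then the
function depends only on the set of letters that occur.
-/

namespace Pool.Agent.Helper53

universe u v

lemma filter_of_sublist {p L : List ℕ} (hp : p.Sublist L) (hL : L.Nodup) :
    L.filter (fun x => decide (x ∈ p)) = p := by
  induction hp with
  | slnil => simp
  | cons a h ih =>
    rw [List.nodup_cons] at hL
    rw [List.filter_cons_of_neg]
    · exact ih hL.2
    · simp only [decide_eq_true_eq]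
      exact fun ha => hL.1 (h.subset ha)
  | cons_cons a h ih =>
    rw [List.nodup_cons] at hL
    rw [List.filter_cons_of_pos (by simp)]
    congr 1
    rw [← ih hL.2]
    apply List.filter_congr
    intro x hx
    have hxa : x ≠ a := fun h => hL.1 (h ▸ hx)
    simp [hxa, ih hL.2]

/-- Placing `s` letters along the list `Λ`, using the position `q` and avoiding `T`. -/
lemma exists_placement (Λ : List ℕ) (hnd : Λ.Nodup) (q : ℕ) (hq : q ∈ Λ) (T : Finset ℕ)
    (hqT : q ∉ T) (s : ℕ) (hs : 1 ≤ s) (hsT : s + T.card ≤ Λ.length) :
    ∃ p : List ℕ, p.Sublist Λ ∧ p.length = s ∧ q ∈ p ∧ ∀ x ∈ p, x ∉ T := by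
  set Λ' := Λ.filter (fun x => !decide (x ∈ T)) with hΛ'
  have h1 : (Λ.filter (fun x => decide (x ∈ T))).length ≤ T.card := by
    rw [← List.toFinset_card_of_nodup (hnd.filter _)]
    apply Finset.card_le_card
    intro x hx
    rw [List.mem_toFinset, List.mem_filter] at hx
    simpa using hx.2
  have h2 : (Λ.filter (fun x => decide (x ∈ T)) ++ Λ').Perm Λ := List.filter_append_perm _ Λ
  have h3 := h2.length_eq
  rw [List.length_append] at h3
  have hqΛ' : q ∈ Λ' := by
    rw [hΛ', List.mem_filter]
    exact ⟨hq, by simpa using hqT⟩
  have hΛ'T : ∀ x ∈ Λ', x ∉ T := by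
    intro x hx
    rw [hΛ', List.mem_filter] at hx
    simpa using hx.2
  have hΛ'sub : Λ'.Sublist Λ := List.filter_sublist
  clear_value Λ'
  obtain ⟨α, β, rfl⟩ := List.append_of_mem hqΛ'
  rw [List.length_append, List.length_cons] at h3
  set t := min α.length (s - 1) with ht
  have hsub : (α.take t ++ q :: β.take (s - 1 - t)).Sublist (α ++ q :: β) :=
    (List.take_sublist _ _).append ((List.take_sublist _ _).cons_cons q)
  refine ⟨α.take t ++ q :: β.take (s - 1 - t), hsub.trans hΛ'sub, ?_, by simp, ?_⟩
  · rw [List.length_append, List.length_cons, List.length_take, List.length_take]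
    omega
  · intro x hx
    exact hΛ'T x (hsub.subset hx)

open Classical in
lemma sl_of_placement {A : Type u} (w : List A) (x : A) (hx : w.count x ≠ 1) (L : List ℕ)
    (hL : L.Nodup) (p : List ℕ) (hp : p.Sublist L) (b : ℕ → A)
    (hw : (x :: x :: L.map b).Perm w) (hπ : p.map b = sl w) :
    sl (x :: x :: L.map b) = sl w := by
  rw [sl_eq_filter hw.symm, List.filter_cons_of_neg (by simpa using hx),
    List.filter_cons_of_neg (by simpa using hx), List.filter_map, ← hπ]
  congr 1
  rw [← filter_of_sublist hp hL]
  apply List.filter_congr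
  intro y hy
  simp only [Function.comp_apply]
  congr 1
  apply propext
  constructor
  · intro h
    have h1 : b y ∈ sl w := mem_sl.2 h
    rw [← hπ, List.mem_map] at h1
    obtain ⟨z, hz, hzy⟩ := h1
    by_cases hne : y = z
    · rwa [hne]
    exfalso
    have h2 : List.Subperm [y, z] L := by
      apply List.subperm_of_subset
      · simp [hne]
      · intro t ht
        simp only [List.mem_cons, List.not_mem_nil, or_false] at ht
        rcases ht with rfl | rfl
        · exact hy
        · exact hp.subset hz
    have h3 : List.Subperm ([y, z].map b) (L.map b) := by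
      obtain ⟨l, h1, h2⟩ := h2
      exact ⟨l.map b, h1.map b, h2.map b⟩
    have h4 := h3.count_le (b y)
    have h5 : (L.map b).count (b y) ≤ w.count (b y) := by
      rw [← hw.count_eq]
      rw [List.count_cons, List.count_cons]
      omega
    rw [h] at h5
    simp [hzy] at h4
    omega
  · intro h
    have : b y ∈ sl w := by
      rw [← hπ]
      exact List.mem_map_of_mem h
    exact mem_sl.1 this

open Classical in
lemma count_move {A : Type u} {x y : A} {w w' : List A} (h : (x :: w').Perm (y :: w)) (a : A) :
    w'.count a + (if x = a then 1 else 0) = w.count a + (if y = a then 1 else 0) := by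
  have := h.count_eq a
  rw [List.count_cons, List.count_cons] at this
  simpa using this

open Classical in
/-- The basic relation. -/
lemma star {A : Type u} {B : Type v} [Inhabited A] [Fintype A] {m : ℕ} {F : List A → B}
    {G : (ℕ → A) → B} (hF : DCS m F) (hm : Fintype.card A + 10 ≤ m)
    {i j l : ℕ} {ℓ : List ℕ} (hi : i < m) (hij : i ≠ j)
    (h1 : (j :: l :: ℓ).Perm (List.range m)) (hli : l ≠ i)
    (hG1 : ∀ a : ℕ → A, a i = a j → G a = F (a l :: a l :: ℓ.map a))
    {i' j' l' : ℕ} {ℓ' : List ℕ} (hi'm : i' < m)
    (hi' : i' ≠ i ∧ i' ≠ j ∧ i' ≠ l) (hj' : j' ≠ i ∧ j' ≠ j ∧ j' ≠ l)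
    (h2 : (j' :: l' :: ℓ').Perm (List.range m))
    (hG2 : ∀ a : ℕ → A, a i' = a j' → G a = F (a l' :: a l' :: ℓ'.map a))
    (w : List A) (hw : w.length = m) (x : A) (hx : 5 ≤ w.count x) (π : List A) (hπ0 : π ≠ [])
    (hπnd : π.Nodup) (hxπ : x ∉ π) (hπw : ∀ y ∈ π, y ∈ w)
    (hsl : sl w = π ∨ sl w = []) :
    ∃ y ∈ π, ∃ w' : List A, (x :: w').Perm (y :: w) ∧ F w = F w' := by
  have hlen1 : ℓ.length + 2 = m := by
    have := h1.length_eq
    simp only [List.length_cons, List.length_range] at this
    omega
  have hlen2 : ℓ'.length + 2 = m := by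
    have := h2.length_eq
    simp only [List.length_cons, List.length_range] at this
    omega
  have hnd1 : (j :: l :: ℓ).Nodup := h1.nodup_iff.2 List.nodup_range
  have hnd2 : (j' :: l' :: ℓ').Nodup := h2.nodup_iff.2 List.nodup_range
  have hmem1 : ∀ t, t ∈ (j :: l :: ℓ) ↔ t < m := fun t => by rw [h1.mem_iff, List.mem_range]
  have hmem2 : ∀ t, t ∈ (j' :: l' :: ℓ') ↔ t < m := fun t => by rw [h2.mem_iff, List.mem_range]
  simp only [List.nodup_cons, List.mem_cons, not_or] at hnd1 hnd2
  obtain ⟨⟨hjl, hjℓ⟩, hlℓ, hℓnd⟩ := hnd1
  obtain ⟨⟨hjl', hjℓ'⟩, hlℓ', hℓnd'⟩ := hnd2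
  have hπlen : π.length ≤ Fintype.card A := by
    rw [← List.toFinset_card_of_nodup hπnd]
    exact Finset.card_le_univ _
  have hπpos : 1 ≤ π.length := by
    rw [Nat.one_le_iff_ne_zero, Ne, List.length_eq_zero_iff]
    exact hπ0
  have hxsl : w.count x ≠ 1 := by omega
  have hlm : l < m := (hmem1 l).1 (by simp)
  have hjm : j < m := (hmem1 j).1 (by simp)
  have hl'm : l' < m := (hmem2 l').1 (by simp)
  have hj'm : j' < m := (hmem2 j').1 (by simp)
  by_cases hll : l' = l
  · -- the second case
    subst hll
    have hiℓ : i ∈ ℓ := by
      have := (hmem1 i).2 hi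
      simp only [List.mem_cons] at this
      rcases this with h | h | h
      · exact absurd h hij
      · exact absurd h.symm hli
      · exact h
    set T : Finset ℕ := {l', i', j'} with hT
    have hTcard : T.card ≤ 3 := Finset.card_le_three
    have hiT : i ∉ T := by
      rw [hT]
      simp only [Finset.mem_insert, Finset.mem_singleton, not_or]
      exact ⟨hli.symm, hi'.1.symm, hj'.1.symm⟩
    have hjT : j ∉ T := by
      rw [hT]
      simp only [Finset.mem_insert, Finset.mem_singleton, not_or]
      exact ⟨hjl, hi'.2.1.symm, hj'.2.1.symm⟩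
    obtain ⟨p, hpsub, hplen, hip, hpT⟩ := exists_placement ℓ hℓnd i hiℓ T hiT π.length hπpos
      (by omega)
    have hpnd : p.Nodup := hpsub.nodup hℓnd
    have hjp : j ∉ p := fun h => hjℓ (hpsub.subset h)
    obtain ⟨e, he⟩ := exists_map_eq_of_nodup p π hpnd hplen
    set y := e i with hy
    have hyπ : y ∈ π := by rw [← he]; exact List.mem_map_of_mem hip
    have hyx : y ≠ x := fun h => hxπ (h ▸ hyπ)
    set c : ℕ → A := fun t => if t = j then y else if t ∈ T then x else e t with hc
    have hcp : p.map c = π := by
      rw [← he]
      apply List.map_congr_left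
      intro t ht
      have h3 : t ≠ j := fun h => hjp (h ▸ ht)
      simp only [hc, if_neg h3, if_neg (hpT t ht)]
    have hcT : T.toList.map c = List.replicate T.card x := by
      rw [List.eq_replicate_iff]
      refine ⟨by simp, ?_⟩
      intro a ha
      rw [List.mem_map] at ha
      obtain ⟨t, ht, rfl⟩ := ha
      rw [Finset.mem_toList] at ht
      have h3 : t ≠ j := fun h => hjT (h ▸ ht)
      simp only [hc, if_neg h3, if_pos ht]
    set wt : List A := y :: w.erase x with hwt
    have hxw : x ∈ w := List.count_pos_iff.1 (by omega)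
    have hwtp : (x :: wt).Perm (y :: w) := by
      rw [hwt]
      exact (List.Perm.swap y x _).trans ((List.perm_cons_erase hxw).symm.cons y)
    have hwtlen : wt.length = m := by
      have := hwtp.length_eq
      simp only [List.length_cons] at this
      omega
    have hPnd : (j :: (p ++ T.toList)).Nodup := by
      rw [List.nodup_cons, List.mem_append, Finset.mem_toList, List.nodup_append]
      refine ⟨by tauto, hpnd, T.nodup_toList, ?_⟩
      intro t ht s hs hts
      rw [Finset.mem_toList] at hs
      exact hpT t ht (hts ▸ hs)
    have hPm : ∀ t ∈ j :: (p ++ T.toList), t < m := by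
      intro t ht
      rw [List.mem_cons, List.mem_append, Finset.mem_toList, hT] at ht
      simp only [Finset.mem_insert, Finset.mem_singleton] at ht
      rcases ht with rfl | ht | rfl | rfl | rfl
      · exact hjm
      · exact (hmem1 t).1 (by simp [hpsub.subset ht])
      · exact hlm
      · exact hi'm
      · exact hj'm
    have hsub : List.Subperm ((j :: (p ++ T.toList)).map c) wt := by
      rw [List.map_cons, List.map_append, hcp, hcT, List.subperm_ext_iff]
      intro a _
      have h3 := count_move hwtp a
      have h4 : π.count a ≤ 1 := List.nodup_iff_count_le_one.1 hπnd a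
      rw [List.count_cons, List.count_append, List.count_replicate]
      have hcj : c j = y := by simp [hc]
      rw [hcj]
      by_cases hax : x = a
      · subst hax
        rw [List.count_eq_zero_of_not_mem hxπ]
        simp [hyx] at h3 ⊢
        omega
      · by_cases hay : y = a
        · subst hay
          have h5 : 0 < w.count y := List.count_pos_iff.2 (hπw y hyπ)
          simp [hax] at h3 ⊢
          omega
        · by_cases haπ : a ∈ π
          · have h5 : 0 < w.count a := List.count_pos_iff.2 (hπw a haπ)
            simp [hax, hay] at h3 ⊢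
            omega
          · rw [List.count_eq_zero_of_not_mem haπ]
            simp [hax, hay]
    obtain ⟨b, hb1, hb2⟩ := exists_assign m (j :: (p ++ T.toList)) hPnd hPm c wt hwtlen hsub
    have hbj : b j = y := by
      rw [hb1 j (by simp)]
      simp [hc]
    have hbT : ∀ t ∈ T, b t = x := by
      intro t ht
      rw [hb1 t (by simp [ht])]
      have h3 : t ≠ j := fun h => hjT (h ▸ ht)
      simp only [hc, if_neg h3, if_pos ht]
    have hbp : ∀ t ∈ p, b t = e t := by
      intro t ht
      rw [hb1 t (by simp [ht])]
      have h3 : t ≠ j := fun h => hjp (h ▸ ht)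
      simp only [hc, if_neg h3, if_neg (hpT t ht)]
    have hbi : b i = y := hbp i hip
    have hbl : b l' = x := hbT l' (by simp [hT])
    have hbi' : b i' = x := hbT i' (by simp [hT])
    have hbj' : b j' = x := hbT j' (by simp [hT])
    have e1 : G b = F (x :: x :: ℓ.map b) := by
      have := hG1 b (by rw [hbi, hbj])
      rwa [hbl] at this
    have e2 : G b = F (x :: x :: ℓ'.map b) := by
      have := hG2 b (by rw [hbi', hbj'])
      rwa [hbl] at this
    have p1 : (x :: x :: ℓ.map b).Perm w := by
      have h3 : (y :: x :: ℓ.map b).Perm wt := by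
        have := (h1.map b).trans hb2
        rw [List.map_cons, List.map_cons, hbj, hbl] at this
        exact this
      have h4 : (x :: y :: x :: ℓ.map b).Perm (y :: w) := (h3.cons x).trans hwtp
      have h5 : (y :: x :: x :: ℓ.map b).Perm (y :: w) := (List.Perm.swap x y _).trans h4
      exact (List.perm_cons y).1 h5
    have p2 : (x :: x :: ℓ'.map b).Perm wt := by
      have := (h2.map b).trans hb2
      rw [List.map_cons, List.map_cons, hbj', hbl] at this
      exact this
    refine ⟨y, hyπ, x :: x :: ℓ'.map b, (p2.cons x).trans hwtp, ?_⟩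
    rw [← e2, e1]
    apply hF w _ hw p1.symm
    rcases hsl with hsl | hsl
    · rw [sl_of_placement w x hxsl ℓ hℓnd p hpsub b p1]
      rw [hsl, ← he]
      apply List.map_congr_left
      exact hbp
    · have h3 := sl_perm p1
      rw [hsl] at h3
      rw [hsl, List.Perm.eq_nil h3]
  · -- the first case
    have hlℓ'' : l ∈ ℓ' := by
      have := (hmem2 l).2 hlm
      simp only [List.mem_cons] at this
      rcases this with h | h | h
      · exact absurd h.symm hj'.2.2
      · exact absurd h.symm hll
      · exact h
    set T : Finset ℕ := {i, j, i', j', l'} with hT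
    have hTcard : T.card ≤ 5 := Finset.card_le_five
    have hlT : l ∉ T := by
      rw [hT]
      simp only [Finset.mem_insert, Finset.mem_singleton, not_or]
      exact ⟨hli, fun h => hjl h.symm, hi'.2.2.symm, hj'.2.2.symm, fun h => hll h.symm⟩
    obtain ⟨p, hpsub, hplen, hlp, hpT⟩ := exists_placement ℓ' hℓnd' l hlℓ'' T hlT π.length hπpos
      (by omega)
    have hpnd : p.Nodup := hpsub.nodup hℓnd'
    obtain ⟨e, he⟩ := exists_map_eq_of_nodup p π hpnd hplen
    set y := e l with hy
    have hyπ : y ∈ π := by rw [← he]; exact List.mem_map_of_mem hlp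
    set c : ℕ → A := fun t => if t ∈ T then x else e t with hc
    have hcp : p.map c = π := by
      rw [← he]
      apply List.map_congr_left
      intro t ht
      simp only [hc, if_neg (hpT t ht)]
    have hcT : T.toList.map c = List.replicate T.card x := by
      rw [List.eq_replicate_iff]
      refine ⟨by simp, ?_⟩
      intro a ha
      rw [List.mem_map] at ha
      obtain ⟨t, ht, rfl⟩ := ha
      rw [Finset.mem_toList] at ht
      simp only [hc, if_pos ht]
    have hPnd : (p ++ T.toList).Nodup := by
      rw [List.nodup_append]
      refine ⟨hpnd, T.nodup_toList, ?_⟩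
      intro t ht s hs hts
      rw [Finset.mem_toList] at hs
      exact hpT t ht (hts ▸ hs)
    have hPm : ∀ t ∈ p ++ T.toList, t < m := by
      intro t ht
      rw [List.mem_append, Finset.mem_toList, hT] at ht
      simp only [Finset.mem_insert, Finset.mem_singleton] at ht
      rcases ht with ht | rfl | rfl | rfl | rfl | rfl
      · exact (hmem2 t).1 (by simp [hpsub.subset ht])
      · exact hi
      · exact hjm
      · exact hi'm
      · exact hj'm
      · exact hl'm
    have hsub : List.Subperm ((p ++ T.toList).map c) w := by
      rw [List.map_append, hcp, hcT, List.subperm_ext_iff]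
      intro a _
      have h4 : π.count a ≤ 1 := List.nodup_iff_count_le_one.1 hπnd a
      rw [List.count_append, List.count_replicate]
      by_cases hax : x = a
      · subst hax
        rw [List.count_eq_zero_of_not_mem hxπ]
        simp
        omega
      · by_cases haπ : a ∈ π
        · have h5 : 0 < w.count a := List.count_pos_iff.2 (hπw a haπ)
          simp [hax]
          omega
        · rw [List.count_eq_zero_of_not_mem haπ]
          simp [hax]
    obtain ⟨b, hb1, hb2⟩ := exists_assign m (p ++ T.toList) hPnd hPm c w hw hsub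
    have hbT : ∀ t ∈ T, b t = x := by
      intro t ht
      rw [hb1 t (by simp [ht])]
      simp only [hc, if_pos ht]
    have hbp : ∀ t ∈ p, b t = e t := by
      intro t ht
      rw [hb1 t (by simp [ht])]
      simp only [hc, if_neg (hpT t ht)]
    have hbi : b i = x := hbT i (by simp [hT])
    have hbj : b j = x := hbT j (by simp [hT])
    have hbl : b l = y := hbp l hlp
    have hbi' : b i' = x := hbT i' (by simp [hT])
    have hbj' : b j' = x := hbT j' (by simp [hT])
    have hbl' : b l' = x := hbT l' (by simp [hT])
    have e1 : G b = F (y :: y :: ℓ.map b) := by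
      have := hG1 b (by rw [hbi, hbj])
      rwa [hbl] at this
    have e2 : G b = F (x :: x :: ℓ'.map b) := by
      have := hG2 b (by rw [hbi', hbj'])
      rwa [hbl'] at this
    have p1 : (x :: y :: ℓ.map b).Perm w := by
      have := (h1.map b).trans hb2
      rw [List.map_cons, List.map_cons, hbj, hbl] at this
      exact this
    have p2 : (x :: x :: ℓ'.map b).Perm w := by
      have := (h2.map b).trans hb2
      rw [List.map_cons, List.map_cons, hbj', hbl'] at this
      exact this
    refine ⟨y, hyπ, y :: y :: ℓ.map b, ?_, ?_⟩
    · exact (List.Perm.swap y x _).trans (p1.cons y)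
    · rw [← e1, e2]
      apply hF w _ hw p2.symm
      rcases hsl with hsl | hsl
      · rw [sl_of_placement w x hxsl ℓ' hℓnd' p hpsub b p2]
        rw [hsl, ← he]
        apply List.map_congr_left
        exact hbp
      · have h3 := sl_perm p2
        rw [hsl] at h3
        rw [hsl, List.Perm.eq_nil h3]

end Pool.Agent.Helper53
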