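import Mathlib
import Pool.Agent.Helper24.Seg.Basic

/-!
# Algebra of barycentric coordinates for P3a (MP_e9c934_an)
-/

open Set Filter Topology Module

namespace Seg

lemma N_comb (b : Fin 4 → E3) (j : Fin 4) (c : Fin 4 → ℝ) (v : Fin 4 → E3)
    (hc : ∑ k, c k = 1) : N b j (∑ k, c k • v k) = ∑ k, c k * N b j (v k) := by
  have key : ∀ x : E3, N b j x = N b j 0 + (NA b j).linear x := by
    intro x
    have := (NA b j).map_vadd 0 x
    simp only [vadd_eq_add, add_zero, NA_apply] at this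
    rw [this]; ring
  rw [key, map_sum]
  simp_rw [key (v _), mul_add]
  rw [Finset.sum_add_distrib, ← Finset.sum_mul, hc, one_mul]
  simp [map_smul]

lemma sum_c (a : Fin 4 → E3) (h : V4 a ≠ 0) (x : E3) : ∑ k, N a k x / V4 a = 1 := by
  rw [← Finset.sum_div, N_sum, div_self h]

lemma amap_eq (a b : Fin 4 → E3) (x : E3) :
    amap a b x = ∑ k, (N a k x / V4 a) • b k := by
  unfold amap
  rw [Finset.smul_sum]
  refine Finset.sum_congr rfl fun k _ => ?_
  rw [smul_smul]; congr 1; ring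

lemma amap_self (a : Fin 4 → E3) (h : V4 a ≠ 0) (x : E3) : amap a a x = x := by
  unfold amap
  rw [N_sum_smul, smul_smul, inv_mul_cancel₀ h, one_smul]

lemma N_amap (a b : Fin 4 → E3) (h : V4 a ≠ 0) (j : Fin 4) (x : E3) :
    N b j (amap a b x) = N a j x / V4 a * V4 b := by
  rw [amap_eq, N_comb b j _ _ (sum_c a h x)]
  rw [Finset.sum_eq_single j]
  · rw [N_self]
  · intro k _ hk
    rw [N_other b (Ne.symm hk), mul_zero]
  · simp

lemma amap_amap (a b : Fin 4 → E3) (ha : V4 a ≠ 0) (hb : V4 b ≠ 0) (x : E3) :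
    amap b a (amap a b x) = x := by
  rw [amap_eq b a]
  simp_rw [N_amap a b ha]
  have : ∀ k, N a k x / V4 a * V4 b / V4 b = N a k x / V4 a := fun k => by
    field_simp
  simp_rw [this]
  rw [← amap_eq a a, amap_self a ha]

/-- barycentric coordinates agree on a common facet -/
lemma facet_coord (a a' : Fin 4 → E3) (ha : V4 a ≠ 0) (j : Fin 4) (π : Fin 4 → Fin 4)
    (hπ : ∀ k, k ≠ j → a' (π k) = a k) (hinj : ∀ k k', k ≠ j → k' ≠ j → π k = π k' → k = k')
    (x : E3) (hx : N a j x = 0) (k : Fin 4) (hk : k ≠ j) (hV : V4 a' ≠ 0) :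
    N a' (π k) x / V4 a' = N a k x / V4 a := by
  have hxe : x = ∑ m, (N a m x / V4 a) • a m := by
    rw [← amap_eq, amap_self a ha]
  have h2 := N_comb a' (π k) (fun m => N a m x / V4 a) a (sum_c a ha x)
  rw [← hxe] at h2
  have h3 : ∑ m, N a m x / V4 a * N a' (π k) (a m) = N a k x / V4 a * V4 a' := by
    rw [Finset.sum_eq_single k]
    · rw [← hπ k hk, N_self]
    · intro m _ hm
      by_cases hmj : m = j
      · subst hmj; rw [hx]; simp
      · rw [← hπ m hmj, N_other a' (fun h => hm (hinj m k hmj hk h.symm)), mul_zero]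
    · simp
  rw [h2, h3]
  field_simp

/-- the image maps agree on a common facet -/
lemma facet_amap (a a' b b' : Fin 4 → E3) (ha : V4 a ≠ 0) (ha' : V4 a' ≠ 0) (j j' : Fin 4)
    (π : Fin 4 → Fin 4)
    (hπ : ∀ k, k ≠ j → a' (π k) = a k) (hπb : ∀ k, k ≠ j → b' (π k) = b k)
    (hinj : ∀ k k', k ≠ j → k' ≠ j → π k = π k' → k = k')
    (hne : ∀ k, k ≠ j → π k ≠ j')
    (hsurj : ∀ m, m ≠ j' → ∃ k, k ≠ j ∧ π k = m)
    (x : E3) (hx : N a j x = 0) (hx' : N a' j' x = 0) :
    amap a b x = amap a' b' x := by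
  rw [amap_eq, amap_eq]
  rw [← Finset.sum_erase_add _ _ (Finset.mem_univ j), ← Finset.sum_erase_add _ _ (Finset.mem_univ j')]
  rw [hx, hx']
  simp only [zero_div, zero_smul, add_zero]
  refine Finset.sum_bij (fun k _ => π k) ?_ ?_ ?_ ?_
  · intro k hk
    simp only [Finset.mem_erase, Finset.mem_univ, and_true] at hk ⊢
    exact hne k hk
  · intro k hk k' hk' h
    simp only [Finset.mem_erase, Finset.mem_univ, and_true] at hk hk'
    exact hinj k k' hk hk' h
  · intro m hm
    simp only [Finset.mem_erase, Finset.mem_univ, and_true] at hm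
    obtain ⟨k, hk, hk'⟩ := hsurj m hm
    exact ⟨k, by simp [hk], hk'⟩
  · intro k hk
    simp only [Finset.mem_erase, Finset.mem_univ, and_true] at hk
    rw [facet_coord a a' ha j π hπ hinj x hx k hk ha', hπb k hk]

end Seg
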