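import Mathlib
import Pool.Agent.Helper53.BadCase

/-!
# The degenerate case: functions determined by the support
-/

namespace Pool.Agent.Helper53

universe u v

open Classical in
/-- Abstract consequence of the basic relation. -/
structure Star {A : Type u} {B : Type v} (m : ℕ) (F : List A → B) : Prop where
  dcs : DCS m F
  star : ∀ w : List A, w.length = m → ∀ x : A, 5 ≤ w.count x → ∀ π : List A, π ≠ [] →
    π.Nodup → x ∉ π → (∀ y ∈ π, y ∈ w) → (sl w = π ∨ sl w = []) →
    ∃ y ∈ π, ∃ w' : List A, (x :: w').Perm (y :: w) ∧ F w = F w'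

section

variable {A : Type u} {B : Type v} {m : ℕ} {F : List A → B}

open Classical in
lemma sl_eq_nil_iff {w : List A} : sl w = [] ↔ ∀ a, w.count a ≠ 1 := by
  rw [List.eq_nil_iff_forall_not_mem]
  simp only [mem_sl]

open Classical in
lemma move_big (hS : Star m F) {w w' : List A} (hw : w.length = m) (hsl : sl w = []) {x y : A}
    (hx : 5 ≤ w.count x) (hyw : y ∈ w) (hxy : x ≠ y) (h : (x :: w').Perm (y :: w)) :
    F w = F w' := by
  obtain ⟨y', hy', w'', hw'', hF⟩ := hS.star w hw x hx [y] (by simp) (by simp) (by simpa using hxy)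
    (by simpa using hyw) (Or.inr hsl)
  rw [List.mem_singleton] at hy'
  subst hy'
  rw [hF]
  have hp : w''.Perm w' := (List.perm_cons x).1 (hw''.trans h.symm)
  apply hS.dcs w'' w' _ hp
  · have h1 : sl w' = [] := by
      rw [sl_eq_nil_iff] at hsl ⊢
      intro a
      have h2 := count_move h a
      have h3 := hsl a
      have h4 : 0 < w.count y' := List.count_pos_iff.2 hyw
      by_cases hxa : x = a
      · subst hxa
        simp [hxy.symm] at h2
        omega
      · by_cases hya : y' = a
        · subst hya
          simp [hxa] at h2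
          omega
        · simp [hxa, hya] at h2
          omega
    have h2 := sl_perm hp
    rw [h1] at h2 ⊢
    exact List.Perm.eq_nil h2
  · have := hw''.length_eq
    simp only [List.length_cons] at this
    omega

open Classical in
/-- No single letters after a move. -/
lemma sl_move {w w' : List A} (hsl : sl w = []) {x y : A} (hx : 3 ≤ w.count x) (hyw : y ∈ w)
    (hxy : x ≠ y) (h : (x :: w').Perm (y :: w)) : sl w' = [] := by
  rw [sl_eq_nil_iff] at hsl ⊢
  intro a
  have h2 := count_move h a
  have h3 := hsl a
  have h4 : 0 < w.count y := List.count_pos_iff.2 hyw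
  by_cases hxa : x = a
  · subst hxa
    simp [hxy.symm] at h2
    omega
  · by_cases hya : y = a
    · subst hya
      simp [hxa] at h2
      omega
    · simp [hxa, hya] at h2
      omega

open Classical in
lemma move_small [Fintype A] [Nonempty A] (hS : Star m F) (hm : Fintype.card A * 4 < m)
    {w w' : List A} (hw : w.length = m)
    (hsl : sl w = []) {x y : A} (hx : 3 ≤ w.count x) (hyw : y ∈ w) (hxy : x ≠ y)
    (h : (x :: w').Perm (y :: w)) : F w = F w' := by
  have hyc : 2 ≤ w.count y := by
    have h1 : 0 < w.count y := List.count_pos_iff.2 hyw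
    have h2 := sl_eq_nil_iff.1 hsl y
    omega
  by_cases hx5 : 5 ≤ w.count x
  · exact move_big hS hw hsl hx5 hyw hxy h
  have hw'len : w'.length = m := by
    have := h.length_eq
    simp only [List.length_cons] at this
    omega
  have hsl' := sl_move hsl hx hyw hxy h
  have hcx := count_move h x
  have hcy := count_move h y
  simp [hxy.symm] at hcx
  simp [hxy] at hcy
  have hxw' : x ∈ w' := List.count_pos_iff.1 (by omega)
  by_cases hy4 : 4 ≤ w.count y
  · exact (move_big hS hw'len hsl' (x := y) (y := x) (by omega) hxw' hxy.symm h.symm).symm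
  -- use a third letter
  obtain ⟨z, hz⟩ := exists_big w 4 (by rw [hw]; exact hm)
  have hz' : 4 < w.count z := by convert hz
  have hzx : z ≠ x := by rintro rfl; omega
  have hzy : z ≠ y := by rintro rfl; omega
  have hzw : z ∈ w := List.count_pos_iff.1 (by omega)
  -- first move from `z` to `y`
  set w₁ : List A := y :: w.erase z with hw₁
  have h1 : (z :: w₁).Perm (y :: w) := by
    rw [hw₁]
    exact (List.Perm.swap y z _).trans ((List.perm_cons_erase hzw).symm.cons y)
  have hw₁len : w₁.length = m := by
    have := h1.length_eq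
    simp only [List.length_cons] at this
    omega
  have e1 : F w = F w₁ := move_big hS hw hsl (by omega) hyw hzy h1
  have hsl₁ := sl_move hsl (by omega : 3 ≤ w.count z) hyw hzy h1
  -- then from `x` to `z`; the reverse move is from `z` to `x`
  have h2 : (x :: w').Perm (z :: w₁) := h.trans h1.symm
  have hcz := count_move h2 z
  have hcz1 := count_move h1 z
  simp [hzx.symm] at hcz
  simp [hzy.symm] at hcz1
  have e2 : F w' = F w₁ :=
    move_big hS hw'len hsl' (x := z) (y := x) (by omega) hxw' hzx h2.symm
  rw [e1, e2]

open Classical in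
/-- Words without single letters and with the same support have the same value. -/
lemma same_support [Fintype A] [Nonempty A] (hS : Star m F) (hm : Fintype.card A * 4 < m) :
    ∀ (d : ℕ) (w w' : List A), w.length = m → w'.length = m → sl w = [] → sl w' = [] →
      (∀ a, a ∈ w ↔ a ∈ w') → (∑ a : A, (w.count a - w'.count a)) = d → F w = F w' := by
  have hsum : ∀ w : List A, w.length = ∑ x : A, w.count x := by
    intro w
    have h2 := Multiset.sum_count_eq_card (s := (Finset.univ : Finset A)) (m := (w : Multiset A))
      (fun a _ => Finset.mem_univ a)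
    rw [Multiset.coe_card] at h2
    rw [← h2]
    apply Finset.sum_congr rfl
    intro x _
    rw [Multiset.coe_count]
  intro d
  induction d with
  | zero =>
    intro w w' hw hw' hsl hsl' hsupp hd
    have hle : ∀ a ∈ (Finset.univ : Finset A), w.count a ≤ w'.count a := by
      intro a ha
      have := (Finset.sum_eq_zero_iff.1 hd) a ha
      omega
    have heq : ∑ a : A, w.count a = ∑ a : A, w'.count a := by
      rw [← hsum, ← hsum, hw, hw']
    have hall := (Finset.sum_eq_sum_iff_of_le hle).1 heq
    have hp : w.Perm w' := by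
      rw [List.perm_iff_count]
      intro a
      exact hall a (Finset.mem_univ a)
    exact hS.dcs w w' hw hp (by rw [hsl, hsl'])
  | succ d ih =>
    intro w w' hw hw' hsl hsl' hsupp hd
    -- a letter with too many occurrences
    obtain ⟨x, hx⟩ : ∃ x : A, w'.count x < w.count x := by
      by_contra hcon
      push Not at hcon
      have : ∑ a : A, (w.count a - w'.count a) = 0 := by
        apply Finset.sum_eq_zero
        intro a _
        have := hcon a
        omega
      omega
    -- a letter with too few occurrences
    obtain ⟨y, hy⟩ : ∃ y : A, w.count y < w'.count y := by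
      by_contra hcon
      push Not at hcon
      have h1 : ∑ a : A, w'.count a < ∑ a : A, w.count a :=
        Finset.sum_lt_sum (fun a _ => hcon a) ⟨x, Finset.mem_univ x, hx⟩
      rw [← hsum, ← hsum, hw, hw'] at h1
      exact lt_irrefl _ h1
    have hxy : x ≠ y := by rintro rfl; omega
    have hxw : x ∈ w := List.count_pos_iff.1 (by omega)
    have hxw' : x ∈ w' := (hsupp x).1 hxw
    have hyw' : y ∈ w' := List.count_pos_iff.1 (by omega)
    have hyw : y ∈ w := (hsupp y).2 hyw'
    have hx2 : 2 ≤ w'.count x := by
      have h1 : 0 < w'.count x := List.count_pos_iff.2 hxw'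
      have h2 := sl_eq_nil_iff.1 hsl' x
      omega
    set w₁ : List A := y :: w.erase x with hw₁
    have h1 : (x :: w₁).Perm (y :: w) := by
      rw [hw₁]
      exact (List.Perm.swap y x _).trans ((List.perm_cons_erase hxw).symm.cons y)
    have hw₁len : w₁.length = m := by
      have := h1.length_eq
      simp only [List.length_cons] at this
      omega
    have e1 : F w = F w₁ := move_small hS hm hw hsl (by omega) hyw hxy h1
    have hsl₁ := sl_move hsl (by omega : 3 ≤ w.count x) hyw hxy h1
    rw [e1]
    apply ih w₁ w' hw₁len hw' hsl₁ hsl'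
    · intro a
      rw [← hsupp a]
      have h2 := count_move h1 a
      have h3 : 0 < w.count y := List.count_pos_iff.2 hyw
      rw [← List.count_pos_iff, ← List.count_pos_iff]
      by_cases hxa : x = a
      · subst hxa
        simp [hxy.symm] at h2
        omega
      · by_cases hya : y = a
        · subst hya
          simp [hxa] at h2
          omega
        · simp [hxa, hya] at h2
          omega
    · -- the distance decreases
      have h2 : ∀ a : A, (w.count a - w'.count a) =
          (w₁.count a - w'.count a) + (if x = a then 1 else 0) := by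
        intro a
        have h2 := count_move h1 a
        by_cases hxa : x = a
        · subst hxa
          simp [hxy.symm] at h2 ⊢
          omega
        · by_cases hya : y = a
          · subst hya
            simp [hxa] at h2 ⊢
            omega
          · simp [hxa, hya] at h2 ⊢
            omega
      have h3 : ∑ a : A, (w.count a - w'.count a) =
          ∑ a : A, (w₁.count a - w'.count a) + 1 := by
        rw [Finset.sum_congr rfl (fun a _ => h2 a), Finset.sum_add_distrib]
        simp
      omega

open Classical in
/-- Every word can be replaced by a word without single letters, with the same support and the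
same value. -/
lemma remove_singles [Fintype A] [Nonempty A] (hS : Star m F) (hm : Fintype.card A * 4 < m) :
    ∀ (d : ℕ) (w : List A), w.length = m → (sl w).length ≤ d →
      ∃ w' : List A, w'.length = m ∧ sl w' = [] ∧ (∀ a, a ∈ w' ↔ a ∈ w) ∧ F w = F w' := by
  intro d
  induction d with
  | zero =>
    intro w hw hsl
    refine ⟨w, hw, ?_, fun _ => Iff.rfl, rfl⟩
    rw [← List.length_eq_zero_iff]
    omega
  | succ d ih =>
    intro w hw hsl
    by_cases h0 : sl w = []
    · exact ⟨w, hw, h0, fun _ => Iff.rfl, rfl⟩
    obtain ⟨x, hx⟩ := exists_big w 4 (by rw [hw]; exact hm)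
    have hx' : 5 ≤ w.count x := by
      have : 4 < w.count x := by convert hx
      omega
    have hxsl : x ∉ sl w := by
      rw [mem_sl]
      omega
    obtain ⟨y, hy, w₁, h1, e1⟩ := hS.star w hw x hx' (sl w) h0 (sl_nodup w) hxsl
      (fun y hy => sl_subset hy) (Or.inl rfl)
    have hyc : w.count y = 1 := mem_sl.1 hy
    have hxy : x ≠ y := by rintro rfl; exact hxsl hy
    have hw₁len : w₁.length = m := by
      have := h1.length_eq
      simp only [List.length_cons] at this
      omega
    have hlen : (sl w₁).length ≤ d := by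
      have h2 : List.Subperm (sl w₁) ((sl w).erase y) := by
        apply List.subperm_of_subset (sl_nodup w₁)
        intro a ha
        have h3 : w₁.count a = 1 := mem_sl.1 ha
        have h4 := count_move h1 a
        have hay : a ≠ y := by
          rintro rfl
          simp [hxy] at h4
          omega
        have hax : a ≠ x := by
          rintro rfl
          simp [hxy.symm] at h4
          omega
        rw [(sl_nodup w).mem_erase_iff]
        refine ⟨hay, ?_⟩
        rw [mem_sl]
        simp [hax.symm, hay.symm] at h4
        omega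
      have h3 := h2.length_le
      rw [List.length_erase_of_mem hy] at h3
      omega
    obtain ⟨w', hw', hsl', hsupp, e2⟩ := ih w₁ hw₁len hlen
    refine ⟨w', hw', hsl', ?_, e1.trans e2⟩
    intro a
    rw [hsupp a]
    have h2 := count_move h1 a
    rw [← List.count_pos_iff, ← List.count_pos_iff]
    by_cases hxa : x = a
    · subst hxa
      simp [hxy.symm] at h2
      omega
    · by_cases hya : y = a
      · subst hya
        simp [hxa] at h2
        omega
      · simp [hxa, hya] at h2
        omega

/-- `F` depends only on the support. -/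
lemma support_determined [Fintype A] [Nonempty A] (hS : Star m F)
    (hm : Fintype.card A * 4 < m) (w w' : List A) (hw : w.length = m) (hw' : w'.length = m)
    (h : ∀ a, a ∈ w ↔ a ∈ w') : F w = F w' := by
  obtain ⟨v, hv, hslv, hsv, e1⟩ := remove_singles hS hm _ w hw (le_refl _)
  obtain ⟨v', hv', hslv', hsv', e2⟩ := remove_singles hS hm _ w' hw' (le_refl _)
  rw [e1, e2]
  exact same_support hS hm _ v v' hv hv' hslv hslv'
    (fun a => (hsv a).trans ((h a).trans (hsv' a).symm)) rfl

end

open Classical in
/-- The general result in terms of words and lists of positions. -/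
theorem all_cases (A : Type u) [Fintype A] [Nonempty A] : ∃ N : ℕ, ∀ m : ℕ, N ≤ m →
    ∀ (B : Type v) (F : List A → B) (G : (ℕ → A) → B), DCS m F →
    (∀ i j : ℕ, i < j → j < m → ∃ (l : ℕ) (ℓ : List ℕ), (j :: l :: ℓ).Perm (List.range m) ∧
      ∀ a : ℕ → A, a i = a j → G a = F (a l :: a l :: ℓ.map a)) →
    ∃ ℓ : List ℕ, ℓ.Perm (List.range m) ∧ ∀ a : ℕ → A, G a = F (ℓ.map a) := by
  have : Inhabited A := Classical.inhabited_of_nonempty inferInstance
  obtain ⟨N, hN⟩ := good_case.{u, v} A
  refine ⟨max N (Fintype.card A * 4 + 10), ?_⟩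
  intro m hm B F G hF hdata
  have hmN : N ≤ m := le_trans (le_max_left _ _) hm
  have hmk : Fintype.card A * 4 + 10 ≤ m := le_trans (le_max_right _ _) hm
  have hkpos : 0 < Fintype.card A := Fintype.card_pos
  by_cases hgood : ∀ i j : ℕ, i < j → j < m → ∃ ℓ : List ℕ, (j :: i :: ℓ).Perm (List.range m) ∧
      ∀ a : ℕ → A, a i = a j → G a = F (a i :: a i :: ℓ.map a)
  · exact hN m hmN B F G hF hgood
  push Not at hgood
  obtain ⟨i, j, hij, hj, hbad⟩ := hgood
  obtain ⟨l, ℓ, hp, hval⟩ := hdata i j hij hj
  have hli : l ≠ i := by
    rintro rfl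
    obtain ⟨a, ha1, ha2⟩ := hbad ℓ hp
    exact ha2 (hval a ha1)
  -- a disjoint pair
  obtain ⟨i', j', hij', hj', hi'n, hj'n⟩ : ∃ i' j' : ℕ, i' < j' ∧ j' < m ∧
      (i' ≠ i ∧ i' ≠ j ∧ i' ≠ l) ∧ (j' ≠ i ∧ j' ≠ j ∧ j' ≠ l) := by
    have h1 : 1 < (Finset.range m \ {i, j, l}).card := by
      have h2 := Finset.le_card_sdiff {i, j, l} (Finset.range m)
      have h3 : ({i, j, l} : Finset ℕ).card ≤ 3 := Finset.card_le_three
      rw [Finset.card_range] at h2
      omega
    rw [Finset.one_lt_card] at h1
    obtain ⟨a, ha, b, hb, hab⟩ := h1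
    simp only [Finset.mem_sdiff, Finset.mem_range, Finset.mem_insert, Finset.mem_singleton,
      not_or] at ha hb
    rcases lt_or_gt_of_ne hab with h | h
    · exact ⟨a, b, h, hb.1, ha.2, hb.2⟩
    · exact ⟨b, a, h, ha.1, hb.2, ha.2⟩
  obtain ⟨l', ℓ', hp', hval'⟩ := hdata i' j' hij' hj'
  have hS : Star m F := ⟨hF, fun w hw x hx π hπ0 hπnd hxπ hπw hsl =>
    star hF (by omega) (by omega) (by omega) hp hli hval (by omega) hi'n hj'n hp' hval' w hw x hx
      π hπ0 hπnd hxπ hπw hsl⟩
  refine ⟨List.range m, List.Perm.refl _, ?_⟩
  intro a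
  obtain ⟨i₀, hi₀, j₀, hj₀, hne, heq⟩ : ∃ i ∈ Finset.range m, ∃ j ∈ Finset.range m,
      i ≠ j ∧ a i = a j := by
    apply Finset.exists_ne_map_eq_of_card_lt_of_maps_to (t := Finset.univ)
    · rw [Finset.card_univ, Finset.card_range]
      omega
    · intro x _
      exact Finset.mem_univ _
  obtain ⟨i₁, j₁, hij₁, hj₁, haij⟩ : ∃ i j : ℕ, i < j ∧ j < m ∧ a i = a j := by
    rw [Finset.mem_range] at hi₀ hj₀
    rcases lt_or_gt_of_ne hne with h | h
    · exact ⟨i₀, j₀, h, hj₀, heq⟩
    · exact ⟨j₀, i₀, h, hi₀, heq.symm⟩
  obtain ⟨l₁, ℓ₁, hp₁, hval₁⟩ := hdata i₁ j₁ hij₁ hj₁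
  rw [hval₁ a haij]
  have hlen : (j₁ :: l₁ :: ℓ₁).length = m := by rw [hp₁.length_eq, List.length_range]
  apply support_determined hS (by omega)
  · simpa using hlen
  · simp
  · intro c
    have h1 : c ∈ (List.range m).map a ↔ c ∈ (j₁ :: l₁ :: ℓ₁).map a :=
      (hp₁.symm.map a).mem_iff
    rw [h1]
    have hi₁ : i₁ ∈ (j₁ :: l₁ :: ℓ₁) := hp₁.mem_iff.2 (List.mem_range.2 (by omega))
    simp only [List.mem_cons] at hi₁
    simp only [List.map_cons, List.mem_cons, List.mem_map]
    constructor
    · tauto
    · rintro (h | h | h)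
      · rcases hi₁ with h2 | h2 | h2
        · omega
        · left; rw [h, ← haij, h2]
        · right; right; exact ⟨i₁, h2, by rw [h, haij]⟩
      · exact Or.inl h
      · exact Or.inr (Or.inr h)

end Pool.Agent.Helper53
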