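import Mathlib

set_option autoImplicit false

/-!
Zero-sum-free sets in `(Z_k)^r`, `k` even, larger than predicted.
-/

namespace Pool.Agent.Helper53.ZSF

open Finset

/-- families without zero-sum subfamilies give zero-sum-free sets. -/
theorem of_family {ι G : Type} [Fintype ι] [AddCommGroup G] [DecidableEq G]
    (x : ι → G) (hx : Function.Injective x)
    (h : ∀ s : Finset ι, s.Nonempty → ∑ i ∈ s, x i ≠ 0) :
    ∃ A : Finset G, A.card = Fintype.card ι ∧ ∀ B ⊆ A, B.Nonempty → ∑ b ∈ B, b ≠ 0 := by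
  classical
  refine ⟨univ.image x, by rw [card_image_of_injective _ hx, card_univ], ?_⟩
  intro B hB hne
  have e : B = (univ.filter fun i => x i ∈ B).image x := by
    ext b
    simp only [mem_image, mem_filter, mem_univ, true_and]
    constructor
    · intro hb
      obtain ⟨i, -, rfl⟩ := mem_image.mp (hB hb)
      exact ⟨i, hb, rfl⟩
    · rintro ⟨i, hi, rfl⟩
      exact hi
  rw [e, sum_image fun a _ b _ hab => hx hab]
  apply h
  obtain ⟨b, hb⟩ := hne
  obtain ⟨i, -, rfl⟩ := mem_image.mp (hB hb)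
  exact ⟨i, by simp [hb]⟩

/-- zero-sum-free sets are preserved by injective homomorphisms. -/
theorem of_inj {G G' : Type} [AddCommGroup G] [AddCommGroup G'] [DecidableEq G]
    [DecidableEq G'] (φ : G →+ G') (hφ : Function.Injective φ) {A : Finset G}
    (hA : ∀ B ⊆ A, B.Nonempty → ∑ b ∈ B, b ≠ 0) :
    ∃ A' : Finset G', A'.card = A.card ∧ ∀ B ⊆ A', B.Nonempty → ∑ b ∈ B, b ≠ 0 := by
  refine ⟨A.image φ, card_image_of_injective _ hφ, ?_⟩
  intro B hB hne h0
  obtain ⟨B', hB', rfl⟩ := subset_image_iff.mp hB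
  rw [sum_image fun a _ b _ hab => hφ hab, ← map_sum] at h0
  have h1 : ∑ b ∈ B', b = 0 := hφ (by rw [h0, map_zero])
  exact hA B' hB' (by simpa using hne) h1

section rank3

variable {h : ℕ}

theorem sum_all (hh : 1 ≤ h) [NeZero (2 * h)] : ∑ c : ZMod (2 * h), c = (h : ZMod (2 * h)) := by
  have e : ∑ c : ZMod (2 * h), c = ∑ i ∈ range (2 * h), ((i : ℕ) : ZMod (2 * h)) := by
    refine sum_nbij' (fun c => c.val) (fun i => (i : ZMod (2 * h))) ?_ ?_ ?_ ?_ ?_
    · intro c _; exact mem_range.mpr (ZMod.val_lt c)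
    · intro i _; exact mem_univ _
    · intro c _; exact ZMod.natCast_zmod_val c
    · intro i hi; exact ZMod.val_natCast_of_lt (mem_range.mp hi)
    · intro c _; exact (ZMod.natCast_zmod_val c).symm
  rw [e, ← Nat.cast_sum]
  have e2 : ∑ i ∈ range (2 * h), i = 2 * h * (h - 1) + h := by
    have := sum_range_id_mul_two (2 * h)
    obtain ⟨g, rfl⟩ : ∃ g, h = g + 1 := ⟨h - 1, by omega⟩
    simp only [Nat.add_sub_cancel]
    have e3 : 2 * (g + 1) - 1 = 2 * g + 1 := by omega
    rw [e3] at this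
    nlinarith
  rw [e2, Nat.cast_add, Nat.cast_mul, ZMod.natCast_self, zero_mul, zero_add]

/-- numbers of elements of a fibre. -/
theorem card_zero {k n : ℕ} (hn : n < k) (h0 : (n : ZMod k) = 0) : n = 0 := by
  rw [ZMod.natCast_eq_zero_iff] at h0
  exact Nat.eq_zero_of_dvd_of_lt h0 hn

theorem card_one {k n : ℕ} (hn : n + 1 < k) (h0 : (n : ZMod k) + 1 = 0) : False := by
  have : ((n + 1 : ℕ) : ZMod k) = 0 := by push_cast; exact h0
  have := card_zero hn this
  omega

theorem card_two {k n : ℕ} (hn : n + 2 ≤ k) (h0 : (n : ZMod k) + 2 = 0) : n + 2 = k := by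
  have h1 : ((n + 2 : ℕ) : ZMod k) = 0 := by push_cast; exact h0
  rw [ZMod.natCast_eq_zero_iff] at h1
  exact le_antisymm hn (Nat.le_of_dvd (by omega) h1)

/-- the third coordinates. -/
theorem third {w z W u : ℕ} (hw : w + W + u < h)
    (h0 : ((w + h * z + W + u : ℕ) : ZMod (2 * h)) = 0) : w = 0 ∧ W = 0 ∧ u = 0 := by
  rw [ZMod.natCast_eq_zero_iff] at h0
  have h1 : h ∣ w + h * z + W + u := (Dvd.intro_left 2 rfl).trans h0
  have h2 : h ∣ (w + W + u) := by
    have e : w + h * z + W + u = (w + W + u) + h * z := by ring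
    rw [e] at h1
    exact (Nat.dvd_add_left (Dvd.intro z rfl)).mp h1
  have := Nat.eq_zero_of_dvd_of_lt h2 hw
  omega

/-- the third coordinates of the elements `(1, 0, c)`. -/
def FS (h : ℕ) [NeZero (2 * h)] : Finset (ZMod (2 * h)) :=
  univ.filter fun c => c ≠ 0 ∧ c ≠ (h : ZMod (2 * h))

/-- the third coordinates of the elements `(0, 1, c)`. -/
def GS (h : ℕ) [NeZero (2 * h)] : Finset (ZMod (2 * h)) :=
  univ.filter fun c => c ≠ 0 ∧ c ≠ ((h + 1 : ℕ) : ZMod (2 * h))

theorem cast_ne {n : ℕ} (h0 : 0 < n) (hn : n < 2 * h) : ((n : ℕ) : ZMod (2 * h)) ≠ 0 := by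
  intro e
  rw [ZMod.natCast_eq_zero_iff] at e
  have := Nat.le_of_dvd h0 e
  omega

theorem two_facts [NeZero (2 * h)] (a : ZMod (2 * h)) (ha : a ≠ 0) :
    (univ.filter fun c : ZMod (2 * h) => c ≠ 0 ∧ c ≠ a).card + 2 = 2 * h ∧
    ∑ c ∈ univ.filter (fun c : ZMod (2 * h) => c ≠ 0 ∧ c ≠ a), c = (∑ c, c) - a := by
  classical
  have e : (univ.filter fun c : ZMod (2 * h) => c ≠ 0 ∧ c ≠ a) = (univ.erase 0).erase a := by
    ext c
    simp only [mem_filter, mem_univ, true_and, mem_erase, and_true]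
    tauto
  have h1 : a ∈ (univ : Finset (ZMod (2 * h))).erase 0 := by simp [ha]
  have hc1 := card_erase_add_one h1
  have hc2 := card_erase_add_one (mem_univ (0 : ZMod (2 * h)))
  rw [card_univ, ZMod.card] at hc2
  have hs1 := sum_erase_add (univ.erase (0 : ZMod (2 * h))) (fun c => c) h1
  have hs2 := sum_erase_add (univ : Finset (ZMod (2 * h))) (fun c => c) (mem_univ 0)
  rw [e]
  constructor
  · omega
  · rw [← hs2, ← hs1]; ring

theorem core3 (hh : 2 ≤ h) [NeZero (2 * h)] {BF BG : Finset (ZMod (2 * h))} (hBF : BF ⊆ FS h)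
    (hBG : BG ⊆ GS h) {b0 b1 b2 b3 z W u : ℕ} (h0 : b0 ≤ 1) (h1 : b1 ≤ 1) (h2 : b2 ≤ 1)
    (h3 : b3 ≤ 1) (hW : 2 + W + u < h)
    (E0 : (BF.card : ZMod (2 * h)) + (b0 + b1 + b2 - b3) = 0)
    (E1 : (BG.card : ZMod (2 * h)) + (b0 + b1 - b2 + b3) = 0)
    (E2 : ∑ c ∈ BF, c + ∑ c ∈ BG, c + (b0 + b1 * (1 + h) + b3) +
      ((h * z + W : ℕ) : ZMod (2 * h)) + (u : ZMod (2 * h)) = 0) :
    BF = ∅ ∧ BG = ∅ ∧ b0 = 0 ∧ b1 = 0 ∧ b2 = 0 ∧ b3 = 0 ∧ W = 0 ∧ u = 0 := by
  have hF := two_facts (h : ZMod (2 * h)) (cast_ne (by omega) (by omega))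
  have hG := two_facts ((h + 1 : ℕ) : ZMod (2 * h)) (cast_ne (by omega) (by omega))
  rw [sum_all (by omega)] at hF hG
  change (FS h).card + 2 = 2 * h ∧ ∑ c ∈ FS h, c = _ at hF
  change (GS h).card + 2 = 2 * h ∧ ∑ c ∈ GS h, c = _ at hG
  have hFs : ∑ c ∈ FS h, c = 0 := by rw [hF.2]; ring
  have hGs : ∑ c ∈ GS h, c = -1 := by rw [hG.2]; push_cast; ring
  have cF := card_le_card hBF
  have cG := card_le_card hBG
  have F0 : (BF.card : ZMod (2 * h)) = 0 → BF = ∅ := fun e =>
    card_eq_zero.mp (card_zero (by omega) e)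
  have G0 : (BG.card : ZMod (2 * h)) = 0 → BG = ∅ := fun e =>
    card_eq_zero.mp (card_zero (by omega) e)
  have F1 : (BF.card : ZMod (2 * h)) + 1 = 0 → False := fun e => card_one (by omega) e
  have G1 : (BG.card : ZMod (2 * h)) + 1 = 0 → False := fun e => card_one (by omega) e
  have F2 : (BF.card : ZMod (2 * h)) + 2 = 0 → ∑ c ∈ BF, c = 0 := by
    intro e
    have := card_two (by omega) e
    rw [eq_of_subset_of_card_le hBF (by omega), hFs]
  have G2 : (BG.card : ZMod (2 * h)) + 2 = 0 → ∑ c ∈ BG, c = -1 := by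
    intro e
    have := card_two (by omega) e
    rw [eq_of_subset_of_card_le hBG (by omega), hGs]
  interval_cases b0 <;> interval_cases b1 <;> interval_cases b2 <;> interval_cases b3 <;>
    push_cast at E0 E1 E2
  · -- 0000
    have eF := F0 (by linear_combination E0)
    have eG := G0 (by linear_combination E1)
    rw [eF, eG, sum_empty] at E2
    have := third (w := 0) (z := z) (W := W) (u := u) (h := h) (by omega)
      (by push_cast; linear_combination E2)
    exact ⟨eF, eG, rfl, rfl, rfl, rfl, this.2.1, this.2.2⟩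
  · -- 0001
    exact (G1 (by linear_combination E1)).elim
  · -- 0010
    exact (F1 (by linear_combination E0)).elim
  · -- 0011
    have eF := F0 (by linear_combination E0)
    have eG := G0 (by linear_combination E1)
    rw [eF, eG, sum_empty] at E2
    have := third (w := 1) (z := z) (W := W) (u := u) (h := h) (by omega)
      (by push_cast; linear_combination E2)
    omega
  · -- 0100
    exact (F1 (by linear_combination E0)).elim
  · -- 0101
    have eF := F0 (by linear_combination E0)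
    have eG := G2 (by linear_combination E1)
    rw [eF, eG, sum_empty] at E2
    have := third (w := 1) (z := z + 1) (W := W) (u := u) (h := h) (by omega)
      (by push_cast; linear_combination E2)
    omega
  · -- 0110
    have eF := F2 (by linear_combination E0)
    have eG := G0 (by linear_combination E1)
    rw [eF, eG, sum_empty] at E2
    have := third (w := 1) (z := z + 1) (W := W) (u := u) (h := h) (by omega)
      (by push_cast; linear_combination E2)
    omega
  · -- 0111
    exact (F1 (by linear_combination E0)).elim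
  · -- 1000
    exact (F1 (by linear_combination E0)).elim
  · -- 1001
    have eF := F0 (by linear_combination E0)
    have eG := G2 (by linear_combination E1)
    rw [eF, eG, sum_empty] at E2
    have := third (w := 1) (z := z) (W := W) (u := u) (h := h) (by omega)
      (by push_cast; linear_combination E2)
    omega
  · -- 1010
    have eF := F2 (by linear_combination E0)
    have eG := G0 (by linear_combination E1)
    rw [eF, eG, sum_empty] at E2
    have := third (w := 1) (z := z) (W := W) (u := u) (h := h) (by omega)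
      (by push_cast; linear_combination E2)
    omega
  · -- 1011
    exact (F1 (by linear_combination E0)).elim
  · -- 1100
    have eF := F2 (by linear_combination E0)
    have eG := G2 (by linear_combination E1)
    rw [eF, eG] at E2
    have := third (w := 1) (z := z + 1) (W := W) (u := u) (h := h) (by omega)
      (by push_cast; linear_combination E2)
    omega
  · -- 1101
    exact (F1 (by linear_combination E0)).elim
  · -- 1110
    exact (G1 (by linear_combination E1)).elim
  · -- 1111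
    have eF := F2 (by linear_combination E0)
    have eG := G2 (by linear_combination E1)
    rw [eF, eG] at E2
    have := third (w := 2) (z := z + 1) (W := W) (u := u) (h := h) (by omega)
      (by push_cast; linear_combination E2)
    omega

end rank3

/-! ### The family in rank 3 -/

/-- the group in rank 3. -/
abbrev V3 (h : ℕ) : Type := ZMod (2 * h) × ZMod (2 * h) × ZMod (2 * h)

/-- the third coordinates of the elements `(0, 0, n)`. -/
def TS (h j : ℕ) : Finset ℕ := (range j).image (fun i => i + 1) ∪ (range (j + 1)).image (fun i => h + i)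

theorem TS_card {h j : ℕ} (hj : j < h) : (TS h j).card = 2 * j + 1 := by
  unfold TS
  rw [card_union_of_disjoint, card_image_of_injective _ (fun a b hab => by simpa using hab),
    card_image_of_injective _ (fun a b hab => by simpa using hab), card_range, card_range]
  · ring
  · rw [disjoint_left]
    intro a ha hb
    simp only [mem_image, mem_range] at ha hb
    obtain ⟨i, hi, rfl⟩ := ha
    obtain ⟨k, hk, hk2⟩ := hb
    omega

theorem TS_lt {h j n : ℕ} (hj : j < h) (hn : n ∈ TS h j) : 0 < n ∧ n < 2 * h := by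
  simp only [TS, mem_union, mem_image, mem_range] at hn
  rcases hn with ⟨i, hi, rfl⟩ | ⟨i, hi, rfl⟩ <;> omega

theorem TS_mod {h j : ℕ} (hj : j < h) : ∑ n ∈ TS h j, n % h = j * (j + 1) := by
  unfold TS
  rw [sum_union, sum_image (fun a _ b _ hab => by simpa using hab),
    sum_image (fun a _ b _ hab => by simpa using hab)]
  · have e1 : ∑ x ∈ range j, (x + 1) % h = ∑ x ∈ range j, (x + 1) :=
      sum_congr rfl fun x hx => Nat.mod_eq_of_lt (by have := mem_range.mp hx; omega)
    have e2 : ∑ x ∈ range (j + 1), (h + x) % h = ∑ x ∈ range (j + 1), x := by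
      refine sum_congr rfl fun x hx => ?_
      rw [Nat.add_mod_left, Nat.mod_eq_of_lt (by have := mem_range.mp hx; omega)]
    rw [e1, e2, sum_range_succ' (fun x => x) j, add_zero, ← two_mul, mul_comm]
    have := sum_range_id_mul_two (j + 1)
    rw [sum_range_succ' (fun x => x) j, add_zero, Nat.add_sub_cancel] at this
    rw [this]; ring
  · rw [disjoint_left]
    intro a ha hb
    simp only [mem_image, mem_range] at ha hb
    obtain ⟨i, hi, rfl⟩ := ha
    obtain ⟨k, hk, hk2⟩ := hb
    omega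

/-- the four additional elements. -/
def gad (h : ℕ) : Fin 4 → V3 h := ![(1, 1, 1), (1, 1, 1 + h), (1, -1, 0), (-1, 1, 1)]

/-- the family. -/
def x3 (h j : ℕ) [NeZero (2 * h)] : {c // c ∈ FS h} ⊕ {c // c ∈ GS h} ⊕ Fin 4 ⊕ {n // n ∈ TS h j} →
    V3 h
  | .inl c => (1, 0, c.1)
  | .inr (.inl c) => (0, 1, c.1)
  | .inr (.inr (.inl g)) => gad h g
  | .inr (.inr (.inr n)) => (0, 0, (n.1 : ZMod (2 * h)))

section

variable {h j : ℕ}

theorem one_ne (hh : 2 ≤ h) : (1 : ZMod (2 * h)) ≠ 0 := by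
  have := cast_ne (h := h) (n := 1) one_pos (by omega)
  simpa using this

theorem one_ne_neg (hh : 2 ≤ h) : (1 : ZMod (2 * h)) ≠ -1 := by
  intro e
  have := cast_ne (h := h) (n := 2) two_pos (by omega)
  apply this
  push_cast
  linear_combination e

theorem gad_inj (hh : 2 ≤ h) : Function.Injective (gad h) := by
  have h1 := one_ne hh
  have h2 := one_ne_neg hh
  have h3 : (h : ZMod (2 * h)) ≠ 0 := cast_ne (by omega) (by omega)
  intro a b hab
  fin_cases a <;> fin_cases b <;> simp [gad, Prod.ext_iff, h1, h2, h2.symm, h3, h3.symm] at hab ⊢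

theorem x3_inj (hh : 2 ≤ h) (hj : j < h) [NeZero (2 * h)] : Function.Injective (x3 h j) := by
  have h1 := one_ne hh
  have h2 := one_ne_neg hh
  have h3 : (h : ZMod (2 * h)) ≠ 0 := cast_ne (by omega) (by omega)
  intro a b hab
  rcases a with c | c | g | n <;> rcases b with c' | c' | g' | n'
  · simp only [x3, Prod.mk.injEq, true_and] at hab
    rw [Subtype.ext hab]
  · simp only [x3, Prod.mk.injEq, h1, false_and] at hab
  · fin_cases g' <;> simp [x3, gad, h1, h2, h1.symm, h2.symm] at hab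
  · simp only [x3, Prod.mk.injEq, h1, false_and] at hab
  · simp only [x3, Prod.mk.injEq, h1.symm, false_and] at hab
  · simp only [x3, Prod.mk.injEq, true_and] at hab
    rw [Subtype.ext hab]
  · fin_cases g' <;> simp [x3, gad, h1, h2, h1.symm, h2.symm] at hab
  · simp only [x3, Prod.mk.injEq, h1, false_and, and_false] at hab
  · fin_cases g <;> simp [x3, gad, h1, h2, h1.symm, h2.symm] at hab
  · fin_cases g <;> simp [x3, gad, h1, h2, h1.symm, h2.symm] at hab
  · rw [gad_inj hh hab]
  · fin_cases g <;> simp [x3, gad, h1, h2, h1.symm, h2.symm] at hab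
  · simp only [x3, Prod.mk.injEq, h1.symm, false_and] at hab
  · simp only [x3, Prod.mk.injEq, h1.symm, false_and, and_false] at hab
  · fin_cases g' <;> simp [x3, gad, h1, h2, h1.symm, h2.symm] at hab
  · simp only [x3, Prod.mk.injEq, true_and] at hab
    rw [ZMod.natCast_eq_natCast_iff', Nat.mod_eq_of_lt (TS_lt hj n.2).2,
      Nat.mod_eq_of_lt (TS_lt hj n'.2).2] at hab
    rw [Subtype.ext hab]

theorem gad_sum (sg : Finset (Fin 4)) : ∃ b0 b1 b2 b3 : ℕ, b0 ≤ 1 ∧ b1 ≤ 1 ∧ b2 ≤ 1 ∧ b3 ≤ 1 ∧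
    ∑ g ∈ sg, gad h g = ((b0 + b1 + b2 - b3, b0 + b1 - b2 + b3, b0 + b1 * (1 + h) + b3) : V3 h) ∧
    (b0 = 0 → b1 = 0 → b2 = 0 → b3 = 0 → sg = ∅) := by
  classical
  refine ⟨if 0 ∈ sg then 1 else 0, if 1 ∈ sg then 1 else 0, if 2 ∈ sg then 1 else 0,
    if 3 ∈ sg then 1 else 0, ?_, ?_, ?_, ?_, ?_, ?_⟩
  · split_ifs <;> omega
  · split_ifs <;> omega
  · split_ifs <;> omega
  · split_ifs <;> omega
  · have e : ∑ g ∈ sg, gad h g = ∑ g : Fin 4, if g ∈ sg then gad h g else 0 := by
      rw [Finset.sum_ite_mem, univ_inter]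
    rw [e, Fin.sum_univ_four]
    by_cases h0 : (0 : Fin 4) ∈ sg <;> by_cases h1 : (1 : Fin 4) ∈ sg <;>
      by_cases h2 : (2 : Fin 4) ∈ sg <;> by_cases h3 : (3 : Fin 4) ∈ sg <;>
      simp only [h0, h1, h2, h3, if_true, if_false, gad] <;>
      refine Prod.ext ?_ (Prod.ext ?_ ?_) <;> simp <;> try ring
  · intro h0 h1 h2 h3
    have k0 : (0 : Fin 4) ∉ sg := by intro hc; simp [hc] at h0
    have k1 : (1 : Fin 4) ∉ sg := by intro hc; simp [hc] at h1
    have k2 : (2 : Fin 4) ∉ sg := by intro hc; simp [hc] at h2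
    have k3 : (3 : Fin 4) ∉ sg := by intro hc; simp [hc] at h3
    rw [eq_empty_iff_forall_notMem]
    intro g
    fin_cases g
    · exact k0
    · exact k1
    · exact k2
    · exact k3

theorem zero3 {u : ℕ} (hh : j * (j + 1) + u + 3 ≤ h) [NeZero (2 * h)]
    (s : Finset ({c // c ∈ FS h} ⊕ {c // c ∈ GS h} ⊕ Fin 4 ⊕ {n // n ∈ TS h j}))
    (hs : ∑ i ∈ s, x3 h j i + (0, 0, (u : ZMod (2 * h))) = 0) : s = ∅ ∧ u = 0 := by
  classical
  have hj : j < h := by nlinarith
  rw [sum_sum_eq_sum_toLeft_add_sum_toRight, sum_sum_eq_sum_toLeft_add_sum_toRight,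
    sum_sum_eq_sum_toLeft_add_sum_toRight] at hs
  simp only [x3] at hs
  obtain ⟨sF, hsF⟩ : ∃ sF, sF = s.toLeft := ⟨_, rfl⟩
  obtain ⟨sG, hsG⟩ : ∃ sG, sG = s.toRight.toLeft := ⟨_, rfl⟩
  obtain ⟨sg, hsg⟩ : ∃ sg, sg = s.toRight.toRight.toLeft := ⟨_, rfl⟩
  obtain ⟨sT, hsT⟩ : ∃ sT, sT = s.toRight.toRight.toRight := ⟨_, rfl⟩
  rw [← hsF, ← hsG, ← hsg, ← hsT] at hs
  obtain ⟨b0, b1, b2, b3, h0, h1, h2, h3, hg, hg0⟩ := gad_sum (h := h) sg
  rw [hg] at hs
  have e1 := congrArg Prod.fst hs
  have e2 := congrArg (fun x => x.2.1) hs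
  have e3 := congrArg (fun x => x.2.2) hs
  simp only [Prod.fst_add, Prod.snd_add, Prod.fst_sum, Prod.snd_sum, sum_const, nsmul_eq_mul,
    mul_one, mul_zero, add_zero, zero_add, Prod.fst_zero, Prod.snd_zero] at e1 e2 e3
  have cF : (sF.image Subtype.val).card = sF.card := card_image_of_injective _
    Subtype.val_injective
  have cG : (sG.image Subtype.val).card = sG.card := card_image_of_injective _
    Subtype.val_injective
  have tF : ∑ c ∈ sF.image Subtype.val, c = ∑ c ∈ sF, c.1 :=
    sum_image fun a _ b _ hab => Subtype.ext hab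
  have tG : ∑ c ∈ sG.image Subtype.val, c = ∑ c ∈ sG, c.1 :=
    sum_image fun a _ b _ hab => Subtype.ext hab
  have mF : sF.image Subtype.val ⊆ FS h := by
    intro c hc
    obtain ⟨c', -, rfl⟩ := mem_image.mp hc
    exact c'.2
  have mG : sG.image Subtype.val ⊆ GS h := by
    intro c hc
    obtain ⟨c', -, rfl⟩ := mem_image.mp hc
    exact c'.2
  have tT : ∑ n ∈ sT, (n.1 : ZMod (2 * h)) =
      ((h * (∑ n ∈ sT, n.1 / h) + ∑ n ∈ sT, n.1 % h : ℕ) : ZMod (2 * h)) := by
    rw [← Nat.cast_sum, mul_sum, ← sum_add_distrib]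
    congr 1
    exact sum_congr rfl fun n _ => (Nat.div_add_mod n.1 h).symm
  have hW : ∑ n ∈ sT, n.1 % h ≤ j * (j + 1) := by
    rw [← TS_mod hj]
    have e : ∑ n ∈ sT.image Subtype.val, n % h = ∑ n ∈ sT, n.1 % h :=
      sum_image fun a _ b _ hab => Subtype.ext hab
    rw [← e]
    refine sum_le_sum_of_subset ?_
    intro c hc
    obtain ⟨c', -, rfl⟩ := mem_image.mp hc
    exact c'.2
  have hc := core3 (h := h) (by omega) mF mG (z := ∑ n ∈ sT, n.1 / h) (W := ∑ n ∈ sT, n.1 % h)
    (u := u) h0 h1 h2 h3 (by omega) (by rw [cF]; linear_combination e1)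
    (by rw [cG]; linear_combination e2) (by rw [tF, tG, ← tT]; linear_combination e3)
  obtain ⟨k1, k2, k3, k4, k5, k6, k7, k8⟩ := hc
  have l1 : sF = ∅ := image_eq_empty.mp k1
  have l2 : sG = ∅ := image_eq_empty.mp k2
  have l3 := hg0 k3 k4 k5 k6
  have l4 : sT = ∅ := by
    have hall : ∀ n ∈ sT, n.1 = h := by
      intro n hn
      have h1 := (sum_eq_zero_iff.mp k7) n hn
      have h2 := TS_lt hj n.2
      obtain ⟨q, hq⟩ := Nat.dvd_of_mod_eq_zero h1
      have : q = 1 := by
        rcases q with _ | _ | q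
        · omega
        · rfl
        · nlinarith
      rw [hq, this, mul_one]
    rcases sT.eq_empty_or_nonempty with he | ⟨n, hn⟩
    · exact he
    · exfalso
      have hs1 : sT = {n} := by
        refine eq_singleton_iff_unique_mem.mpr ⟨hn, fun n' hn' => ?_⟩
        exact Subtype.ext ((hall n' hn').trans (hall n hn).symm)
      rw [l1, l2, hs1, k3, k4, k6, k8] at e3
      simp only [sum_empty, sum_singleton, hall n hn, Nat.cast_zero, zero_mul, add_zero,
        zero_add] at e3
      exact cast_ne (h := h) (n := h) (by omega) (by omega) e3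
  refine ⟨?_, k8⟩
  rw [← toLeft_disjSum_toRight (u := s), ← hsF, l1, ← toLeft_disjSum_toRight (u := s.toRight),
    ← hsG, l2, ← toLeft_disjSum_toRight (u := s.toRight.toRight), ← hsg, l3, ← hsT, l4]
  simp

/-! ### Higher rank -/

/-- a full fibre over a new direction has the sum `(0, 0, 1)`. -/
def yv (h : ℕ) (c : ZMod (2 * h)) : V3 h :=
  if c = 0 then (1, 0, 2 - h) else if c = 1 then (-1, 0, 0) else (0, 0, c)

theorem yv_inj (hh : 2 ≤ h) : Function.Injective (yv h) := by
  have h1 := one_ne hh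
  have h2 := one_ne_neg hh
  intro a b hab
  unfold yv at hab
  split_ifs at hab with k1 k2 k3 k4 k5 k6 k7 k8
  · rw [k1, k2]
  · simp only [Prod.mk.injEq, h2, false_and] at hab
  · simp only [Prod.mk.injEq, h1, false_and] at hab
  · simp only [Prod.mk.injEq, h2.symm, false_and] at hab
  · rw [k4, k6]
  · simp only [Prod.mk.injEq, neg_eq_zero, h1, false_and] at hab
  · simp only [Prod.mk.injEq, h1.symm, false_and] at hab
  · simp only [Prod.mk.injEq, zero_eq_neg, h1, false_and] at hab
  · simpa using hab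

theorem yv_sum (hh : 2 ≤ h) [NeZero (2 * h)] : ∑ c, yv h c = (0, 0, 1) := by
  classical
  have h1 := one_ne hh
  have e : ∀ c, yv h c = ((0, 0, c) : V3 h) + (if c = 0 then ((1, 0, 2 - h) : V3 h) else 0) +
      (if c = 1 then ((-1, 0, -1) : V3 h) else 0) := by
    intro c
    unfold yv
    by_cases k1 : c = 0
    · subst k1
      simp [h1.symm]
    · by_cases k2 : c = 1
      · subst k2
        simp [h1]
      · simp [k1, k2]
  rw [sum_congr rfl fun c _ => e c, sum_add_distrib, sum_add_distrib, Finset.sum_ite_eq',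
    Finset.sum_ite_eq', if_pos (mem_univ _), if_pos (mem_univ _)]
  refine Prod.ext ?_ (Prod.ext ?_ ?_)
  · simp [Prod.fst_sum]
  · simp [Prod.fst_sum, Prod.snd_sum]
  · simp only [Prod.snd_add, Prod.snd_sum]
    rw [sum_all (by omega)]
    ring

/-- the family in rank `m + 3`. -/
def xr (h j m : ℕ) [NeZero (2 * h)] :
    ({c // c ∈ FS h} ⊕ {c // c ∈ GS h} ⊕ Fin 4 ⊕ {n // n ∈ TS h j}) ⊕ (Fin m × ZMod (2 * h)) →
    V3 h × (Fin m → ZMod (2 * h)) :=
  Sum.elim (fun i => (x3 h j i, 0)) (fun p => (yv h p.2, Pi.single p.1 1))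

theorem xr_inj {m : ℕ} (hh : 2 ≤ h) (hj : j < h) [NeZero (2 * h)] :
    Function.Injective (xr h j m) := by
  have h1 := one_ne hh
  refine Function.Injective.sumElim ?_ ?_ ?_
  · intro a b hab
    exact x3_inj hh hj (congrArg Prod.fst hab)
  · rintro ⟨i, c⟩ ⟨i', c'⟩ hab
    simp only [Prod.mk.injEq] at hab
    have e2 := yv_inj hh hab.1
    have e1 : i = i' := by
      by_contra hne
      have := congrFun hab.2 i
      rw [Pi.single_eq_same, Pi.single_eq_of_ne hne] at this
      exact h1 this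
    rw [e1, e2]
  · rintro a ⟨i, c⟩ hab
    have := congrFun (congrArg Prod.snd hab) i
    simp only [Pi.zero_apply, Pi.single_eq_same] at this
    exact h1 this.symm

theorem xr_free {m : ℕ} (hh : j * (j + 1) + m + 3 ≤ h) [NeZero (2 * h)]
    (s : Finset (({c // c ∈ FS h} ⊕ {c // c ∈ GS h} ⊕ Fin 4 ⊕ {n // n ∈ TS h j}) ⊕
      (Fin m × ZMod (2 * h)))) (hs : ∑ i ∈ s, xr h j m i = 0) : s = ∅ := by
  classical
  rw [sum_sum_eq_sum_toLeft_add_sum_toRight] at hs
  simp only [xr, Sum.elim_inl, Sum.elim_inr] at hs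
  obtain ⟨s1, hs1⟩ : ∃ s1, s1 = s.toLeft := ⟨_, rfl⟩
  obtain ⟨s2, hs2⟩ : ∃ s2, s2 = s.toRight := ⟨_, rfl⟩
  rw [← hs1, ← hs2] at hs
  have e1 := congrArg Prod.fst hs
  have e2 := congrArg Prod.snd hs
  simp only [Prod.fst_add, Prod.snd_add, Prod.fst_sum, Prod.snd_sum, Prod.fst_zero,
    Prod.snd_zero, sum_const_zero, zero_add] at e1 e2
  -- the fibres
  let S : Fin m → Finset (ZMod (2 * h)) := fun i => univ.filter fun c => (i, c) ∈ s2
  have hsplit : ∀ {M : Type} [AddCommMonoid M] (f : Fin m → ZMod (2 * h) → M),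
      ∑ p ∈ s2, f p.1 p.2 = ∑ i, ∑ c ∈ S i, f i c := by
    intro M _ f
    have e : ∑ p ∈ s2, f p.1 p.2 = ∑ p : Fin m × ZMod (2 * h), if p ∈ s2 then f p.1 p.2 else 0 := by
      rw [Finset.sum_ite_mem, univ_inter]
    rw [e, Fintype.sum_prod_type]
    refine sum_congr rfl fun i _ => ?_
    rw [← sum_filter]
  have hS : ∀ i, S i = ∅ ∨ S i = univ := by
    intro i
    have h1 := congrFun e2 i
    rw [Finset.sum_apply, hsplit (fun a _ => (Pi.single a (1 : ZMod (2 * h)) : Fin m → _) i)]
      at h1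
    rw [sum_eq_single i] at h1
    · simp only [Pi.single_eq_same, sum_const, nsmul_eq_mul, mul_one, Pi.zero_apply] at h1
      have hle : (S i).card ≤ 2 * h := by
        have := card_le_univ (S i)
        rwa [ZMod.card] at this
      rcases hle.lt_or_eq with hlt | heq
      · exact Or.inl (card_eq_zero.mp (card_zero hlt h1))
      · right
        exact (card_eq_iff_eq_univ _).mp (by rw [heq, ZMod.card])
    · intro a _ ha
      rw [Pi.single_eq_of_ne ha.symm]
      simp
    · simp
  let u : ℕ := (univ.filter fun i => S i = univ).card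
  have hu : u ≤ m := by
    have := card_le_univ (univ.filter fun i => S i = univ)
    rwa [Fintype.card_fin] at this
  have hy : ∑ p ∈ s2, yv h p.2 = (0, 0, (u : ZMod (2 * h))) := by
    rw [hsplit (fun _ c => yv h c)]
    have e : ∀ i, ∑ c ∈ S i, yv h c = if S i = univ then (0, 0, 1) else 0 := by
      intro i
      rcases hS i with hi | hi
      · rw [hi, sum_empty, if_neg]
        intro hc
        have : (0 : ZMod (2 * h)) ∈ (∅ : Finset (ZMod (2 * h))) := by rw [hc]; exact mem_univ _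
        simp at this
      · rw [if_pos hi, hi, yv_sum (by omega)]
    rw [sum_congr rfl fun i _ => e i, ← sum_filter, sum_const]
    simp [u]
  rw [hy] at e1
  obtain ⟨k1, k2⟩ := zero3 (j := j) (by omega) s1 e1
  have k3 : s2 = ∅ := by
    rw [eq_empty_iff_forall_notMem]
    rintro ⟨i, c⟩ hic
    have h1 : c ∈ S i := by simp [S, hic]
    rcases hS i with hi | hi
    · rw [hi] at h1
      simp at h1
    · have : i ∈ univ.filter fun i => S i = univ := by simp [hi]
      rw [card_eq_zero.mp k2] at this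
      simp at this
  rw [← toLeft_disjSum_toRight (u := s), ← hs1, k1, ← hs2, k3]
  simp

/-- the transfer to `Fin (m + 3) → Z_k`. -/
def toFin (h m : ℕ) : V3 h × (Fin m → ZMod (2 * h)) →+ (Fin (m + 3) → ZMod (2 * h)) where
  toFun p := Fin.cons p.1.1 (Fin.cons p.1.2.1 (Fin.cons p.1.2.2 p.2))
  map_zero' := by
    funext i
    refine Fin.cases rfl (fun i => ?_) i
    refine Fin.cases rfl (fun i => ?_) i
    refine Fin.cases rfl (fun i => ?_) i
    rfl
  map_add' p q := by
    funext i
    refine Fin.cases rfl (fun i => ?_) i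
    refine Fin.cases rfl (fun i => ?_) i
    refine Fin.cases rfl (fun i => ?_) i
    rfl

theorem toFin_inj (h m : ℕ) : Function.Injective (toFin h m) := by
  rintro ⟨⟨a, b, c⟩, v⟩ ⟨⟨a', b', c'⟩, v'⟩ hab
  simp only [toFin, AddMonoidHom.coe_mk, ZeroHom.coe_mk, Fin.cons_inj] at hab
  obtain ⟨rfl, rfl, rfl, rfl⟩ := hab
  rfl

/-- **Lower bound.** -/
theorem main {m : ℕ} (hh : j * (j + 1) + m + 3 ≤ h) :
    ∃ A : Finset (Fin (m + 3) → ZMod (2 * h)), A.card = (m + 2) * (2 * h) + 2 * j + 1 ∧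
      ∀ B ⊆ A, B.Nonempty → ∑ b ∈ B, b ≠ 0 := by
  classical
  have : NeZero (2 * h) := ⟨by omega⟩
  have hj : j < h := by nlinarith
  obtain ⟨A, hA, hA2⟩ := of_family (xr h j m) (xr_inj (by omega) hj) fun s hs h0 => by
    rw [xr_free hh s h0] at hs
    simp at hs
  obtain ⟨A', hA', hA'2⟩ := of_inj (toFin h m) (toFin_inj h m) hA2
  refine ⟨A', ?_, hA'2⟩
  rw [hA', hA]
  have c1 : Fintype.card {c // c ∈ FS h} + 2 = 2 * h := by
    rw [Fintype.card_coe]
    exact (two_facts (h : ZMod (2 * h)) (cast_ne (by omega) (by omega))).1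
  have c2 : Fintype.card {c // c ∈ GS h} + 2 = 2 * h := by
    rw [Fintype.card_coe]
    exact (two_facts ((h + 1 : ℕ) : ZMod (2 * h)) (cast_ne (by omega) (by omega))).1
  rw [Fintype.card_sum, Fintype.card_sum, Fintype.card_sum, Fintype.card_sum, Fintype.card_prod,
    Fintype.card_fin, Fintype.card_fin, ZMod.card, Fintype.card_coe (TS h j), TS_card hj]
  have e : (m + 2) * (2 * h) = m * (2 * h) + 4 * h := by ring
  rw [e]
  omega

end

end Pool.Agent.Helper53.ZSF
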